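import Pool.Agent.Helper34.BX.St

/-! # Project BX, module AR1a: elementary facts on the model arcs -/

set_option autoImplicit false

open scoped Manifold ContDiff Topology ComplexConjugate
open Set Filter Pool.Agent.Helper65.Barb Pool.Agent.Helper18.BI

namespace Pool.Agent.Helper34.BX

open Pool.Agent.Helper34.BI
open Pool.Agent.Helper70.BI

private theorem cd_ch : ContDiff ℝ ∞ ch := contDiff_hat _ _

private theorem cd_vv : ContDiff ℝ ∞ vv := by
  unfold vv
  exact (contDiff_hat _ _).mul ((contDiff_id.sub contDiff_const).mul (contDiff_id.sub contDiff_const))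

private theorem cd_b2 : ContDiff ℝ ∞ b2 := contDiff_plateau _ _ _
private theorem cd_b3 : ContDiff ℝ ∞ b3 := contDiff_plateau _ _ _

private theorem cd_re (lam : ℝ) : ContDiff ℝ ∞ (fun a => lam * ch a) := contDiff_const.mul cd_ch

private theorem cd_im (lam : ℝ) : ContDiff ℝ ∞ (fun a => lam * ch a * a) := (cd_re lam).mul contDiff_id

private theorem ww_eq (lam a : ℝ) :
    ww lam a = ((lam * ch a : ℝ) : ℂ) + ((lam * ch a * a : ℝ) : ℂ) * Complex.I := by
  apply Complex.ext <;> simp [ww]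

private theorem cd_ww (lam : ℝ) : ContDiff ℝ ∞ (ww lam) := by
  have : ww lam = fun a => ((lam * ch a : ℝ) : ℂ) + ((lam * ch a * a : ℝ) : ℂ) * Complex.I :=
    funext (ww_eq lam)
  rw [this]
  exact (Complex.ofRealCLM.contDiff.comp (cd_re lam)).add
    ((Complex.ofRealCLM.contDiff.comp (cd_im lam)).mul contDiff_const)

private theorem ch_zero {a : ℝ} (h : a ≤ 1 / 4 ∨ 3 / 4 ≤ a) : ch a = 0 := hat_eq_zero h

/-- the bound which makes `rr` smooth -/
theorem bound_AR1a {lam : ℝ} (hl : lam ∈ Ioc (0 : ℝ) (1 / 10)) (a : ℝ) :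
    (lam * ch a) ^ 2 * (1 + a ^ 2) ≤ 1 / 64 := by
  obtain ⟨h0, h1⟩ := hl
  rcases le_or_gt a (1 / 4) with h | h
  · rw [ch_zero (Or.inl h)]; norm_num
  rcases le_or_gt (3 / 4) a with h' | h'
  · rw [ch_zero (Or.inr h')]; norm_num
  have c0 : 0 ≤ ch a := hat_nonneg _ _ _
  have c1 : ch a ≤ 1 := hat_le_one _ _ _
  have e0 : 0 ≤ lam * ch a := mul_nonneg h0.le c0
  have e1 : lam * ch a ≤ 1 / 10 := by nlinarith
  have e2 : (lam * ch a) ^ 2 ≤ 1 / 100 := by nlinarith
  have e3 : 1 + a ^ 2 ≤ 25 / 16 := by nlinarith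
  have e4 : 0 ≤ 1 + a ^ 2 := by positivity
  calc (lam * ch a) ^ 2 * (1 + a ^ 2) ≤ 1 / 100 * (25 / 16) :=
        mul_le_mul e2 e3 e4 (by norm_num)
    _ = 1 / 64 := by norm_num

theorem contDiff_rr_AR1a {lam : ℝ} (hl : lam ∈ Ioc (0 : ℝ) (1 / 10)) : ContDiff ℝ ∞ (rr lam) := by
  unfold rr
  refine ContDiff.sqrt ?_ ?_
  · exact contDiff_const.sub (((cd_re lam).pow 2).mul (contDiff_const.add (contDiff_id.pow 2)))
  · intro a
    have := bound_AR1a hl a
    intro h
    nlinarith

private theorem cd_UU {lam : ℝ} (hl : lam ∈ Ioc (0 : ℝ) (1 / 10)) :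
    ContDiff ℝ ∞ (fun z : ℝ × ℝ × ℝ => UU lam z.1 z.2.1 z.2.2) := by
  have hx : ContDiff ℝ ∞ (fun z : ℝ × ℝ × ℝ => z.1) := contDiff_fst
  have ht : ContDiff ℝ ∞ (fun z : ℝ × ℝ × ℝ => z.2.1) := contDiff_snd.fst
  have ha : ContDiff ℝ ∞ (fun z : ℝ × ℝ × ℝ => z.2.2) := contDiff_snd.snd
  have h2 : ContDiff ℝ ∞ (fun z : ℝ × ℝ × ℝ => b2 z.2.2) := cd_b2.comp ha
  have h3 : ContDiff ℝ ∞ (fun z : ℝ × ℝ × ℝ => b3 z.2.2) := cd_b3.comp ha
  have hr : ContDiff ℝ ∞ (fun z : ℝ × ℝ × ℝ => rr lam z.2.2) := (contDiff_rr_AR1a hl).comp ha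
  unfold UU
  exact (ha.add (h2.mul (((contDiff_const.sub hr).sub (contDiff_const.mul hx)).sub ha))).add
    (h3.mul ((hr.add (contDiff_const.mul ht)).sub ha))

private theorem cd_hh4 {lam : ℝ} (hl : lam ∈ Ioc (0 : ℝ) (1 / 10)) :
    ContDiff ℝ ∞ (fun z : ℝ × ℝ × ℝ => hh4 lam z.1 z.2.1 z.2.2) := by
  have ha : ContDiff ℝ ∞ (fun z : ℝ × ℝ × ℝ => z.2.2) := contDiff_snd.snd
  unfold hh4
  exact (contDiff_const.add (contDiff_const.mul (cd_vv.comp ha))).prodMk
    ((cd_UU hl).prodMk ((cd_ww lam).comp ha))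

private theorem b2_zero {a : ℝ} (h : a ≤ 11 / 30 ∨ 13 / 30 ≤ a) : b2 a = 0 := by
  unfold b2
  exact plateau_zero (by norm_num) (by rcases h with h | h; left; linarith; right; linarith)

private theorem b3_zero {a : ℝ} (h : a ≤ 17 / 30 ∨ 19 / 30 ≤ a) : b3 a = 0 := by
  unfold b3
  exact plateau_zero (by norm_num) (by rcases h with h | h; left; linarith; right; linarith)

private theorem hh4_ax (lam x t a : ℝ) (h : a ≤ 1 / 4 ∨ 3 / 4 ≤ a) : hh4 lam x t a = ax a := by
  have e1 : ch a = 0 := ch_zero h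
  have e2 : vv a = 0 := by
    unfold vv
    rw [hat_eq_zero (by rcases h with h | h; left; linarith; right; linarith), zero_mul]
  have e3 : b2 a = 0 := b2_zero (by rcases h with h | h; left; linarith; right; linarith)
  have e4 : b3 a = 0 := b3_zero (by rcases h with h | h; left; linarith; right; linarith)
  have e5 : ww lam a = 0 := by rw [ww_eq, e1]; simp
  unfold hh4 UU ax
  rw [e2, e3, e4, e5]
  simp

theorem m_AR1a : StAR1a := by
  intro lam hl
  have hlam : 0 < lam := hl.1
  refine ⟨cd_hh4 hl, hh4_ax lam, ?_, ?_, ?_, ?_⟩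
  · intro x x' t a h
    have e3 : b2 a = 0 := b2_zero (by rcases h with h | h; left; linarith; right; linarith)
    unfold hh4 UU
    rw [e3]; simp
  · intro x t t' a h
    have e4 : b3 a = 0 := b3_zero (by rcases h with h | h; left; linarith; right; linarith)
    unfold hh4 UU
    rw [e4]; simp
  · intro x t a b hab
    have hw : ww lam a = ww lam b := congrArg (fun p : R4 => p.2.2) hab
    have hre : lam * ch a = lam * ch b := congrArg Complex.re hw
    have him : lam * ch a * a = lam * ch b * b := congrArg Complex.im hw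
    by_cases hc : ch a = 0
    · have hcb : ch b = 0 := by
        rw [hc, mul_zero] at hre
        rcases mul_eq_zero.1 hre.symm with h | h
        · exact absurd h hlam.ne'
        · exact h
      have out : ∀ c : ℝ, ch c = 0 → (c ≤ 1 / 4 ∨ 3 / 4 ≤ c) := by
        intro c hc
        by_contra hn
        push Not at hn
        exact (hat_ne_zero.2 ⟨hn.1, hn.2⟩) hc
      rw [hh4_ax lam x t a (out a hc), hh4_ax lam x t b (out b hcb)] at hab
      exact congrArg (fun p : R4 => p.2.1) hab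
    · rw [← hre] at him
      exact mul_left_cancel₀ (mul_ne_zero hlam.ne' hc) him
  · intro x t a hD
    have hd : HasDerivAt (hh4 lam x t) 0 a := by
      rw [← hD]
      have : ContDiff ℝ ∞ (hh4 lam x t) := by
        have := (cd_hh4 hl).comp
          (contDiff_const.prodMk (contDiff_const.prodMk contDiff_id) :
            ContDiff ℝ ∞ (fun a : ℝ => ((x, t, a) : ℝ × ℝ × ℝ)))
        exact this
      exact (this.differentiable (by simp)).differentiableAt.hasDerivAt
    have hd2 : HasDerivAt (fun a => (hh4 lam x t a).2) 0 a :=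
      ((hasFDerivAt_snd (𝕜 := ℝ) (E := ℝ) (F := ℝ × ℂ) (p := hh4 lam x t a)).comp_hasDerivAt a hd)
    have hdw : HasDerivAt (ww lam) 0 a := by
      have h := ((ContinuousLinearMap.snd ℝ ℝ ℂ).hasFDerivAt
        (x := (hh4 lam x t a).2)).comp_hasDerivAt a hd2
      rw [map_zero] at h
      exact h
    have hdu : HasDerivAt (fun a => UU lam x t a) 0 a := by
      have h := ((ContinuousLinearMap.fst ℝ ℝ ℂ).hasFDerivAt
        (x := (hh4 lam x t a).2)).comp_hasDerivAt a hd2
      rw [map_zero] at h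
      exact h
    have hdr : HasDerivAt (fun a => lam * ch a) 0 a := by
      have h := (Complex.reCLM.hasFDerivAt (x := ww lam a)).comp_hasDerivAt a hdw
      rw [map_zero] at h
      exact h
    have hdi : HasDerivAt (fun a => lam * ch a * a) 0 a := by
      have h := (Complex.imCLM.hasFDerivAt (x := ww lam a)).comp_hasDerivAt a hdw
      rw [map_zero] at h
      exact h
    have hdi' := hdr.mul (hasDerivAt_id a)
    have e := hdi.unique hdi'
    have hc : ch a = 0 := by
      simp at e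
      rcases e with h | h
      · exact absurd h hlam.ne'
      · exact h
    have out : a ≤ 1 / 4 ∨ 3 / 4 ≤ a := by
      by_contra hn
      push Not at hn
      exact (hat_ne_zero.2 ⟨hn.1, hn.2⟩) hc
    have key : ∀ s : Set ℝ, UniqueDiffWithinAt ℝ s a → a ∈ s →
        (∀ c ∈ s, UU lam x t c = c) → False := by
      intro s hu ha hs
      have h1 : HasDerivWithinAt (fun a => UU lam x t a) 0 s a := hdu.hasDerivWithinAt
      have h2 : HasDerivWithinAt (fun c : ℝ => c) 0 s a :=
        h1.congr (fun c hc => (hs c hc).symm) (hs a ha).symm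
      have h3 : HasDerivWithinAt (fun c : ℝ => c) 1 s a := hasDerivWithinAt_id a s
      exact zero_ne_one (hu.eq_deriv s h2 h3)
    have hU : ∀ c : ℝ, (c ≤ 1 / 4 ∨ 3 / 4 ≤ c) → UU lam x t c = c := by
      intro c hc
      exact congrArg (fun p : R4 => p.2.1) (hh4_ax lam x t c hc)
    rcases out with h | h
    · exact key (Iic (1 / 4)) (uniqueDiffOn_Iic _ a h) h (fun c hc => hU c (Or.inl hc))
    · exact key (Ici (3 / 4)) (uniqueDiffOn_Ici _ a h) h (fun c hc => hU c (Or.inr hc))

end Pool.Agent.Helper34.BX
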