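import Pool.Agent.Helper34.BX.St

/-!
# Project BX, module AR1b: crossings of the model arcs with the core spheres, transversality
-/

set_option autoImplicit false

open scoped Manifold ContDiff Topology ComplexConjugate
open Set Filter Pool.Agent.Helper65.Barb Pool.Agent.Helper18.BI

namespace Pool.Agent.Helper34.BX

open Pool.Agent.Helper34.BI
open Pool.Agent.Helper70.BI

/-- `|ww|²` -/
private noncomputable def W_AR1b (lam a : ℝ) : ℝ := (lam * ch a) ^ 2 * (1 + a ^ 2)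

private lemma W_nonneg_AR1b (lam a : ℝ) : 0 ≤ W_AR1b lam a := by
  unfold W_AR1b
  positivity

private lemma W_le_AR1b {lam : ℝ} (hl : lam ∈ Ioc (0 : ℝ) (1 / 10)) (a : ℝ) : W_AR1b lam a ≤ 1 / 64 := by
  unfold W_AR1b
  by_cases h : 1 / 4 < a ∧ a < 3 / 4
  · have h0 : 0 ≤ ch a := hat_nonneg _ _ _
    have h1 : ch a ≤ 1 := hat_le_one _ _ _
    have h2 : 0 ≤ lam * ch a := mul_nonneg hl.1.le h0
    have h3 : lam * ch a ≤ 1 / 10 := by nlinarith [hl.1, hl.2]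
    have h4 : (lam * ch a) ^ 2 ≤ 1 / 100 := by nlinarith
    have h5 : 1 + a ^ 2 ≤ 25 / 16 := by nlinarith [h.1, h.2]
    calc (lam * ch a) ^ 2 * (1 + a ^ 2) ≤ 1 / 100 * (25 / 16) :=
          mul_le_mul h4 h5 (by positivity) (by norm_num)
      _ = 1 / 64 := by norm_num
  · have h0 : ch a = 0 := by
      refine hat_eq_zero ?_
      by_contra h'
      push_neg at h'
      exact h h'
    rw [h0]
    norm_num

private lemma rr_sq_AR1b {lam : ℝ} (hl : lam ∈ Ioc (0 : ℝ) (1 / 10)) (a : ℝ) :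
    rr lam a ^ 2 = 1 / 25 - W_AR1b lam a := by
  have h := W_le_AR1b hl a
  unfold rr
  rw [Real.sq_sqrt]
  · rfl
  · unfold W_AR1b at h
    linarith

private lemma rr_bd_AR1b {lam : ℝ} (hl : lam ∈ Ioc (0 : ℝ) (1 / 10)) (a : ℝ) :
    3 / 20 ≤ rr lam a ∧ rr lam a ≤ 1 / 5 := by
  have h0 : 0 ≤ rr lam a := Real.sqrt_nonneg _
  have h1 := rr_sq_AR1b hl a
  have h2 := W_le_AR1b hl a
  have h3 := W_nonneg_AR1b lam a
  constructor
  · by_contra h
    push_neg at h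
    nlinarith
  · by_contra h
    push_neg at h
    nlinarith

private lemma rsq_AR1b (c lam x t a : ℝ) :
    rsq c (hh4 lam x t a) = (UU lam x t a - c) ^ 2 + W_AR1b lam a := by
  unfold rsq nsq hh4 ww W_AR1b
  simp only
  ring

private lemma b2_zero_AR1b {a : ℝ} (h : a ≤ 11 / 30 ∨ 13 / 30 ≤ a) : b2 a = 0 := by
  unfold b2
  refine plateau_zero (by norm_num) ?_
  rcases h with h | h
  · left; linarith
  · right; linarith

private lemma b3_zero_AR1b {a : ℝ} (h : a ≤ 17 / 30 ∨ 19 / 30 ≤ a) : b3 a = 0 := by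
  unfold b3
  refine plateau_zero (by norm_num) ?_
  rcases h with h | h
  · left; linarith
  · right; linarith

private lemma b2_one_AR1b {a : ℝ} (h : 23 / 60 ≤ a) (h' : a ≤ 25 / 60) : b2 a = 1 := by
  unfold b2
  exact plateau_one (by norm_num) (by linarith) (by linarith)

private lemma b3_one_AR1b {a : ℝ} (h : 35 / 60 ≤ a) (h' : a ≤ 37 / 60) : b3 a = 1 := by
  unfold b3
  exact plateau_one (by norm_num) (by linarith) (by linarith)

private lemma UU2_AR1b (lam x t : ℝ) {a : ℝ} (h : 23 / 60 ≤ a) (h' : a ≤ 25 / 60) :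
    UU lam x t a = 1 - rr lam a - lam * x := by
  unfold UU
  rw [b2_one_AR1b h h', b3_zero_AR1b (by left; linarith)]
  ring

private lemma UU3_AR1b (lam x t : ℝ) {a : ℝ} (h : 35 / 60 ≤ a) (h' : a ≤ 37 / 60) :
    UU lam x t a = rr lam a + lam * t := by
  unfold UU
  rw [b3_one_AR1b h h', b2_zero_AR1b (by right; linarith)]
  ring

private lemma UU0_AR1b (lam x t : ℝ) {a : ℝ} (h : a ≤ 3 / 10 ∨ 7 / 10 ≤ a) : UU lam x t a = a := by
  unfold UU
  rw [b2_zero_AR1b, b3_zero_AR1b]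
  · ring
  · rcases h with h | h
    · left; linarith
    · right; linarith
  · rcases h with h | h
    · left; linarith
    · right; linarith

private lemma vv_cases_AR1b {a : ℝ} (h : vv a = 0) :
    (a ≤ 3 / 10 ∨ 7 / 10 ≤ a) ∨ a = 2 / 5 ∨ a = 3 / 5 := by
  unfold vv at h
  rcases mul_eq_zero.1 h with h | h
  · left
    by_contra h'
    push_neg at h'
    exact hat_ne_zero.2 h' h
  · right
    rcases mul_eq_zero.1 h with h | h
    · left; linarith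
    · right; linarith

private lemma zero_of_AR1b {lam r s : ℝ} (hl : lam ∈ Ioc (0 : ℝ) (1 / 10)) (hr : 3 / 20 ≤ r)
    (hs : s ∈ Icc (-1 : ℝ) 1) (h : (r + lam * s) ^ 2 = r ^ 2) : s = 0 := by
  have h1 : lam * s * (2 * r + lam * s) = 0 := by nlinarith
  have h2 : 0 < 2 * r + lam * s := by nlinarith [hl.1, hl.2, hs.1, hs.2]
  rcases mul_eq_zero.1 h1 with h3 | h3
  · rcases mul_eq_zero.1 h3 with h4 | h4
    · exact absurd h4 hl.1.ne'
    · exact h4
  · exact absurd h3 h2.ne'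

private lemma hit_AR1b {lam : ℝ} (hl : lam ∈ Ioc (0 : ℝ) (1 / 10)) {x t a : ℝ}
    (hx : x ∈ Icc (-1 : ℝ) 1) (ht : t ∈ Icc (-1 : ℝ) 1) (ha : a ∈ Ioo (1 / 5 : ℝ) (4 / 5)) :
    (hh4 lam x t a ∈ sph 0 → a = 3 / 5 ∧ t = 0) ∧ (hh4 lam x t a ∈ sph 1 → a = 2 / 5 ∧ x = 0) := by
  have hW := W_nonneg_AR1b lam a
  have hrs := rr_sq_AR1b hl a
  have hrb := rr_bd_AR1b hl a
  have hlx : |lam * x| ≤ 1 / 10 := by
    rw [abs_mul, abs_of_pos hl.1]
    have := abs_le.2 ⟨hx.1, hx.2⟩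
    nlinarith [hl.1, hl.2, abs_nonneg x]
  have hlt : |lam * t| ≤ 1 / 10 := by
    rw [abs_mul, abs_of_pos hl.1]
    have := abs_le.2 ⟨ht.1, ht.2⟩
    nlinarith [hl.1, hl.2, abs_nonneg t]
  have hlx' := abs_le.1 hlx
  have hlt' := abs_le.1 hlt
  have first : ∀ c, hh4 lam x t a ∈ sph c → vv a = 0 := by
    intro c h
    have h1 : (1 / 2 : ℝ) + lam * vv a = 1 / 2 := h.1
    have h2 : lam * vv a = 0 := by linarith
    exact (mul_eq_zero.1 h2).resolve_left hl.1.ne'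
  constructor
  · intro h
    have h2 : (UU lam x t a - 0) ^ 2 + W_AR1b lam a = 1 / 25 := by
      rw [← rsq_AR1b]
      exact h.2
    rcases vv_cases_AR1b (first 0 h) with h3 | rfl | rfl
    · exfalso
      rw [UU0_AR1b lam x t h3] at h2
      nlinarith [ha.1]
    · exfalso
      rw [UU2_AR1b lam x t (by norm_num) (by norm_num)] at h2
      have h4 : 7 / 10 ≤ 1 - rr lam (2 / 5) - lam * x := by linarith [hrb.2, hlx'.2]
      nlinarith
    · refine ⟨rfl, ?_⟩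
      rw [UU3_AR1b lam x t (by norm_num) (by norm_num)] at h2
      refine zero_of_AR1b hl hrb.1 ht ?_
      rw [hrs]
      linarith
  · intro h
    have h2 : (UU lam x t a - 1) ^ 2 + W_AR1b lam a = 1 / 25 := by
      rw [← rsq_AR1b]
      exact h.2
    rcases vv_cases_AR1b (first 1 h) with h3 | rfl | rfl
    · exfalso
      rw [UU0_AR1b lam x t h3] at h2
      nlinarith [ha.2]
    · refine ⟨rfl, ?_⟩
      rw [UU2_AR1b lam x t (by norm_num) (by norm_num)] at h2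
      refine zero_of_AR1b hl hrb.1 hx ?_
      rw [hrs]
      linarith
    · exfalso
      rw [UU3_AR1b lam x t (by norm_num) (by norm_num)] at h2
      have h4 : rr lam (3 / 5) + lam * t - 1 ≤ -(7 / 10) := by linarith [hrb.2, hlt'.2]
      nlinarith

private lemma ch_pos_AR1b {a : ℝ} (h : 1 / 4 < a) (h' : a < 3 / 4) : ch a ≠ 0 := hat_ne_zero.2 ⟨h, h'⟩

private lemma mem_AR1b {lam : ℝ} (hl : lam ∈ Ioc (0 : ℝ) (1 / 10)) (x t : ℝ) :
    hh4 lam x 0 (3 / 5) ∈ sph 0 ∧ hh4 lam 0 t (2 / 5) ∈ sph 1 ∧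
      (hh4 lam x 0 (3 / 5)).2.2.re ≠ 0 ∧ (hh4 lam 0 t (2 / 5)).2.2.re ≠ 0 := by
  have v3 : vv (3 / 5) = 0 := by unfold vv; norm_num
  have v2 : vv (2 / 5) = 0 := by unfold vv; norm_num
  refine ⟨⟨?_, ?_⟩, ⟨?_, ?_⟩, ?_, ?_⟩
  · change 1 / 2 + lam * vv (3 / 5) = 1 / 2
    rw [v3]; ring
  · rw [rsq_AR1b, UU3_AR1b lam x 0 (by norm_num) (by norm_num)]
    have := rr_sq_AR1b hl (3 / 5)
    linear_combination this
  · change 1 / 2 + lam * vv (2 / 5) = 1 / 2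
    rw [v2]; ring
  · rw [rsq_AR1b, UU2_AR1b lam 0 t (by norm_num) (by norm_num)]
    have := rr_sq_AR1b hl (2 / 5)
    linear_combination this
  · change lam * ch (3 / 5) ≠ 0
    exact mul_ne_zero hl.1.ne' (ch_pos_AR1b (by norm_num) (by norm_num))
  · change lam * ch (2 / 5) ≠ 0
    exact mul_ne_zero hl.1.ne' (ch_pos_AR1b (by norm_num) (by norm_num))

private lemma ch_diff_AR1b (a : ℝ) : DifferentiableAt ℝ ch a :=
  ((contDiff_hat _ _).differentiable (by simp)) a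

private lemma rr_diff_AR1b {lam : ℝ} (hl : lam ∈ Ioc (0 : ℝ) (1 / 10)) (a : ℝ) :
    DifferentiableAt ℝ (rr lam) a := by
  have h := W_le_AR1b hl a
  unfold W_AR1b at h
  unfold rr
  refine DifferentiableAt.sqrt ?_ (by linarith)
  have := ch_diff_AR1b a
  fun_prop

private lemma ww_diff_AR1b (lam a : ℝ) : DifferentiableAt ℝ (ww lam) a := by
  have h : ww lam = fun a => ((lam * ch a : ℝ) : ℂ) + ((lam * ch a * a : ℝ) : ℂ) * Complex.I := by
    funext b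
    unfold ww
    apply Complex.ext <;> simp
  rw [h]
  have h0 := ch_diff_AR1b a
  have h1 : DifferentiableAt ℝ (fun a : ℝ => lam * ch a) a := by fun_prop
  have h2 : DifferentiableAt ℝ (fun a : ℝ => lam * ch a * a) a := by fun_prop
  have h3 : DifferentiableAt ℝ (fun a : ℝ => ((lam * ch a : ℝ) : ℂ)) a :=
    (Complex.ofRealCLM.differentiableAt).comp a h1
  have h4 : DifferentiableAt ℝ (fun a : ℝ => ((lam * ch a * a : ℝ) : ℂ)) a :=
    (Complex.ofRealCLM.differentiableAt).comp a h2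
  exact h3.add (h4.mul_const _)

private lemma vv_deriv_AR1b {a : ℝ} (h : 3 / 10 < a) (h' : a < 7 / 10)
    (h0 : (a - 2 / 5) * (a - 3 / 5) = 0) (h1 : (a - 2 / 5) + (a - 3 / 5) ≠ 0) :
    ∃ V, V ≠ 0 ∧ HasDerivAt vv V a := by
  have hd : HasDerivAt (hat (3 / 10) (7 / 10)) (deriv (hat (3 / 10) (7 / 10)) a) a :=
    (((contDiff_hat (3 / 10) (7 / 10)).differentiable (by simp)) a).hasDerivAt
  have hp : HasDerivAt (fun a : ℝ => (a - 2 / 5) * (a - 3 / 5)) (1 * (a - 3 / 5) + (a - 2 / 5) * 1) a :=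
    ((hasDerivAt_id a).sub_const _).mul ((hasDerivAt_id a).sub_const _)
  refine ⟨_, ?_, hd.mul hp⟩
  rw [h0, mul_zero, zero_add]
  refine mul_ne_zero (hat_ne_zero.2 ⟨h, h'⟩) ?_
  intro h2
  apply h1
  linarith

/-- the derivative of `z ↦ G z.2 + z.1 • e` -/
private lemma fd_AR1b {G : ℝ → R4} {D e : R4} {a : ℝ} {g : ℝ × ℝ → R4} (hG : HasDerivAt G D a)
    (hg : g =ᶠ[𝓝 (0, a)] fun z => G z.2 + z.1 • e) (ζ : ℝ × ℝ) :
    fderiv ℝ g (0, a) ζ = ζ.2 • D + ζ.1 • e := by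
  have h1 : HasFDerivAt (fun z : ℝ × ℝ => G z.2)
      ((ContinuousLinearMap.smulRight (1 : ℝ →L[ℝ] ℝ) D).comp (ContinuousLinearMap.snd ℝ ℝ ℝ)) (0, a) :=
    HasFDerivAt.comp (x := ((0, a) : ℝ × ℝ)) (g := G) (f := fun z : ℝ × ℝ => z.2) hG.hasFDerivAt
      hasFDerivAt_snd
  have h2 : HasFDerivAt (fun z : ℝ × ℝ => z.1 • e)
      ((ContinuousLinearMap.fst ℝ ℝ ℝ).smulRight e) (0, a) :=
    (hasFDerivAt_fst (p := ((0, a) : ℝ × ℝ))).smul_const e
  have h3 := h1.add h2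
  rw [(h3.congr_of_eventuallyEq hg).fderiv]
  simp

private lemma tr3_AR1b {lam : ℝ} (hl : lam ∈ Ioc (0 : ℝ) (1 / 10)) (x : ℝ) (ζ : ℝ × ℝ)
    (h1 : (fderiv ℝ (fun z : ℝ × ℝ => hh4 lam x z.1 z.2) (0, 3 / 5) ζ).1 = 0)
    (h2 : drsq 0 (hh4 lam x 0 (3 / 5))
      (fderiv ℝ (fun z : ℝ × ℝ => hh4 lam x z.1 z.2) (0, 3 / 5) ζ) = 0) : ζ = 0 := by
  obtain ⟨V, hV0, hV⟩ := vv_deriv_AR1b (a := 3 / 5) (by norm_num) (by norm_num) (by norm_num)
    (by norm_num)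
  have hr := (rr_diff_AR1b hl (3 / 5)).hasDerivAt
  have hw := (ww_diff_AR1b lam (3 / 5)).hasDerivAt
  have hG := ((hV.const_mul lam).const_add (1 / 2)).prodMk (hr.prodMk hw)
  have hev : (fun z : ℝ × ℝ => hh4 lam x z.1 z.2) =ᶠ[𝓝 (0, 3 / 5)] fun z =>
      ((1 / 2 + lam * vv z.2, (rr lam z.2, ww lam z.2)) : R4) + z.1 • ((0, (lam, 0)) : R4) := by
    have hc : ContinuousAt (fun z : ℝ × ℝ => z.2) (0, 3 / 5) := continuousAt_snd
    have hm : Ioo (35 / 60 : ℝ) (37 / 60) ∈ 𝓝 ((fun z : ℝ × ℝ => z.2) (0, 3 / 5)) :=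
      Ioo_mem_nhds (by norm_num) (by norm_num)
    filter_upwards [hc hm] with z hz
    have hz1 : 35 / 60 < z.2 := hz.1
    have hz2 : z.2 < 37 / 60 := hz.2
    unfold hh4
    rw [UU3_AR1b lam x z.1 hz1.le hz2.le]
    simp [mul_comm]
  have key := fd_AR1b hG hev ζ
  rw [key] at h1 h2
  have h3 : ζ.2 * (lam * V) = 0 := by simpa using h1
  have h4 : ζ.2 = 0 := (mul_eq_zero.1 h3).resolve_right (mul_ne_zero hl.1.ne' hV0)
  rw [h4] at h2
  have h5 : UU lam x 0 (3 / 5) = rr lam (3 / 5) := by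
    rw [UU3_AR1b lam x 0 (by norm_num) (by norm_num)]; ring
  unfold drsq hh4 at h2
  simp [h5] at h2
  have h6 : rr lam (3 / 5) ≠ 0 := by
    have := (rr_bd_AR1b hl (3 / 5)).1
    intro h7
    rw [h7] at this
    norm_num at this
  have h7 : ζ.1 = 0 := by
    rcases h2 with h2 | h2 | h2
    · exact absurd h2 h6
    · exact h2
    · exact absurd h2 hl.1.ne'
  exact Prod.ext h7 h4

private lemma tr2_AR1b {lam : ℝ} (hl : lam ∈ Ioc (0 : ℝ) (1 / 10)) (t : ℝ) (ζ : ℝ × ℝ)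
    (h1 : (fderiv ℝ (fun z : ℝ × ℝ => hh4 lam z.1 t z.2) (0, 2 / 5) ζ).1 = 0)
    (h2 : drsq 1 (hh4 lam 0 t (2 / 5))
      (fderiv ℝ (fun z : ℝ × ℝ => hh4 lam z.1 t z.2) (0, 2 / 5) ζ) = 0) : ζ = 0 := by
  obtain ⟨V, hV0, hV⟩ := vv_deriv_AR1b (a := 2 / 5) (by norm_num) (by norm_num) (by norm_num)
    (by norm_num)
  have hr := (rr_diff_AR1b hl (2 / 5)).hasDerivAt.const_sub 1
  have hw := (ww_diff_AR1b lam (2 / 5)).hasDerivAt
  have hG := ((hV.const_mul lam).const_add (1 / 2)).prodMk (hr.prodMk hw)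
  have hev : (fun z : ℝ × ℝ => hh4 lam z.1 t z.2) =ᶠ[𝓝 (0, 2 / 5)] fun z =>
      ((1 / 2 + lam * vv z.2, (1 - rr lam z.2, ww lam z.2)) : R4) + z.1 • ((0, (-lam, 0)) : R4) := by
    have hc : ContinuousAt (fun z : ℝ × ℝ => z.2) (0, 2 / 5) := continuousAt_snd
    have hm : Ioo (23 / 60 : ℝ) (25 / 60) ∈ 𝓝 ((fun z : ℝ × ℝ => z.2) (0, 2 / 5)) :=
      Ioo_mem_nhds (by norm_num) (by norm_num)
    filter_upwards [hc hm] with z hz
    have hz1 : 23 / 60 < z.2 := hz.1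
    have hz2 : z.2 < 25 / 60 := hz.2
    unfold hh4
    rw [UU2_AR1b lam z.1 t hz1.le hz2.le]
    simp [mul_comm, sub_eq_add_neg]
  have key := fd_AR1b hG hev ζ
  rw [key] at h1 h2
  have h3 : ζ.2 * (lam * V) = 0 := by simpa using h1
  have h4 : ζ.2 = 0 := (mul_eq_zero.1 h3).resolve_right (mul_ne_zero hl.1.ne' hV0)
  rw [h4] at h2
  have h5 : UU lam 0 t (2 / 5) = 1 - rr lam (2 / 5) := by
    rw [UU2_AR1b lam 0 t (by norm_num) (by norm_num)]; ring
  unfold drsq hh4 at h2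
  simp [h5] at h2
  have h6 : rr lam (2 / 5) ≠ 0 := by
    have := (rr_bd_AR1b hl (2 / 5)).1
    intro h7
    rw [h7] at this
    norm_num at this
  have h7 : ζ.1 = 0 := by
    rcases h2 with h2 | h2 | h2
    · exact absurd h2 h6
    · exact h2
    · exact absurd h2 hl.1.ne'
  exact Prod.ext h7 h4

theorem m_AR1b : StAR1b := fun lam hl =>
  ⟨fun x hx t ht a ha => hit_AR1b hl hx ht ha, fun x t => mem_AR1b hl x t,
    fun x ζ h1 h2 => tr3_AR1b hl x ζ h1 h2, fun t ζ h1 h2 => tr2_AR1b hl t ζ h1 h2⟩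

end Pool.Agent.Helper34.BX
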