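import Pool.Agent.Helper34.BX.St

/-!
# Project BX, module AR2: the model arcs are close to the spine
-/

set_option autoImplicit false

open scoped Manifold ContDiff Topology ComplexConjugate
open Set Filter Pool.Agent.Helper65.Barb Pool.Agent.Helper18.BI

namespace Pool.Agent.Helper34.BX

open Pool.Agent.Helper34.BI
open Pool.Agent.Helper70.BI
open Pool.Agent.Helper27.BI (swp)

private theorem cont_hh4_AR2 :
    Continuous (fun z : ℝ × ℝ × ℝ × ℝ => hh4 z.1 z.2.1 z.2.2.1 z.2.2.2) := by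
  have h1 : Continuous ch := (contDiff_hat _ _).continuous
  have h2 : Continuous vv := by
    unfold vv
    exact (contDiff_hat _ _).continuous.mul (by fun_prop)
  have h3 : Continuous b2 := (contDiff_plateau _ _ _).continuous
  have h4 : Continuous b3 := (contDiff_plateau _ _ _).continuous
  have hr : Continuous (fun z : ℝ × ℝ × ℝ × ℝ => rr z.1 z.2.2.2) := by
    unfold rr
    refine Real.continuous_sqrt.comp ?_
    fun_prop
  have hU : Continuous (fun z : ℝ × ℝ × ℝ × ℝ => UU z.1 z.2.1 z.2.2.1 z.2.2.2) := by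
    unfold UU
    fun_prop
  have hw : Continuous (fun z : ℝ × ℝ × ℝ × ℝ => ww z.1 z.2.2.2) := by
    unfold ww
    simp only [Complex.mk_eq_add_mul_I]
    fun_prop
  unfold hh4
  exact (by fun_prop : Continuous (fun z : ℝ × ℝ × ℝ × ℝ => 1 / 2 + z.1 * vv z.2.2.2)).prodMk
    (hU.prodMk hw)

private theorem plateau_mem_AR2 (a b δ u : ℝ) : 0 ≤ plateau a b δ u ∧ plateau a b δ u ≤ 1 := by
  unfold plateau
  exact ⟨mul_nonneg (Real.smoothTransition.nonneg _) (Real.smoothTransition.nonneg _),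
    mul_le_one₀ (Real.smoothTransition.le_one _) (Real.smoothTransition.nonneg _)
      (Real.smoothTransition.le_one _)⟩

private theorem base_AR2 (x t a : ℝ) (ha : a ∈ Icc (1 / 5 : ℝ) (4 / 5)) : hh4 0 x t a ∈ neck := by
  obtain ⟨ha1, ha2⟩ := ha
  have hr : rr 0 a = 1 / 5 := by
    unfold rr
    rw [zero_mul, show (1 / 25 - (0 : ℝ) ^ 2 * (1 + a ^ 2)) = (1 / 5) ^ 2 by norm_num]
    exact Real.sqrt_sq (by norm_num)
  have hU : UU 0 x t a = a + b2 a * (4 / 5 - a) + b3 a * (1 / 5 - a) := by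
    unfold UU
    rw [hr]
    ring
  have h2 := plateau_mem_AR2 (7 / 20) (9 / 20) (1 / 30) a
  have h3 := plateau_mem_AR2 (11 / 20) (13 / 20) (1 / 30) a
  have e2 : b2 a = plateau (7 / 20) (9 / 20) (1 / 30) a := rfl
  have e3 : b3 a = plateau (11 / 20) (13 / 20) (1 / 30) a := rfl
  rw [← e2] at h2
  rw [← e3] at h3
  have hz : b2 a = 0 ∨ b3 a = 0 := by
    rcases le_or_gt a (1 / 2) with h | h
    · right
      rw [e3]
      exact plateau_zero (by norm_num) (Or.inl (by linarith))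
    · left
      rw [e2]
      exact plateau_zero (by norm_num) (Or.inr (by linarith))
  have hb : 1 / 5 ≤ UU 0 x t a ∧ UU 0 x t a ≤ 4 / 5 := by
    rw [hU]
    rcases hz with hz | hz
    · rw [hz]
      constructor <;> nlinarith [h3.1, h3.2]
    · rw [hz]
      constructor <;> nlinarith [h2.1, h2.2]
  refine ⟨?_, hb.1, hb.2, ?_⟩
  · show 1 / 2 + 0 * vv a = 1 / 2
    ring
  · show ww 0 a = 0
    unfold ww
    apply Complex.ext <;> simp

theorem m_AR2 : StAR2 := by
  intro V hV hn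
  have hK : IsCompact (Icc (-1 : ℝ) 1 ×ˢ Icc (-1 : ℝ) 1 ×ˢ Icc (1 / 5 : ℝ) (4 / 5)) :=
    isCompact_Icc.prod (isCompact_Icc.prod isCompact_Icc)
  obtain ⟨u, v, hu, -, h0, hKv, huv⟩ := generalized_tube_lemma (isCompact_singleton (x := (0 : ℝ))) hK
    (hV.preimage cont_hh4_AR2) (by
      rintro ⟨l, x, t, a⟩ ⟨hl, hx, ht, ha⟩
      have hl' : l = 0 := hl
      subst hl'
      exact hn (base_AR2 x t a ha))
  obtain ⟨ε, hε, hb⟩ := Metric.isOpen_iff.1 hu 0 (h0 rfl)
  refine ⟨min (ε / 2) (1 / 10), ⟨lt_min (by linarith) (by norm_num), min_le_right _ _⟩, ?_⟩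
  intro lam hl x hx t ht a ha
  have h1 : lam ∈ u := by
    apply hb
    rw [Metric.mem_ball, Real.dist_eq, sub_zero, abs_of_pos hl.1]
    have h2 := min_le_left (ε / 2) (1 / 10 : ℝ)
    have h3 := hl.2
    linarith
  exact huv (show (lam, x, t, a) ∈ u ×ˢ v from ⟨h1, hKv ⟨hx, ht, ha⟩⟩)

end Pool.Agent.Helper34.BX
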