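import Pool.Agent.Helper34.BX.St

/-!
# Project BX, module PCB: a bar family with one generic crossing
-/

set_option autoImplicit false

open scoped Manifold ContDiff Topology ComplexConjugate
open Set Filter Pool.Agent.Helper65.Barb Pool.Agent.Helper18.BI

namespace Pool.Agent.Helper34.BX

open Pool.Agent.Helper34.BI
open Pool.Agent.Helper70.BI
open Pool.Agent.Helper27.BI (swp)

section
variable {F : R4 → R4} {c : ℝ → R4} {H : ℝ × ℝ → R4} {δ : ℝ}

private theorem cuff_val_PCB (D : BarData F c H δ) (t : ℝ) {p : R4} (hp : p ∈ sph 0 ∪ sph 1) :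
    barFam F c H δ (t, p) = F p := by
  have hδ := D.pos
  rcases hp with hp | hp
  · exact D.barFam_eq (Or.inl (by linarith [sph_zero_le hp]))
  · exact D.barFam_eq (Or.inr (by linarith [le_sph_one hp]))

private theorem cuff_eventually_PCB (D : BarData F c H δ) (t : ℝ) {p : R4}
    (hp : p ∈ sph 0 ∪ sph 1) : ∀ᶠ q in 𝓝 (t, p), barFam F c H δ q = F q.2 := by
  have hδ := D.pos
  have hcont : Continuous (fun q : ℝ × R4 => q.2.2.1) := by fun_prop
  have hop : IsOpen {q : ℝ × R4 | q.2.2.1 < 1 / 5 + δ / 2 ∨ 4 / 5 - δ / 2 < q.2.2.1} :=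
    (isOpen_lt hcont continuous_const).union (isOpen_lt continuous_const hcont)
  have hmem : (t, p) ∈ {q : ℝ × R4 | q.2.2.1 < 1 / 5 + δ / 2 ∨ 4 / 5 - δ / 2 < q.2.2.1} := by
    rcases hp with hp | hp
    · exact Or.inl (by simpa using (by linarith [sph_zero_le hp] : p.2.1 < 1 / 5 + δ / 2))
    · exact Or.inr (by simpa using (by linarith [le_sph_one hp] : 4 / 5 - δ / 2 < p.2.1))
  filter_upwards [hop.mem_nhds hmem] with q hq
  exact D.barFam_eq (t := q.1) (p := q.2) (hq.imp le_of_lt le_of_lt)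

private theorem fderiv_cuff_PCB (D : BarData F c H δ) (t : ℝ) {p : R4}
    (hp : p ∈ sph 0 ∪ sph 1) :
    fderiv ℝ (fun p => barFam F c H δ (t, p)) p = fderiv ℝ F p := by
  have h1 := cuff_eventually_PCB D t hp
  have hcont : Continuous (fun q : R4 => (t, q)) := by fun_prop
  have h2 : (fun p => barFam F c H δ (t, p)) =ᶠ[𝓝 p] F := by
    filter_upwards [hcont.continuousAt.eventually h1] with q hq
    exact hq
  exact h2.fderiv_eq

private theorem doubles_PCB (D : BarData F c H δ) {t u : ℝ} (hF : InjOn F (sph 0 ∪ sph 1))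
    (hinj : InjOn (fun a => H (t, a)) (Icc (1 / 5) (4 / 5)))
    (honly : ∀ a ∈ Ioo (1 / 5 : ℝ) (4 / 5), H (t, a) ∈ F '' (sph 0 ∪ sph 1) → a = u)
    {p₀ : R4} (hp₀ : p₀ ∈ sph 0 ∪ sph 1) (he : F p₀ = H (t, u)) : ∀ p ∈ SP, ∀ q ∈ SP,
    barFam F c H δ (t, p) = barFam F c H δ (t, q) →
      p = q ∨ (p = p₀ ∧ q = (1 / 2, u, 0)) ∨ (q = p₀ ∧ p = (1 / 2, u, 0)) := by
  have v2 : ∀ p ∈ neck, barFam F c H δ (t, p) = H (t, p.2.1) := by
    intro p hp
    conv_lhs => rw [neck_eq hp]
    exact D.barFam_neck hp.2.1 hp.2.2.1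
  -- the mixed case
  have key : ∀ p ∈ sph 0 ∪ sph 1, ∀ q ∈ neck, q.2.1 ∈ Ioo (1 / 5 : ℝ) (4 / 5) →
      barFam F c H δ (t, p) = barFam F c H δ (t, q) → p = p₀ ∧ q = (1 / 2, u, 0) := by
    intro p hp q hq hqI h
    rw [cuff_val_PCB D t hp, v2 q hq] at h
    have h1 : q.2.1 = u := honly q.2.1 hqI ⟨p, hp, h⟩
    rw [h1] at h
    refine ⟨hF hp hp₀ (h.trans he.symm), ?_⟩
    rw [neck_eq hq, h1]
  intro p hp q hq h
  rcases SP_cases hp with hp1 | ⟨hp1, hp2⟩
  · rcases SP_cases hq with hq1 | ⟨hq1, hq2⟩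
    · rw [cuff_val_PCB D t hp1, cuff_val_PCB D t hq1] at h
      exact Or.inl (hF hp1 hq1 h)
    · exact Or.inr (Or.inl (key p hp1 q hq1 hq2 h))
  · rcases SP_cases hq with hq1 | ⟨hq1, hq2⟩
    · exact Or.inr (Or.inr (key q hq1 p hp1 hp2 h.symm))
    · rw [v2 p hp1, v2 q hq1] at h
      have := hinj ⟨hp2.1.le, hp2.2.le⟩ ⟨hq2.1.le, hq2.2.le⟩ h
      left
      rw [neck_eq hp1, neck_eq hq1, this]

private theorem fderiv_strand_PCB (D : BarData F c H δ) {t u : ℝ}
    (hu : u ∈ Ioo (1 / 5 : ℝ) (4 / 5)) :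
    fderiv ℝ (fun x : ℝ × ℝ => barFam F c H δ (x.1, (1 / 2, x.2, 0))) (t, u) =
      fderiv ℝ H (t, u) := by
  refine Filter.EventuallyEq.fderiv_eq ?_
  have hop : {x : ℝ × ℝ | x.2 ∈ Ioo (1 / 5 : ℝ) (4 / 5)} ∈ 𝓝 (t, u) :=
    (isOpen_Ioo.preimage continuous_snd).mem_nhds hu
  filter_upwards [hop] with x hx
  exact D.barFam_neck (t := x.1) hx.1.le hx.2.le

end

theorem m_PCB : StPCB := by
  intro F c H δ t u p₀ D hF hu himm hinj honly hre he
  constructor
  · intro hp₀ htr
    have hp : p₀ ∈ sph 0 ∪ sph 1 := Or.inl hp₀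
    refine ⟨fun p hp => D.eventually_smooth t hp, fun p hp => D.isLocalDiffeomorphAt
      himm hp, ?_, hp₀, hre, hu, ?_, doubles_PCB D hF hinj honly hp he, ?_⟩
    · intro p hp
      have h1 := cuff_eventually_PCB D t hp
      have hcont : Continuous (fun q : ℝ × R4 => (t, q.2)) := by fun_prop
      have h2 := hcont.continuousAt (x := (t, p)) |>.eventually h1
      filter_upwards [h1, h2] with q hq1 hq2
      rw [hq1, hq2]
    · rw [cuff_val_PCB D t hp, he]
      exact (D.barFam_neck hu.1.le hu.2.le).symm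
    · intro ζ v h hv1 hv2
      rw [fderiv_strand_PCB D hu, fderiv_cuff_PCB D t hp] at h
      exact htr ζ v h hv1 hv2
  · intro hp₀ htr
    have hp : p₀ ∈ sph 0 ∪ sph 1 := Or.inr hp₀
    have hcs : Continuous (fun q : ℝ × R4 => (q.1, swp q.2)) :=
      continuous_fst.prodMk (continuous_swp.comp continuous_snd)
    have hsu : swp (1 / 2, 1 - u, 0) = (1 / 2, u, 0) := by simp [swp]
    refine ⟨?_, ?_, ?_, swp_mem_sph_zero hp₀, ?_, ⟨by linarith [hu.2], by linarith [hu.1]⟩,
      ?_, ?_, ?_⟩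
    · intro p hp
      have h1 := D.eventually_smooth t (swp_mem_SP hp)
      have h2 := hcs.continuousAt (x := (t, p)) |>.eventually h1
      filter_upwards [h2] with q hq
      refine ContDiffAt.comp q hq ?_
      exact (contDiff_fst.prodMk (contDiff_swp.comp contDiff_snd)).contDiffAt
    · intro p hp
      exact isLocalDiffeomorphAt_swp (f := fun p => barFam F c H δ (t, p))
        (D.isLocalDiffeomorphAt himm (swp_mem_SP hp))
    · intro p hp
      have h1 := cuff_eventually_PCB D t (swp_mem_cuffs hp)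
      have hcont : Continuous (fun q : ℝ × R4 => (t, swp q.2)) :=
        continuous_const.prodMk (continuous_swp.comp continuous_snd)
      have h2 := hcont.continuousAt (x := (t, p)) |>.eventually h1
      have h3 := hcs.continuousAt (x := (t, p)) |>.eventually h1
      filter_upwards [h2, h3] with q hq1 hq2
      rw [hq1, hq2]
    · intro h0
      exact hre (by simpa [swp] using h0)
    · simp only [swp_swp, hsu]
      rw [cuff_val_PCB D t hp, he]
      exact (D.barFam_neck hu.1.le hu.2.le).symm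
    · intro p hp' q hq' h
      rcases doubles_PCB D hF hinj honly hp he (swp p) (swp_mem_SP hp') (swp q)
        (swp_mem_SP hq') h with h1 | h1 | h1
      · left
        rw [← swp_swp p, h1, swp_swp]
      · right; left
        refine ⟨by rw [← h1.1, swp_swp], ?_⟩
        rw [← swp_swp q, h1.2, ← hsu, swp_swp]
      · right; right
        refine ⟨by rw [← h1.1, swp_swp], ?_⟩
        rw [← swp_swp p, h1.2, ← hsu, swp_swp]
    · intro ζ v h hv1 hv2
      -- the strand
      have d1 : HasFDerivAt H (fderiv ℝ H (t, u)) (t, u) :=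
        (D.smooth_H.differentiable (by simp) (t, u)).hasFDerivAt
      let ℓ : ℝ × ℝ →L[ℝ] ℝ × ℝ := (ContinuousLinearMap.fst ℝ ℝ ℝ).prod
        (-(ContinuousLinearMap.snd ℝ ℝ ℝ))
      have d2 : HasFDerivAt (fun x : ℝ × ℝ => (x.1, 1 - x.2)) ℓ (t, 1 - u) := by
        have e : (fun x : ℝ × ℝ => (x.1, 1 - x.2)) = fun x => ℓ x + (0, 1) := by
          funext x
          simp only [ℓ, ContinuousLinearMap.prod_apply, ContinuousLinearMap.coe_fst',
            ContinuousLinearMap.neg_apply, ContinuousLinearMap.coe_snd', Prod.mk_add_mk, add_zero]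
          ext <;> simp
          ring
        rw [e]
        exact ℓ.hasFDerivAt.add_const _
      have d3 : HasFDerivAt (fun x : ℝ × ℝ => H (x.1, 1 - x.2)) ((fderiv ℝ H (t, u)).comp ℓ)
          (t, 1 - u) := by
        have : HasFDerivAt H (fderiv ℝ H (t, u)) (t, 1 - (1 - u)) := by
          rw [sub_sub_cancel]; exact d1
        exact HasFDerivAt.comp (t, 1 - u) this d2
      have d4 : fderiv ℝ (fun x : ℝ × ℝ => barFam F c H δ (x.1, swp (1 / 2, x.2, 0)))
          (t, 1 - u) = (fderiv ℝ H (t, u)).comp ℓ := by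
        rw [← d3.fderiv]
        refine Filter.EventuallyEq.fderiv_eq ?_
        have hop : {x : ℝ × ℝ | x.2 ∈ Ioo (1 / 5 : ℝ) (4 / 5)} ∈ 𝓝 (t, 1 - u) :=
          (isOpen_Ioo.preimage continuous_snd).mem_nhds
            (by show 1 - u ∈ Ioo (1 / 5 : ℝ) (4 / 5); exact ⟨by linarith [hu.2], by linarith [hu.1]⟩)
        filter_upwards [hop] with x hx
        have e : swp (1 / 2, x.2, 0) = (1 / 2, 1 - x.2, 0) := by simp [swp]
        rw [e]
        exact D.barFam_neck (t := x.1) (by linarith [hx.2]) (by linarith [hx.1])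
      have d5 : fderiv ℝ (fun p => barFam F c H δ (t, swp p)) (swp p₀) =
          (fderiv ℝ F p₀).comp swpL := by
        have a1 : HasFDerivAt (fun p => barFam F c H δ (t, p)) (fderiv ℝ F p₀)
            (swp (swp p₀)) := by
          rw [swp_swp, ← fderiv_cuff_PCB D t hp]
          have := eventually_contDiffAt (D.isLocalDiffeomorphAt himm
            (Or.inl hp : p₀ ∈ SP) (t := t))
          exact (this.self_of_nhds.differentiableAt (by simp)).hasFDerivAt
        exact (a1.comp (swp p₀) (hasFDerivAt_swp _)).fderiv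
      simp only at h
      rw [d4, d5] at h
      simp only [ContinuousLinearMap.comp_apply] at h
      have hz := htr (ℓ ζ) (swpL v) h (by simpa [swpL_apply] using hv1) (by
        simp only [drsq, swp, swpL_apply, Complex.conj_re, Complex.conj_im] at hv2 ⊢
        linear_combination hv2)
      have e1 : ζ.1 = 0 := congrArg Prod.fst hz
      have e2 : -ζ.2 = 0 := congrArg Prod.snd hz
      ext1
      · exact e1
      · simpa using e2

end Pool.Agent.Helper34.BX
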