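import Pool.Agent.Helper34.BX.St
import Pool.Agent.Helper34.BX.M_PCB

/-!
# Project BX, module KF: the four germs
-/

set_option autoImplicit false

open scoped Manifold ContDiff Topology ComplexConjugate
open Set Filter Pool.Agent.Helper65.Barb Pool.Agent.Helper18.BI

namespace Pool.Agent.Helper34.BX

open Pool.Agent.Helper34.BI
open Pool.Agent.Helper70.BI
open Pool.Agent.Helper27.BI (swp)

section
variable {J : R4 → R4} {c : ℝ → R4} {H : ℝ → ℝ → ℝ → R4}

private theorem smoothx_KF (X : XD J c H) (x : ℝ) :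
    ContDiff ℝ ∞ (fun z : ℝ × ℝ => H x z.1 z.2) := by
  have h1 : ContDiff ℝ ∞ (fun z : ℝ × ℝ => ((x, z.1, z.2) : ℝ × ℝ × ℝ)) :=
    contDiff_const.prodMk (contDiff_fst.prodMk contDiff_snd)
  exact X.smooth.comp h1

private theorem bar_KF (X : XD J c H) (x : ℝ) :
    BarData J c (fun z => H x z.1 z.2) (1 / 20) where
  loc := X.emb.1
  pos := by norm_num
  small := by norm_num
  smooth_c := X.smooth_c
  smooth_H := smoothx_KF X x
  core := X.core
  frozen := by
    intro t a h
    refine X.frozen x t a ?_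
    rcases h with h | h
    · left; norm_num at h; linarith
    · right; norm_num at h; linarith

private theorem fderiv_KF (X : XD J c H) (x t a : ℝ) :
    fderiv ℝ (fun z : ℝ × ℝ => H x z.1 z.2) (t, a) (0, 1) = deriv (H x t) a := by
  have l : HasDerivAt (fun r : ℝ => ((t, r) : ℝ × ℝ)) (0, 1) a :=
    (hasDerivAt_const a t).prodMk (hasDerivAt_id a)
  have h := HasFDerivAt.comp_hasDerivAt_of_eq a
    (((smoothx_KF X x).differentiable (by simp) (t, a)).hasFDerivAt) l rfl
  exact h.deriv.symm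

private theorem imm_KF (X : XD J c H) (x t : ℝ) : ∀ a ∈ Icc (1 / 5 : ℝ) (4 / 5),
    fderiv ℝ (fun z : ℝ × ℝ => H x z.1 z.2) (t, a) (0, 1) ≠ 0 := by
  intro a ha
  rw [fderiv_KF X]
  exact X.imm x t a ha

end

theorem m_KF : StKF := by
  intro J c H X
  have injF : InjOn J (sph 0 ∪ sph 1) := X.emb.2.mono fun _ hp => Or.inl hp
  refine ⟨bar_KF X, ?_, ?_, ?_, ?_, ?_⟩
  · intro x t hx ht
    refine (bar_KF X x).embOn (imm_KF X x t) injF (X.inj x t) ?_
    rintro a ha ⟨p, hp, he⟩
    rcases X.hit x t a ha p hp he.symm with ⟨-, -, h⟩ | ⟨-, -, h⟩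
    · exact ht h
    · exact hx h
  · obtain ⟨p₀, hp₀, hre, hc⟩ := X.cross0
    refine ⟨p₀, fun x hx => ?_⟩
    obtain ⟨he, htr⟩ := hc x
    refine (m_PCB J c (fun z => H x z.1 z.2) (1 / 20) 0 (3 / 5) p₀ (bar_KF X x) injF
      ⟨by norm_num, by norm_num⟩ (imm_KF X x 0) (X.inj x 0) ?_ hre he).1 hp₀ htr
    rintro a ha ⟨p, hp, he'⟩
    rcases X.hit x 0 a ha p hp he'.symm with ⟨-, h, -⟩ | ⟨-, -, h⟩
    · exact h
    · exact absurd h hx
  · intro x x' t p hp
    rcases hp with hp | hp
    · have e := fun y => (bar_KF X y).barFam_eq (t := t) (p := p)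
        (Or.inl (by norm_num; linarith))
      exact (e x).trans (e x').symm
    · have h1 : H x t p.2.1 = H x' t p.2.1 := X.indx x x' t _ (Or.inr (by linarith))
      have h2 : fderiv ℝ (fun z : ℝ × ℝ => H x z.1 z.2) (t, p.2.1) =
          fderiv ℝ (fun z : ℝ × ℝ => H x' z.1 z.2) (t, p.2.1) := by
        refine Filter.EventuallyEq.fderiv_eq ?_
        have hop : {z : ℝ × ℝ | 9 / 20 < z.2} ∈ 𝓝 (t, p.2.1) :=
          (isOpen_lt continuous_const continuous_snd).mem_nhds
            (by show (9 / 20 : ℝ) < p.2.1; linarith)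
        filter_upwards [hop] with z hz
        exact X.indx x x' z.1 z.2 (Or.inr (le_of_lt hz))
      simp only [KK4, barFam, thick, thickB, h1, h2]
  · intro x t p hp
    refine (bar_KF X x).barFam_eq ?_
    rcases hp with hp | hp
    · left; norm_num; linarith
    · right; norm_num; linarith
  · intro x t a ha
    exact (bar_KF X x).barFam_neck ha.1 ha.2

end Pool.Agent.Helper34.BX
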