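import Pool.Agent.Helper34.BX.St

/-!
# Project BX, module LF: joining the two obstruction germs
-/

set_option autoImplicit false

open scoped Manifold ContDiff Topology ComplexConjugate
open Set Filter Pool.Agent.Helper65.Barb Pool.Agent.Helper18.BI

namespace Pool.Agent.Helper34.BX

open Pool.Agent.Helper34.BI
open Pool.Agent.Helper70.BI
open Pool.Agent.Helper27.BI (swp)

namespace LF

private theorem flat_zero_le {p : R4} (h : p ∈ flat 0) : p.2.1 ≤ 1 / 5 := by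
  have h1 := rsq_nonneg_aux 0 p
  have h2 := h.2
  nlinarith [h1]

private theorem sph_sub_flat (c : ℝ) : sph c ⊆ flat c := fun _ hp => ⟨hp.1, hp.2.le⟩

private theorem swp_flat {p : R4} (hp : p ∈ flat 1) : swp p ∈ flat 0 :=
  ⟨hp.1, (rsq_zero_swp p).le.trans hp.2⟩

private theorem swp_ax (a : ℝ) : swp (ax a) = ax (1 - a) := by
  simp [swp, ax]

private theorem swpL_swpL (v : R4) : swpL (swpL v) = v := by
  simp [swpL_apply]

private theorem ld_swp (p : R4) : LD swp p := by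
  rw [ld_iff]
  refine ⟨Eventually.of_forall fun q => contDiff_swp.contDiffAt, ?_⟩
  rw [(hasFDerivAt_swp p).fderiv]
  exact swpL_injective

private theorem fderiv_comp_swp {F : R4 → R4} {p : R4} (hF : LD F (swp p)) :
    fderiv ℝ (fun p => F (swp p)) p = (fderiv ℝ F (swp p)).comp swpL := by
  have h1 : DifferentiableAt ℝ F (swp p) :=
    ((ld_iff.1 hF).1.self_of_nhds).differentiableAt (by simp)
  exact (h1.hasFDerivAt.comp p (hasFDerivAt_swp p)).fderiv

private theorem ball_mem_flat {c : ℝ} {x₀ : R3} (h : nsq (x₀ - pc c) < 1 / 25) :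
    ((1 / 2 : ℝ), x₀) ∈ flat c := by
  refine ⟨rfl, ?_⟩
  have e : rsq c ((1 / 2 : ℝ), x₀) = nsq (x₀ - pc c) := by
    simp [rsq, nsq, pc]
  rw [e]
  exact h.le

private theorem ax_mem_SP {a : ℝ} (h1 : 1 / 5 ≤ a) (h2 : a ≤ 4 / 5) : ax a ∈ SP :=
  Or.inr ⟨rfl, h1, h2, rfl⟩

private theorem hasDerivAt_core {J : R4 → R4} {a : ℝ} (hJ : LD J (ax a)) :
    HasDerivAt (core J) (fderiv ℝ J (ax a) (0, ((1 : ℝ), (0 : ℂ)))) a := by
  have hd : HasFDerivAt J (fderiv ℝ J (ax a)) (ax a) :=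
    ((ld_iff.1 hJ).1.self_of_nhds.differentiableAt (by simp)).hasFDerivAt
  have hax : HasDerivAt ax (0, ((1 : ℝ), (0 : ℂ))) a :=
    (hasDerivAt_const a (1 / 2 : ℝ)).prodMk ((hasDerivAt_id a).prodMk (hasDerivAt_const a (0 : ℂ)))
  exact hd.comp_hasDerivAt a hax

/-- a family of embedded germs over a time interval -/
private theorem eqv_fam (hA : StFam) {J : ℝ × R4 → R4} {t₁ t₂ : ℝ} (ht : t₁ ≤ t₂)
    (hs : ∀ t ∈ Icc t₁ t₂, ∀ p ∈ SP, ∀ᶠ q in 𝓝 (t, p), ContDiffAt ℝ ∞ J q)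
    (he : ∀ t ∈ Icc t₁ t₂, EmbOn I4 (fun p => J (t, p)) SP) :
    Eqv (fun p => J (t₁, p)) (fun p => J (t₂, p)) := by
  set a : ℝ × R4 → ℝ × R4 := fun q => (t₁ + q.1 * (t₂ - t₁), q.2) with ha
  have hac : ContDiff ℝ ∞ a :=
    (contDiff_const.add (contDiff_fst.mul contDiff_const)).prodMk contDiff_snd
  have hmem : ∀ t ∈ Icc (0 : ℝ) 1, t₁ + t * (t₂ - t₁) ∈ Icc t₁ t₂ := by
    intro t h
    constructor
    · nlinarith [h.1]
    · nlinarith [h.2]
  have hfam : FamOn I4 (fun q => J (a q)) SP := by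
    rw [famOn_iff]
    refine ⟨fun t h p hp => ?_, fun t h => he _ (hmem t h)⟩
    have h1 := hs (t₁ + t * (t₂ - t₁)) (hmem t h) p hp
    have h2 : Tendsto a (𝓝 (t, p)) (𝓝 (t₁ + t * (t₂ - t₁), p)) :=
      hac.continuous.tendsto (t, p)
    filter_upwards [h2.eventually h1] with q hq
    exact ContDiffAt.comp q hq hac.contDiffAt
  have h0 : (fun p : R4 => J (a (0, p))) = fun p => J (t₁, p) := by
    funext p; simp [ha]
  have h1 : (fun p : R4 => J (a (1, p))) = fun p => J (t₂, p) := by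
    funext p; simp [ha]
  have h2 := hA (fun q => J (a q)) hfam
  rwa [h0, h1] at h2

private theorem sin_ne {x : ℝ} (hx : x ∈ Icc (-1 : ℝ) 1) (h0 : x ≠ 0) : Real.sin x ≠ 0 := by
  intro h
  have h1 : -Real.pi < x := by linarith [Real.pi_gt_three, hx.1]
  have h2 : x < Real.pi := by linarith [Real.pi_gt_three, hx.2]
  exact h0 ((Real.sin_eq_zero_iff_of_lt_of_lt h1 h2).1 h)

section
variable {J : R4 → R4} {c : ℝ → R4} {H : ℝ → ℝ → ℝ → R4} {O O' : R4 → R4} {t' α e : ℝ}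

/-- the hypotheses on the germ `O` -/
private structure Hy (J : R4 → R4) (c : ℝ → R4) (H : ℝ → ℝ → ℝ → R4) (O : R4 → R4)
    (t' α e : ℝ) : Prop where
  xd : XD J c H
  a1 : 11 / 20 < α
  a2 : α < 4 / 5
  br : Br 0 O α e
  hcore : ∀ a ∈ Icc (1 / 5 : ℝ) (4 / 5), core O a = H (-1) t' a
  hright : ∀ p : R4, 31 / 40 < p.2.1 → O p = J p
  hoff : ∀ x ∈ Icc (-1 : ℝ) 1, ∀ a ∈ Icc (7 / 20 : ℝ) (9 / 20), H x t' a ∉ O '' flat 0

/-- the family of germs -/
private noncomputable def LL (H : ℝ → ℝ → ℝ → R4) (O : R4 → R4) (t' : ℝ) : ℝ × R4 → R4 :=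
  barFam O (H (-1) t') (fun z => H z.1 t' z.2) (1 / 20)

private theorem Hy.bar (h : Hy J c H O t' α e) :
    BarData O (H (-1) t') (fun z : ℝ × ℝ => H z.1 t' z.2) (1 / 20) where
  loc p hp := h.br.loc p (Or.inl hp)
  pos := by norm_num
  small := by norm_num
  smooth_c := by
    have h1 : ContDiff ℝ ∞ (fun a : ℝ => ((-1 : ℝ), t', a)) := by fun_prop
    exact h.xd.smooth.comp h1
  smooth_H := by
    have h1 : ContDiff ℝ ∞ (fun z : ℝ × ℝ => (z.1, t', z.2)) := by fun_prop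
    exact h.xd.smooth.comp h1
  core a ha := h.hcore a ha
  frozen t a ha := by
    have ha' : a ≤ 1 / 4 ∨ 3 / 4 ≤ a := by
      rcases ha with ha | ha
      · left; linarith
      · right; linarith
    show H t t' a = H (-1) t' a
    rw [h.xd.frozen t t' a ha', h.xd.frozen (-1) t' a ha']

private theorem Hy.eq_of_off (h : Hy J c H O t' α e) (x : ℝ) {a : ℝ}
    (ha : a ∈ Icc (1 / 5 : ℝ) (4 / 5)) (ho : a ≤ 7 / 20 ∨ 9 / 20 ≤ a) :
    H x t' a = core O a := by
  rw [h.hcore a ha]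
  exact h.xd.indx x (-1) t' a ho

private theorem Hy.hit0 (h : Hy J c H O t' α e) {x : ℝ} (hx : x ∈ Icc (-1 : ℝ) 1) {a : ℝ}
    (ha : a ∈ Icc (1 / 5 : ℝ) (4 / 5)) (hm : H x t' a ∈ O '' flat 0) : a = 1 / 5 ∨ a = α := by
  by_cases hc : a ∈ Icc (7 / 20 : ℝ) (9 / 20)
  · exact absurd hm (h.hoff x hx a hc)
  · have ho : a ≤ 7 / 20 ∨ 9 / 20 ≤ a := by
      by_contra hcon
      push Not at hcon
      exact hc ⟨hcon.1.le, hcon.2.le⟩
    rw [h.eq_of_off x ha ho] at hm
    rcases h.br.only a ha hm with h1 | h1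
    · left; rw [h1]; norm_num
    · right; exact h1

private theorem Hy.hits (h : Hy J c H O t' α e) {x : ℝ} (hx : x ∈ Icc (-1 : ℝ) 1) {a : ℝ}
    (ha : a ∈ Ioo (1 / 5 : ℝ) (4 / 5)) (hm : H x t' a ∈ O '' (sph 0 ∪ sph 1)) :
    a = 2 / 5 ∧ Real.sin x = 0 := by
  obtain ⟨p, hp | hp, he⟩ := hm
  · exfalso
    have ha' : a ∈ Icc (1 / 5 : ℝ) (4 / 5) := ⟨ha.1.le, ha.2.le⟩
    rcases h.hit0 hx ha' ⟨p, sph_sub_flat 0 hp, he⟩ with h1 | h1
    · linarith [ha.1]
    · have hα := h.a1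
      rw [h.eq_of_off x ha' (Or.inr (by linarith))] at he
      have h2 := h.br.inj (Or.inl (Or.inl hp)) (ax_mem_SP ha'.1 ha'.2) he
      have h3 := sph_zero_le hp
      rw [h2] at h3
      have h4 : (ax a).2.1 = a := rfl
      rw [h4] at h3
      linarith [ha.1]
  · have h4 := le_sph_one hp
    rw [h.hright p (by linarith)] at he
    rcases h.xd.hit x t' a ha p (Or.inr hp) he.symm with h1 | h1
    · have := sph_zero_le h1.1
      linarith
    · exact ⟨h1.2.1, h1.2.2⟩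

private theorem Hy.imm (h : Hy J c H O t' α e) (x : ℝ) : ∀ a ∈ Icc (1 / 5 : ℝ) (4 / 5),
    fderiv ℝ (fun z : ℝ × ℝ => H z.1 t' z.2) (x, a) (0, 1) ≠ 0 := by
  intro a ha
  have l : HasDerivAt (fun r : ℝ => ((x, r) : ℝ × ℝ)) (0, 1) a :=
    (hasDerivAt_const a x).prodMk (hasDerivAt_id a)
  have h1 : HasDerivAt (fun r : ℝ => H x t' r)
      (fderiv ℝ (fun z : ℝ × ℝ => H z.1 t' z.2) (x, a) (0, 1)) a :=
    HasFDerivAt.comp_hasDerivAt_of_eq a
      ((h.bar.smooth_H.differentiable (by simp) (x, a)).hasFDerivAt) l rfl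
  have h2 : deriv (H x t') a = fderiv ℝ (fun z : ℝ × ℝ => H z.1 t' z.2) (x, a) (0, 1) := h1.deriv
  rw [← h2]
  exact h.xd.imm x t' a ha

private theorem Hy.injF (h : Hy J c H O t' α e) : InjOn O (sph 0 ∪ sph 1) :=
  h.br.inj.mono fun _ hp => Or.inl hp

private theorem Hy.emb (h : Hy J c H O t' α e) {x : ℝ} (hx : x ∈ Icc (-1 : ℝ) 1)
    (h0 : x ≠ 0) : EmbOn I4 (fun p => LL H O t' (x, p)) SP := by
  refine h.bar.embOn (h.imm x) h.injF (h.xd.inj x t') ?_
  intro a ha hm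
  exact sin_ne hx h0 (h.hits hx ha hm).2

/-- near the flat ball of the first cuff the family is constant -/
private theorem Hy.near (h : Hy J c H O t' α e) (t : ℝ) {p : R4} (hp : p.2.1 ≤ 1 / 5) :
    (fun p => LL H O t' (t, p)) =ᶠ[𝓝 p] O := by
  have hcont : Continuous (fun q : R4 => q.2.1) := by fun_prop
  have hop : IsOpen {q : R4 | q.2.1 < 1 / 5 + 1 / 40} := isOpen_lt hcont continuous_const
  have hmem : p ∈ {q : R4 | q.2.1 < 1 / 5 + 1 / 40} := by
    show p.2.1 < 1 / 5 + 1 / 40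
    linarith
  filter_upwards [hop.mem_nhds hmem] with q hq
  have hq' : q.2.1 < 1 / 5 + 1 / 40 := hq
  exact h.bar.barFam_eq (Or.inl (by linarith))

private theorem Hy.val (h : Hy J c H O t' α e) (t : ℝ) {p : R4} (hp : p.2.1 ≤ 1 / 5) :
    LL H O t' (t, p) = O p := (h.near t hp).self_of_nhds

private theorem Hy.val1 (h : Hy J c H O t' α e) (t : ℝ) {p : R4} (hp : 4 / 5 ≤ p.2.1) :
    LL H O t' (t, p) = O p := h.bar.barFam_eq (Or.inr (by linarith))

private theorem Hy.coreL (h : Hy J c H O t' α e) (t : ℝ) {a : ℝ}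
    (ha : a ∈ Icc (1 / 5 : ℝ) (4 / 5)) : LL H O t' (t, ax a) = H t t' a :=
  h.bar.barFam_neck ha.1 ha.2

private theorem Hy.pre (h : Hy J c H O t' α e) (hPCB : StPCB) :
    ∃ p₁ : R4, PreCross (fun q => LL H O t' (q.1, swp q.2)) 0 (3 / 5) p₁ := by
  obtain ⟨p₁, hp₁, hre, he, htr⟩ := h.xd.cross1 t'
  have h4 := le_sph_one hp₁
  have hev : O =ᶠ[𝓝 p₁] J := by
    have hcont : Continuous (fun q : R4 => q.2.1) := by fun_prop
    have hmem : p₁ ∈ {q : R4 | 31 / 40 < q.2.1} := by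
      show 31 / 40 < p₁.2.1
      linarith
    filter_upwards [(isOpen_lt continuous_const hcont).mem_nhds hmem] with q hq
    exact h.hright q hq
  have h0 : (0 : ℝ) ∈ Icc (-1 : ℝ) 1 := ⟨by norm_num, by norm_num⟩
  have := (hPCB O (H (-1) t') (fun z => H z.1 t' z.2) (1 / 20) 0 (2 / 5) p₁ h.bar h.injF
    ⟨by norm_num, by norm_num⟩ (h.imm 0) (h.xd.inj 0 t') (fun a ha hm => (h.hits h0 ha hm).1)
    hre (hev.self_of_nhds.trans he)).2 hp₁ (by
      intro ζ v hζ hv1 hv2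
      rw [hev.fderiv_eq] at hζ
      exact htr ζ v hζ hv1 hv2)
  have e : (1 : ℝ) - 2 / 5 = 3 / 5 := by norm_num
  rw [e] at this
  exact ⟨swp p₁, this⟩

private theorem Hy.ldL (h : Hy J c H O t' α e) (t : ℝ) {p : R4} (hp : p ∈ SP ∪ flat 0) :
    LD (fun p => LL H O t' (t, p)) p := by
  rcases hp with hp | hp
  · exact h.bar.isLocalDiffeomorphAt (h.imm t) hp
  · exact ld_congr (h.near t (flat_zero_le hp)).symm (h.br.loc p (Or.inr hp))

private theorem Hy.crossAt (h : Hy J c H O t' α e) (t : ℝ) :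
    CrossAt (fun p => LL H O t' (t, swp p)) 1 (1 - α) (-e) := by
  obtain ⟨x₀, h1, h2, l, v, h3, h4⟩ := h.br.cr
  have hα : α ∈ Icc (1 / 5 : ℝ) (4 / 5) := ⟨by linarith [h.a1], h.a2.le⟩
  have hx₀ : ((1 / 2 : ℝ), x₀) ∈ flat 0 := ball_mem_flat h1
  set p' : R4 := swp (1 / 2, x₀) with hp'
  have e1 : ((1 / 2 : ℝ), p'.2) = p' := rfl
  have e2 : swp p' = (1 / 2, x₀) := swp_swp _
  have e3 : swp (ax (1 - α)) = ax α := by
    rw [swp_ax, sub_sub_cancel]
  refine ⟨p'.2, ?_, ?_, (swpL (-(l, v))).1, (swpL (-(l, v))).2, ?_, ?_⟩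
  · have e4 : nsq (p'.2 - pc 1) = rsq 1 p' := by
      simp [rsq, pc, nsq]
    have e5 : rsq 1 p' = rsq 0 ((1 / 2 : ℝ), x₀) := rsq_one_swp _
    have e6 : rsq 0 ((1 / 2 : ℝ), x₀) = nsq (x₀ - pc 0) := by
      simp [rsq, pc, nsq]
    rw [e4, e5, e6]
    exact h1
  · show LL H O t' (t, swp (ax (1 - α))) = LL H O t' (t, swp ((1 / 2 : ℝ), p'.2))
    rw [e1, e2, e3, h.coreL t hα, h.val t (flat_zero_le hx₀), ← h2]
    exact h.eq_of_off t hα (Or.inr (by linarith [h.a1]))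
  · have e7 : (swpL (-(l, v))).1 = -l := rfl
    rw [e7]
    linarith
  · have hax : ax α ∈ SP := ax_mem_SP hα.1 hα.2
    have f1 : fderiv ℝ (fun p => LL H O t' (t, swp p)) (ax (1 - α)) =
        (fderiv ℝ (fun p => LL H O t' (t, p)) (ax α)).comp swpL := by
      have := fderiv_comp_swp (F := fun p => LL H O t' (t, p)) (p := ax (1 - α))
        (by rw [e3]; exact h.ldL t (Or.inl hax))
      rw [e3] at this
      exact this
    have f2 : fderiv ℝ (fun p => LL H O t' (t, swp p)) ((1 / 2 : ℝ), p'.2) =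
        (fderiv ℝ O ((1 / 2 : ℝ), x₀)).comp swpL := by
      have := fderiv_comp_swp (F := fun p => LL H O t' (t, p)) (p := p')
        (by rw [e2]; exact h.ldL t (Or.inr hx₀))
      rw [e2, (h.near t (flat_zero_le hx₀)).fderiv_eq] at this
      exact this
    have hd1 := hasDerivAt_core (h.ldL t (Or.inl hax))
    have hd2 := hasDerivAt_core (h.br.loc _ (Or.inl hax))
    have hev : core (fun p => LL H O t' (t, p)) =ᶠ[𝓝 α] core O := by
      filter_upwards [Ioo_mem_nhds (show (9 / 20 : ℝ) < α by linarith [h.a1]) h.a2] with a ha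
      have ha' : a ∈ Icc (1 / 5 : ℝ) (4 / 5) := ⟨by linarith [ha.1], ha.2.le⟩
      show LL H O t' (t, ax a) = core O a
      rw [h.coreL t ha']
      exact h.eq_of_off t ha' (Or.inr ha.1.le)
    have f3 := hd1.unique (hd2.congr_of_eventuallyEq hev)
    have e8 : swpL (0, ((1 : ℝ), (0 : ℂ))) = -(0, ((1 : ℝ), (0 : ℂ))) := by
      simp [swpL_apply]
    rw [f1, f2]
    simp only [ContinuousLinearMap.comp_apply, Prod.mk.eta]
    rw [swpL_swpL, e8, map_neg, map_neg, f3, h4]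

end

end LF

open LF in
/-- **LF.** Joining the two obstruction germs. -/
theorem m_LF (hPCB : StPCB) (hTHX : StTHX) (hOWL : StOWL) (hFr : StFr) (hA : StFam) : StLF := by
  intro W J c H O O' t' α e hW hX he ha1 ha2 hO hO' hcore hcore' hright hright' hnear hoff
  have h : Hy J c H O t' α e := ⟨hX, ha1, ha2, hO, hcore, hright, hoff⟩
  obtain ⟨p₁, hpre⟩ := h.pre hPCB
  -- crossing the second cuff
  obtain ⟨x₁, hx₁, x₂, hx₂, -, -, hOW⟩ := hTHX W (fun q => LL H O t' (q.1, swp q.2)) (3 / 5)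
    (1 - α) (-e) (1 / 2) p₁ hW (by rcases he with rfl | rfl <;> simp) hpre (by linarith)
    (by linarith) (by norm_num)
    (by
      intro t p hp
      exact ld_comp (F := fun p => LL H O t' (t, p)) (ld_swp p)
        (h.ldL t (Or.inr (swp_flat hp))))
    (by
      intro t s p hp
      show LL H O t' (t, swp p) = LL H O t' (s, swp p)
      rw [h.val t (flat_zero_le (swp_flat hp)), h.val s (flat_zero_le (swp_flat hp))])
    (by
      intro t _
      have hm : ∀ p ∈ flat 1 ∪ sph 0, LL H O t' (t, swp p) = O (swp p) ∧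
          swp p ∈ flat 0 ∪ sph (1 - 0) := by
        rintro p (hp | hp)
        · exact ⟨h.val t (flat_zero_le (swp_flat hp)), Or.inl (swp_flat hp)⟩
        · have h1 := swp_mem_sph_one hp
          exact ⟨h.val1 t (le_sph_one h1), Or.inr (by rw [sub_zero]; exact h1)⟩
      intro p hp q hq hpq
      have hpq' : LL H O t' (t, swp p) = LL H O t' (t, swp q) := hpq
      rw [(hm p hp).1, (hm q hq).1] at hpq'
      have := hO.injF (hm p hp).2 (hm q hq).2 hpq'
      rw [← swp_swp p, this, swp_swp])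
    (fun t _ => h.crossAt t)
    (by
      rintro t ht a ha ⟨p, hp, hpe⟩
      have hpe' : LL H O t' (t, swp p) = LL H O t' (t, swp (ax a)) := hpe
      have ha' : 1 - a ∈ Icc (1 / 5 : ℝ) (4 / 5) := ⟨by linarith [ha.2], by linarith [ha.1]⟩
      rw [h.val t (flat_zero_le (swp_flat hp)), swp_ax, h.coreL t ha'] at hpe'
      rcases h.hit0 ht ha' ⟨swp p, swp_flat hp, hpe'⟩ with h1 | h1
      · left; linarith
      · right; linarith)
  obtain ⟨hsym, hsw, hcong⟩ := hOWL W hW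
  have hm1 : (-1 : ℝ) ∈ Icc (-1 : ℝ) 1 := ⟨le_refl _, by norm_num⟩
  have hp1 : (1 : ℝ) ∈ Icc (-1 : ℝ) 1 := ⟨by norm_num, le_refl _⟩
  have hE₁ : EmbOn I4 (fun p => LL H O t' (x₁, p)) SP :=
    h.emb ⟨by linarith [hx₁.1], by linarith [hx₁.2]⟩ hx₁.2.ne
  have hE₂ : EmbOn I4 (fun p => LL H O t' (x₂, p)) SP :=
    h.emb ⟨by linarith [hx₂.1], by linarith [hx₂.2]⟩ hx₂.1.ne'
  have hOW2 : OW W (fun p => LL H O t' (x₁, p)) (fun p => LL H O t' (x₂, p)) :=
    hsw _ _ hE₁ hE₂ hOW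
  -- families without crossing
  have hf1 : Eqv (fun p => LL H O t' (-1, p)) (fun p => LL H O t' (x₁, p)) := by
    refine eqv_fam hA (by linarith [hx₁.1]) (fun t _ p hp => h.bar.eventually_smooth t hp) ?_
    intro t ht
    exact h.emb ⟨ht.1, by linarith [ht.2, hx₁.2]⟩ (by linarith [ht.2, hx₁.2] : t < 0).ne
  have hf2 : Eqv (fun p => LL H O t' (x₂, p)) (fun p => LL H O t' (1, p)) := by
    refine eqv_fam hA (by linarith [hx₂.2]) (fun t _ p hp => h.bar.eventually_smooth t hp) ?_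
    intro t ht
    exact h.emb ⟨by linarith [ht.1, hx₂.1], ht.2⟩ (by linarith [ht.1, hx₂.1] : 0 < t).ne'
  have hcont : Continuous (fun q : R4 => q.2.1) := by fun_prop
  have hEO : EmbOn I4 O SP := ⟨fun p hp => hO.loc p (Or.inl hp), hO.inj⟩
  have hEO' : EmbOn I4 O' SP := ⟨fun p hp => hO'.loc p (Or.inl hp), hO'.inj⟩
  -- the framing lemma
  have hg1 : Eqv O (fun p => LL H O t' (-1, p)) := by
    refine hFr O _ {q : R4 | q.2.1 < 1 / 5 + 1 / 40 ∨ 4 / 5 - 1 / 40 < q.2.1} hEO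
      (h.emb hm1 (by norm_num))
      ((isOpen_lt hcont continuous_const).union (isOpen_lt continuous_const hcont)) ?_ ?_ ?_
    · rintro p (hp | hp)
      · left; linarith [sph_zero_le hp]
      · right; linarith [le_sph_one hp]
    · intro p hp
      refine (h.bar.barFam_eq ?_).symm
      rcases hp with hp | hp
      · left; linarith
      · right; linarith
    · intro p hp
      have e1 : p = ax p.2.1 := neck_eq hp
      have e2 := h.coreL (-1) (a := p.2.1) ⟨hp.2.1, hp.2.2.1⟩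
      have e3 := hcore p.2.1 ⟨hp.2.1, hp.2.2.1⟩
      show O p = LL H O t' (-1, p)
      rw [e1]
      exact e3.trans e2.symm
  have hg2 : Eqv O' (fun p => LL H O t' (1, p)) := by
    obtain ⟨U₀, hU₀, hs₀, he₀⟩ := hnear
    refine hFr O' _ ((U₀ ∩ {q : R4 | q.2.1 < 1 / 5 + 1 / 40}) ∪ {q : R4 | 31 / 40 < q.2.1}) hEO'
      (h.emb hp1 (by norm_num))
      ((hU₀.inter (isOpen_lt hcont continuous_const)).union (isOpen_lt continuous_const hcont))
      ?_ ?_ ?_
    · rintro p (hp | hp)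
      · left
        exact ⟨hs₀ (sph_sub_flat 0 hp), by
          show p.2.1 < 1 / 5 + 1 / 40
          linarith [sph_zero_le hp]⟩
      · right
        show 31 / 40 < p.2.1
        linarith [le_sph_one hp]
    · rintro p (⟨hp, hp2⟩ | hp)
      · have hp3 : p.2.1 < 1 / 5 + 1 / 40 := hp2
        rw [← he₀ hp]
        exact (h.bar.barFam_eq (Or.inl (by linarith))).symm
      · have hp3 : 31 / 40 < p.2.1 := hp
        rw [hright' p hp3, ← hright p hp3]
        exact (h.bar.barFam_eq (Or.inr (by linarith))).symm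
    · intro p hp
      have e1 : p = ax p.2.1 := neck_eq hp
      have e2 := h.coreL 1 (a := p.2.1) ⟨hp.2.1, hp.2.2.1⟩
      have e3 := hcore' p.2.1 ⟨hp.2.1, hp.2.2.1⟩
      show O' p = LL H O t' (1, p)
      rw [e1]
      exact e3.trans e2.symm
  exact hcong _ _ _ _ (hg1.trans hf1).symm (hf2.trans hg2.symm) hOW2

end Pool.Agent.Helper34.BX
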