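import Pool.Agent.Helper34.BX.St

/-!
# Project BX, module OWL: properties of the relation `OW`
-/

set_option autoImplicit false

open scoped Manifold ContDiff Topology ComplexConjugate
open Set Filter Pool.Agent.Helper65.Barb Pool.Agent.Helper18.BI

namespace Pool.Agent.Helper34.BX

open Pool.Agent.Helper34.BI
open Pool.Agent.Helper70.BI
open Pool.Agent.Helper27.BI (swp StR2sw)

/-- **OWL.** Properties of the relation `OW`. -/
theorem m_OWL (hMWL : StMWL) (hT2 : StT2) (hCI : StCI) (hSw : StR2sw) : StOWL := by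
  intro W hW
  obtain ⟨-, -, -, -, -, -, tvii⟩ := hT2 R4 R4 I4 R4
  obtain ⟨-, cs, -, ct, cc, cinv, cex, -, -, -⟩ := hCI R4 R4 I4 R4
  have sw := hSw R4 R4 I4 R4
  obtain ⟨F₀, α₀, β₀, hθ, hF₀⟩ := hW.rep
  have hWW : CIsot I4 W W := tvii F₀ W hF₀
  have hsq : ∀ ψ : R4 → R4, CIsot I4 ψ ψ → CIsot I4 (fun x => W (W (ψ x))) ψ := fun ψ hψ =>
    cc (fun x => W (W x)) (fun x => x) ψ ψ hW.sq hψ
  have hcen : ∀ φ : R4 → R4, CIsot I4 φ φ → CIsot I4 (fun x => W (φ x)) (fun x => φ (W x)) :=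
    (hMWL W hW).1
  refine ⟨?_, ?_, ?_⟩
  · intro F G h φ ψ hφ hψ
    have h1 : CIsot I4 φ (fun x => W (ψ x)) := h ψ φ hψ hφ
    exact cs _ _ (ct _ _ _ (cc W W φ (fun x => W (ψ x)) hWW h1) (hsq ψ (tvii F ψ hψ)))
  · intro F G hF hG h φ ψ hφ hψ
    obtain ⟨φ', -, hφ1, hφ2⟩ := cex φ (tvii F φ hφ)
    obtain ⟨ψ', -, hψ1, hψ2⟩ := cex ψ (tvii G ψ hψ)
    have b1 := (sw F φ φ' hF hφ1 hφ2).1 hφ
    have b2 := (sw G ψ ψ' hG hψ1 hψ2).1 hψ
    have c1 : CIsot I4 ψ' (fun x => W (φ' x)) := h φ' ψ' b1 b2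
    obtain ⟨W', hW', w1, w2⟩ := cex W hWW
    have d1 : CIsot I4 ψ (fun x => φ (W' x)) :=
      cinv ψ' (fun x => W (φ' x)) ψ (fun x => φ (W' x)) c1 hψ2 fun x => by rw [hφ2, w1]
    have d2 : CIsot I4 W W' := by
      have d3 := cc W' W' (fun x => W (W x)) (fun x => x) hW' hW.sq
      have d4 : (fun x => W' (W (W x))) = W := funext fun x => w2 (W x)
      rwa [d4] at d3
    exact ct _ _ _ d1 (ct _ _ _ (cc φ φ W' W (tvii F φ hφ) (cs _ _ d2))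
      (cs _ _ (hcen φ (tvii F φ hφ))))
  · intro F F' G G' hFF hGG h φ ψ hφ hψ
    exact h φ ψ ((hFF φ).2 hφ) ((hGG ψ).2 hψ)

end Pool.Agent.Helper34.BX
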