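import Pool.Agent.Helper34.BX.St
import Pool.Agent.Helper18.BI.M_R3

/-!
# Project BX (MP_8e98f2_gt), module R3X: realization of a germ by a barbell, exact near the spine
-/

set_option autoImplicit false

open scoped Manifold ContDiff Topology ComplexConjugate
open Set Filter Pool.Agent.Helper65.Barb Pool.Agent.Helper18.BI

namespace Pool.Agent.Helper34.BX

theorem m_R3X (a1 : StA1) (t2 : StT2) (t3 : StT3) (im : StImp) (s4 : StS4) (r1 : StRHO1)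
    (r2 : StRHO2) : StR3X := by
  intro φ G hG hT
  obtain ⟨-, -, -, -, -, s46, s47, s48, cSP, -, -⟩ := s4
  -- the open set on which the germ is an embedding
  obtain ⟨δ₀, hδ₀, hδG⟩ := a1 R4 (EuclideanSpace ℝ (Fin 4)) (EuclideanSpace ℝ (Fin 4)) (𝓡 4) S4 G SP
    cSP hG.1 hG.2
  have hGloc : ∀ q ∈ δ₀.source, IsLocalDiffeomorphAt 𝓘(ℝ, R4) (𝓡 4) ∞ G q :=
    fun q hq => ⟨δ₀, hq, fun p hp => (hδG p hp).symm⟩
  have hGinj : InjOn G δ₀.source := by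
    intro p hp q hq h
    rw [← hδG p hp, ← hδG q hq] at h
    exact δ₀.injOn hp hq h
  -- the compression
  obtain ⟨e₀, he₀, hmaps⟩ := r2 δ₀.source δ₀.open_source hδ₀
  obtain ⟨e, he1, he2⟩ : ∃ e : ℝ, e ∈ Ioo (0 : ℝ) e₀ ∧ e ∈ Ioo (0 : ℝ) (1 / 100) := by
    refine ⟨min e₀ (1 / 100) / 2, ⟨by positivity, ?_⟩, ⟨by positivity, ?_⟩⟩
    · have k1 := min_le_left e₀ (1 / 100 : ℝ)
      linarith
    · have k1 := min_le_right e₀ (1 / 100 : ℝ)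
      linarith
  obtain ⟨hκ, U, hU, hSU, hUe⟩ := r1 e he2
  have hpos : ∀ p ∈ Pool.Agent.Helper65.Barb.NB, p ∈ {p : R4 | 0 < rsq 0 p ∧ 0 < rsq 1 p} := by
    intro p hp
    exact ⟨lt_of_lt_of_le (by norm_num) hp.2.1, lt_of_lt_of_le (by norm_num) hp.2.2⟩
  have hV := hmaps e he1
  -- the barbell
  have hloc : ∀ p ∈ Pool.Agent.Helper65.Barb.NB,
      IsLocalDiffeomorphAt 𝓘(ℝ, R4) (𝓡 4) ∞ (fun p => G (cpr e p)) p := fun p hp =>
    IsLocalDiffeomorphAt.comp (hf := hκ.1 p (hpos p hp)) (hg := hGloc _ (hV hp))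
  have hinj : InjOn (fun p => G (cpr e p)) Pool.Agent.Helper65.Barb.NB := fun p hp q hq h =>
    hκ.2 (hpos p hp) (hpos q hq) (hGinj (hV hp) (hV hq) h)
  obtain ⟨B, hB, hBG⟩ := a1 R4 (EuclideanSpace ℝ (Fin 4)) (EuclideanSpace ℝ (Fin 4)) (𝓡 4) S4
    (fun p => G (cpr e p)) Pool.Agent.Helper65.Barb.NB isCompact_NB hloc hinj
  have hUo : IsOpen (B.source ∩ U) := B.open_source.inter hU
  have hSPU : SP ⊆ B.source ∩ U := fun p hp => ⟨hB (s48 (s46 hp)), hSU hp⟩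
  have hEq : EqOn B G (B.source ∩ U) := by
    intro p hp
    rw [hBG p hp.1, hUe p hp.2]
  refine ⟨B, hB, ⟨B.source ∩ U, hUo, hSPU, hEq⟩, ?_⟩
  have hEB : EmbOn (𝓡 4) B EB :=
    ⟨fun p hp => ⟨B, hB (s48 hp), fun q _ => rfl⟩, B.injOn.mono (s48.trans hB)⟩
  have h3 := t3 (EuclideanSpace ℝ (Fin 4)) (EuclideanSpace ℝ (Fin 4)) (𝓡 4) S4 B hEB
  have hinjB : InjOn B bsupp := B.injOn.mono (bsupp_subset.trans hB)
  have h5 := (im (EuclideanSpace ℝ (Fin 4)) (EuclideanSpace ℝ (Fin 4)) (𝓡 4) S4 B bsupp barMap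
    hinjB).2.2.2.2.1 B (bsupp_subset.trans hB) (fun p _ => rfl) MR3.mapsTo_barMap
    (fun p hp => barMap_off hp)
  rw [h5] at h3
  have hT' : Thin (𝓡 4) B φ := (t2 (EuclideanSpace ℝ (Fin 4)) (EuclideanSpace ℝ (Fin 4)) (𝓡 4)
    S4).2.2.2.2.1 G B (B.source ∩ U) φ hUo hSPU hEq.symm hT
  exact (t2 (EuclideanSpace ℝ (Fin 4)) (EuclideanSpace ℝ (Fin 4)) (𝓡 4) S4).2.1 B φ _ hT' h3

end Pool.Agent.Helper34.BX
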