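import Pool.Agent.Helper34.BX.St

/-!
# Project BX, module THX: crossing the first cuff when the second cuff bounds a ball crossed once
-/

set_option autoImplicit false

open scoped Manifold ContDiff Topology ComplexConjugate
open Set Filter Pool.Agent.Helper65.Barb Pool.Agent.Helper18.BI

namespace Pool.Agent.Helper34.BX

open Pool.Agent.Helper34.BI
open Pool.Agent.Helper70.BI

namespace THX

private theorem isCompact_flat_THX (c : ℝ) : IsCompact (flat c) := by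
  apply Metric.isCompact_of_isClosed_isBounded
  · apply IsClosed.inter (isClosed_eq continuous_fst continuous_const)
    exact isClosed_le (continuous_rsq c) continuous_const
  · exact (isBounded_of_rsq c (1 / 25) (1 / 2) (1 / 2)).subset
      (fun p hp => ⟨hp.1.ge, hp.1.le, hp.2⟩)

private theorem lt_of_flat_THX {p : R4} (hp : p ∈ flat 1) : 1 / 2 < p.2.1 := by
  have h1 := sq_le_rsq_one p
  have h2 := hp.2
  nlinarith

private theorem lt_of_sph_THX {p : R4} (hp : p ∈ sph 0) : p.2.1 < 1 / 2 := by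
  have h1 := sq_le_rsq p
  have h2 := hp.2
  nlinarith

private theorem sph_sub_flat_THX (c : ℝ) : sph c ⊆ flat c := fun _ hp => ⟨hp.1, hp.2.le⟩

private theorem ax_mem_SP_THX {a : ℝ} (h1 : 1 / 5 ≤ a) (h2 : a ≤ 4 / 5) : ax a ∈ SP :=
  Or.inr ⟨rfl, h1, h2, rfl⟩

private theorem ball_mem_flat_THX {c : ℝ} {x₀ : R3} (h : nsq (x₀ - pc c) < 1 / 25) :
    ((1 / 2 : ℝ), x₀) ∈ flat c := by
  refine ⟨rfl, ?_⟩
  have e : rsq c ((1 / 2 : ℝ), x₀) = nsq (x₀ - pc c) := by
    simp [rsq, nsq, pc]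
  rw [e]
  exact h.le

private theorem hasDerivAt_core_THX {J : R4 → R4} {a : ℝ} (hJ : LD J (ax a)) :
    HasDerivAt (core J) (fderiv ℝ J (ax a) (0, ((1 : ℝ), (0 : ℂ)))) a := by
  have hd : HasFDerivAt J (fderiv ℝ J (ax a)) (ax a) :=
    ((ld_iff.1 hJ).1.self_of_nhds.differentiableAt (by simp)).hasFDerivAt
  have hax : HasDerivAt ax (0, ((1 : ℝ), (0 : ℂ))) a :=
    (hasDerivAt_const a (1 / 2 : ℝ)).prodMk ((hasDerivAt_id a).prodMk (hasDerivAt_const a (0 : ℂ)))
  exact hd.comp_hasDerivAt a hax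

private theorem eventuallyEq_of_lt_THX {O G : R4 → R4}
    (h : ∀ p : R4, 1 / 2 < p.2.1 → O p = G p) {p : R4} (hp : 1 / 2 < p.2.1) : O =ᶠ[𝓝 p] G := by
  have hc : Continuous fun q : R4 => q.2.1 := by fun_prop
  filter_upwards [(isOpen_lt continuous_const hc).mem_nhds hp] with q hq
  exact h q hq

/-- the second cuff of the obstruction germ bounds a flat ball which is met once by the bar -/
private theorem br_one_THX {J : ℝ × R4 → R4} {β d t' α e : ℝ} {O : R4 → R4}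
    (hβ1 : 1 / 5 < β) (hβ2 : β < 4 / 5) (hemb : EmbOn I4 (fun p => J (t', p)) SP)
    (hloc : ∀ t, ∀ p ∈ flat 1, LD (fun p => J (t, p)) p)
    (hconst : ∀ t t' : ℝ, ∀ p ∈ flat 1, J (t, p) = J (t', p))
    (hinj : InjOn (fun p => J (t', p)) (flat 1 ∪ sph 0))
    (hcr : CrossAt (fun p => J (t', p)) 1 β d)
    (honly : ∀ a ∈ Icc (1 / 5 : ℝ) (4 / 5),
      core (fun p => J (t', p)) a ∈ (fun p => J (t', p)) '' flat 1 → a = 4 / 5 ∨ a = β)
    (hO : Br 0 O α e)
    (hcore : ∀ a ∈ Icc (1 / 5 : ℝ) (4 / 5), core O a = core (fun p => J (t', p)) a)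
    (hright : ∀ p : R4, 1 / 2 < p.2.1 → O p = J (t', p))
    (hdis : Disjoint ((fun p => J ((0 : ℝ), p)) '' flat 1) (O '' flat 0)) : Br 1 O β d := by
  have hflat : ∀ p ∈ flat 1, O p = J (t', p) := fun p hp => hright p (lt_of_flat_THX hp)
  have himg : O '' flat 1 = (fun p => J (t', p)) '' flat 1 := image_congr hflat
  have hne : ∀ p ∈ flat 1, ∀ q ∈ sph 0, O p ≠ O q := by
    intro p hp q hq he
    refine (Set.disjoint_left.1 hdis) (a := O p) ⟨p, hp, ?_⟩ ⟨q, sph_sub_flat_THX 0 hq, he.symm⟩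
    rw [hflat p hp]
    exact hconst 0 t' p hp
  refine ⟨?_, hO.inj, ?_, ⟨hβ1, hβ2⟩, ?_, ?_⟩
  · rintro p (hp | hp)
    · exact hO.loc p (Or.inl hp)
    · exact ld_congr (eventuallyEq_of_lt_THX hright (lt_of_flat_THX hp)).symm (hloc t' p hp)
  · have e0 : (1 : ℝ) - 1 = 0 := by norm_num
    rw [e0]
    rintro p (hp | hp) q (hq | hq) he
    · rw [hflat p hp, hflat q hq] at he
      exact hinj (Or.inl hp) (Or.inl hq) he
    · exact absurd he (hne p hp q hq)
    · exact absurd he.symm (hne q hq p hp)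
    · exact hO.inj (Or.inl (Or.inl hp)) (Or.inl (Or.inl hq)) he
  · obtain ⟨x₀, h1, h2, l, v, h3, h4⟩ := hcr
    have hx : ((1 / 2 : ℝ), x₀) ∈ flat 1 := ball_mem_flat_THX h1
    have hγ : β ∈ Icc (1 / 5 : ℝ) (4 / 5) := ⟨hβ1.le, hβ2.le⟩
    have hax : ax β ∈ SP := ax_mem_SP_THX hγ.1 hγ.2
    refine ⟨x₀, h1, ?_, l, v, h3, ?_⟩
    · rw [hcore _ hγ, hflat _ hx]
      exact h2
    · have hd1 := hasDerivAt_core_THX (hO.loc _ (Or.inl hax))
      have hd2 := hasDerivAt_core_THX (hemb.1 _ hax)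
      have hev : core O =ᶠ[𝓝 β] core (fun p => J (t', p)) := by
        filter_upwards [Ioo_mem_nhds hβ1 hβ2] with a ha
        exact hcore a ⟨ha.1.le, ha.2.le⟩
      have e1 := hd1.unique (hd2.congr_of_eventuallyEq hev)
      have e2 := (eventuallyEq_of_lt_THX hright (lt_of_flat_THX hx)).fderiv_eq (𝕜 := ℝ)
      rw [e1, e2]
      exact h4
  · intro a ha hm
    have e0 : (1 : ℝ) / 5 + 3 / 5 * 1 = 4 / 5 := by norm_num
    rw [e0]
    rw [hcore a ha, himg] at hm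
    exact honly a ha hm

end THX

open THX

/-- **THX.** Crossing the first cuff when the second cuff bounds a ball crossed once by the bar. -/
theorem m_THX (hCRP : StCRP) (hOWL : StOWL) : StTHX := by
  intro W J u₀ β d ε p₀ hW hd hpre hβ1 hβu hε hloc hconst hinj hcr honly
  have hu : u₀ < 4 / 5 := hpre.arc.2
  have hβ2 : β < 4 / 5 := by linarith
  have h00 : (0 : ℝ) ∈ Icc (-1 : ℝ) 1 := ⟨by norm_num, by norm_num⟩
  have hC : IsCompact ((fun p => J ((0 : ℝ), p)) '' flat 1) := by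
    refine (isCompact_flat_THX 1).image_of_continuousOn fun p hp => ?_
    exact ((ld_iff.1 (hloc 0 p hp)).1.self_of_nhds.continuousAt).continuousWithinAt
  have hdis : Disjoint ((fun p => J ((0 : ℝ), p)) '' flat 1)
      ((fun p => J ((0 : ℝ), p)) '' sph 0) := by
    rw [Set.disjoint_left]
    rintro _ ⟨p, hp, rfl⟩ ⟨q, hq, he⟩
    have h1 : q = p := hinj 0 h00 (Or.inr hq) (Or.inl hp) he
    have h2 := lt_of_flat_THX hp
    have h3 := lt_of_sph_THX hq
    rw [h1] at h3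
    exact lt_asymm h2 h3
  have hε' : 0 < min ε (min 1 (u₀ - β)) := lt_min hε (lt_min one_pos (by linarith))
  obtain ⟨t₁, ht₁, t₂, ht₂, hE₁, hE₂, t', t'', htt, O, α, e, hα, he, hBr, hcore, hright, hdisO,
    hcl⟩ := hCRP J 0 u₀ p₀ hpre _ hC hdis _ hε'
  have m1 := min_le_left ε (min 1 (u₀ - β))
  have m2 := (min_le_right ε (min 1 (u₀ - β))).trans (min_le_left _ _)
  have m3 := (min_le_right ε (min 1 (u₀ - β))).trans (min_le_right _ _)
  have hα' : β < α := by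
    have h1 := (abs_lt.1 (lt_of_lt_of_le hα m3)).1
    linarith
  have ht' : t' ∈ Icc (-1 : ℝ) 1 ∧ EmbOn I4 (fun p => J (t', p)) SP := by
    rcases htt with ⟨rfl, rfl⟩ | ⟨rfl, rfl⟩
    · exact ⟨⟨by linarith [ht₁.1], by linarith [ht₁.2]⟩, hE₁⟩
    · exact ⟨⟨by linarith [ht₂.1], by linarith [ht₂.2]⟩, hE₂⟩
  have hB1 : Br 1 O β d := br_one_THX hβ1 hβ2 ht'.2 hloc hconst (hinj t' ht'.1) (hcr t' ht'.1)
    (honly t' ht'.1) hBr hcore hright hdisO
  have himg : O '' flat 1 = (fun p => J ((0 : ℝ), p)) '' flat 1 := by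
    refine image_congr fun p hp => ?_
    rw [hright p (lt_of_flat_THX hp)]
    exact hconst t' 0 p hp
  have hTh : Theta O α β e d := by
    refine ⟨hBr, hB1, ?_, hα'⟩
    rw [himg]
    exact hdisO.symm
  have hO : Thin I4 O W := hW.all O α β e d he hd hTh
  have hOW : OW W (fun p => J (t'', p)) (fun p => J (t', p)) := fun φ ψ hφ hψ =>
    hcl ψ φ W hψ hφ hO
  refine ⟨t₁, ⟨by linarith [ht₁.1], ht₁.2⟩, t₂, ⟨ht₂.1, by linarith [ht₂.2]⟩, hE₁, hE₂, ?_⟩
  rcases htt with ⟨rfl, rfl⟩ | ⟨rfl, rfl⟩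
  · exact (hOWL W hW).1 _ _ hOW
  · exact hOW

end Pool.Agent.Helper34.BX
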