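import Pool.Agent.Helper34.BX.St
import Pool.Agent.Helper18.BI.M_A1
import Pool.Agent.Helper18.BI.M_X2

/-!
# Project BX (MP_8e98f2_gt), module XD: the two-parameter family of bars of a germ
-/

set_option autoImplicit false

open scoped Manifold ContDiff Topology ComplexConjugate
open Set Filter Pool.Agent.Helper65.Barb Pool.Agent.Helper18.BI

namespace Pool.Agent.Helper34.BX

open Pool.Agent.Helper34.BI
open Pool.Agent.Helper70.BI

private theorem abs_XD {u : ℝ} (hu : u ∈ Icc (1 / 5 : ℝ) (4 / 5)) : |u - 1 / 2| ≤ 3 / 10 := by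
  rw [abs_le]
  constructor <;> linarith [hu.1, hu.2]

private theorem ax_cont_XD : Continuous ax :=
  continuous_const.prodMk (continuous_id.prodMk continuous_const)

private theorem ax_mem_XD {u : ℝ} (hu : u ∈ Icc (1 / 5 : ℝ) (4 / 5)) : ax u ∈ neck :=
  ⟨rfl, hu.1, hu.2, rfl⟩

/-- cutting off a map which is defined near the bar -/
private theorem cut_XD {W : Type*} [NormedAddCommGroup W] [NormedSpace ℝ W] (J : R4 → R4)
    (g : W → R4) (π : W → ℝ) (hg : ContDiff ℝ ∞ g) (hπ : ContDiff ℝ ∞ π) {r : ℝ} (hr : 0 < r)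
    (hsm : ∀ z, |π z - 1 / 2| < 3 / 10 + r → ContDiffAt ℝ ∞ J (g z))
    (Ψ : ℝ → ℝ) (hΨ : ContDiff ℝ ∞ Ψ)
    (h0 : ∀ u : ℝ, 3 / 10 + 2 * r / 3 ≤ |u - 1 / 2| → Ψ u = 0) :
    ContDiff ℝ ∞ (fun z => Ψ (π z) • J (g z)) := by
  have hc : Continuous (fun z : W => |π z - 1 / 2|) := (hπ.continuous.sub continuous_const).abs
  rw [contDiff_iff_contDiffAt]
  intro z
  rcases lt_or_ge (|π z - 1 / 2|) (3 / 10 + r) with h | h
  · exact (hΨ.contDiffAt.comp z hπ.contDiffAt).smul ((hsm z h).comp z hg.contDiffAt)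
  · have h2 : ∀ᶠ v : W in 𝓝 z, 3 / 10 + 2 * r / 3 < |π v - 1 / 2| :=
      hc.continuousAt.eventually_const_lt (by linarith)
    have h3 : (fun z => Ψ (π z) • J (g z)) =ᶠ[𝓝 z] fun _ => (0 : R4) := by
      filter_upwards [h2] with v hv
      rw [h0 _ hv.le, zero_smul]
    exact contDiffAt_const.congr_of_eventuallyEq h3

/-- **XD.** -/
theorem m_XD (hA : StAR1a) (hB : StAR1b) (hC : StAR2) : StXD := by
  intro J hJ
  obtain ⟨Φ, hΦs, hΦ⟩ := m_A1 R4 R4 R4 I4 R4 J SP X2.isCompact_SP hJ.1 hJ.2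
  have hnV : neck ⊆ Φ.source := fun p hp => hΦs (Or.inr hp)
  have hLD : ∀ p ∈ Φ.source, IsLocalDiffeomorphAt 𝓘(ℝ, R4) 𝓘(ℝ, R4) ∞ J p := fun p hp =>
    ⟨Φ, hp, fun q hq => (hΦ q hq).symm⟩
  have hinj : ∀ p ∈ Φ.source, ∀ q ∈ Φ.source, J p = J q → p = q := by
    intro p hp q hq h
    rw [← hΦ p hp, ← hΦ q hq] at h
    exact Φ.toPartialEquiv.injOn hp hq h
  have hsm : ∀ p ∈ Φ.source, ContDiffAt ℝ ∞ J p := fun p hp =>
    (eventually_contDiffAt (hLD p hp)).self_of_nhds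
  obtain ⟨lam, hlam, hV⟩ := hC Φ.source Φ.open_source hnV
  have hV := hV lam ⟨hlam.1, le_rfl⟩
  obtain ⟨a1, a2, a3, a4, a5, a6⟩ := hA lam hlam
  obtain ⟨b1, b2, b3, b4⟩ := hB lam hlam
  -- the neighbourhood of the axis
  obtain ⟨r, hr, hrV⟩ : ∃ r > 0, ∀ u : ℝ, |u - 1 / 2| < 3 / 10 + r → ax u ∈ Φ.source := by
    have hO : IsOpen (ax ⁻¹' Φ.source) := Φ.open_source.preimage ax_cont_XD
    have hsub : Metric.closedBall (1 / 2 : ℝ) (3 / 10) ⊆ ax ⁻¹' Φ.source := by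
      intro u hu
      rw [Metric.mem_closedBall, Real.dist_eq, abs_le] at hu
      exact hnV (ax_mem_XD ⟨by linarith [hu.1], by linarith [hu.2]⟩)
    obtain ⟨r, hr, hr2⟩ := (isCompact_closedBall (1 / 2 : ℝ) (3 / 10)).exists_thickening_subset_open
      hO hsub
    refine ⟨r, hr, fun u hu => ?_⟩
    have h1 : u ∈ Metric.thickening r (Metric.closedBall (1 / 2 : ℝ) (3 / 10)) := by
      rw [thickening_closedBall hr (by norm_num), Metric.mem_ball, Real.dist_eq]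
      linarith
    exact hr2 h1
  let Ψ : ContDiffBump (1 / 2 : ℝ) := ⟨3 / 10 + r / 3, 3 / 10 + 2 * r / 3, by positivity,
    by linarith⟩
  have hΨ : ContDiff ℝ ∞ Ψ := Ψ.contDiff
  have h1 : ∀ u : ℝ, |u - 1 / 2| ≤ 3 / 10 + r / 3 → Ψ u = 1 := fun u hu =>
    Ψ.one_of_mem_closedBall (by rw [Metric.mem_closedBall, Real.dist_eq]; exact hu)
  have h0 : ∀ u : ℝ, 3 / 10 + 2 * r / 3 ≤ |u - 1 / 2| → Ψ u = 0 := fun u hu =>
    Ψ.zero_of_le_dist (by rw [Real.dist_eq]; exact hu)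
  have hΨI : ∀ u ∈ Icc (1 / 5 : ℝ) (4 / 5), Ψ u = 1 := fun u hu => h1 u (by linarith [abs_XD hu])
  have hΨe : ∀ u ∈ Icc (1 / 5 : ℝ) (4 / 5), ∀ᶠ v in 𝓝 u, Ψ v = 1 := by
    intro u hu
    have hc : Continuous (fun u : ℝ => |u - 1 / 2|) := (continuous_id.sub continuous_const).abs
    have h2 : ∀ᶠ v : ℝ in 𝓝 u, |v - 1 / 2| < 3 / 10 + r / 3 :=
      hc.continuousAt.eventually_lt_const (by linarith [abs_XD hu])
    filter_upwards [h2] with v hv
    exact h1 v hv.le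
  -- the points of the model arcs lie in the domain
  have hE : ∀ x t a, |a - 1 / 2| < 3 / 10 + r →
      hh4 lam (Real.sin x) (Real.sin t) a ∈ Φ.source := by
    intro x t a ha
    by_cases h : a ∈ Icc (1 / 5 : ℝ) (4 / 5)
    · exact hV _ ⟨Real.neg_one_le_sin x, Real.sin_le_one x⟩ _
        ⟨Real.neg_one_le_sin t, Real.sin_le_one t⟩ a h
    · rw [a2]
      · exact hrV a ha
      · by_contra hn
        push Not at hn
        exact h ⟨by linarith [hn.1], by linarith [hn.2]⟩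
  have hEI : ∀ x t, ∀ a ∈ Icc (1 / 5 : ℝ) (4 / 5),
      hh4 lam (Real.sin x) (Real.sin t) a ∈ Φ.source := fun x t a ha =>
    hE x t a (by linarith [abs_XD ha])
  have hsx : ContDiff ℝ ∞ (fun z : ℝ × ℝ × ℝ => Real.sin z.1) :=
    Real.contDiff_sin.comp contDiff_fst
  have hst : ContDiff ℝ ∞ (fun z : ℝ × ℝ × ℝ => Real.sin z.2.1) :=
    Real.contDiff_sin.comp (contDiff_fst.comp contDiff_snd)
  have hsa : ContDiff ℝ ∞ (fun z : ℝ × ℝ × ℝ => z.2.2) := contDiff_snd.comp contDiff_snd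
  have hgE : ContDiff ℝ ∞ (fun z : ℝ × ℝ × ℝ =>
      hh4 lam (Real.sin z.1) (Real.sin z.2.1) z.2.2) :=
    a1.comp (hsx.prodMk (hst.prodMk hsa))
  have hJp : ∀ p : R4, p ∈ Φ.source → HasFDerivAt J (fderiv ℝ J p) p := fun p hp =>
    ((hsm p hp).differentiableAt (by simp)).hasFDerivAt
  refine ⟨fun a => Ψ a • J (ax a),
    fun x t a => Ψ a • J (hh4 lam (Real.sin x) (Real.sin t) a), ?_⟩
  refine
    { emb := hJ
      smooth_c := ?_
      smooth := ?_
      core := ?_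
      frozen := ?_
      indx := ?_
      indt := ?_
      inj := ?_
      imm := ?_
      hit := ?_
      cross0 := ?_
      cross1 := ?_ }
  · exact cut_XD J ax (fun a => a) (contDiff_const.prodMk (contDiff_id.prodMk contDiff_const))
      contDiff_id hr (fun z hz => hsm _ (hrV z hz)) Ψ hΨ h0
  · exact cut_XD J (fun z : ℝ × ℝ × ℝ => hh4 lam (Real.sin z.1) (Real.sin z.2.1) z.2.2)
      (fun z => z.2.2) hgE hsa hr (fun z hz => hsm _ (hE _ _ _ hz)) Ψ hΨ h0
  · intro a ha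
    show J (1 / 2, a, 0) = Ψ a • J (ax a)
    rw [hΨI a ha, one_smul]
    rfl
  · intro x t a ha
    show Ψ a • J (hh4 lam (Real.sin x) (Real.sin t) a) = Ψ a • J (ax a)
    rw [a2 _ _ a ha]
  · intro x x' t a ha
    show Ψ a • J (hh4 lam (Real.sin x) (Real.sin t) a) =
      Ψ a • J (hh4 lam (Real.sin x') (Real.sin t) a)
    rw [a3 (Real.sin x) (Real.sin x') _ a ha]
  · intro x t t' a ha
    show Ψ a • J (hh4 lam (Real.sin x) (Real.sin t) a) =
      Ψ a • J (hh4 lam (Real.sin x) (Real.sin t') a)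
    rw [a4 _ (Real.sin t) (Real.sin t') a ha]
  · intro x t a ha b hb hab
    have h : J (hh4 lam (Real.sin x) (Real.sin t) a) = J (hh4 lam (Real.sin x) (Real.sin t) b) := by
      have hab' : Ψ a • J (hh4 lam (Real.sin x) (Real.sin t) a) =
        Ψ b • J (hh4 lam (Real.sin x) (Real.sin t) b) := hab
      rwa [hΨI a ha, hΨI b hb, one_smul, one_smul] at hab'
    exact a5 _ _ (hinj _ (hEI x t a ha) _ (hEI x t b hb) h)
  · intro x t a ha
    have e1 : (fun a => Ψ a • J (hh4 lam (Real.sin x) (Real.sin t) a)) =ᶠ[𝓝 a]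
        fun a => J (hh4 lam (Real.sin x) (Real.sin t) a) := by
      filter_upwards [hΨe a ha] with v hv
      rw [hv, one_smul]
    have d1 : HasDerivAt (hh4 lam (Real.sin x) (Real.sin t))
        (deriv (hh4 lam (Real.sin x) (Real.sin t)) a) a := by
      have hs : ContDiff ℝ ∞ (fun a : ℝ => hh4 lam (Real.sin x) (Real.sin t) a) :=
        a1.comp (contDiff_const.prodMk (contDiff_const.prodMk contDiff_id))
      exact (hs.differentiable (by simp) a).hasDerivAt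
    have d2 := (hJp _ (hEI x t a ha)).comp_hasDerivAt a d1
    have d3 : deriv (fun a => Ψ a • J (hh4 lam (Real.sin x) (Real.sin t) a)) a =
        fderiv ℝ J (hh4 lam (Real.sin x) (Real.sin t) a)
          (deriv (hh4 lam (Real.sin x) (Real.sin t)) a) := by
      rw [e1.deriv_eq]
      exact d2.deriv
    show deriv (fun a => Ψ a • J (hh4 lam (Real.sin x) (Real.sin t) a)) a ≠ 0
    rw [d3]
    intro h
    refine a6 (Real.sin x) (Real.sin t) a (injective_fderiv (hLD _ (hEI x t a ha)) ?_)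
    rw [h, map_zero]
  · intro x t a ha p hp h
    have ha' : a ∈ Icc (1 / 5 : ℝ) (4 / 5) := ⟨ha.1.le, ha.2.le⟩
    have h' : J (hh4 lam (Real.sin x) (Real.sin t) a) = J p := by
      have h2 : Ψ a • J (hh4 lam (Real.sin x) (Real.sin t) a) = J p := h
      rwa [hΨI a ha', one_smul] at h2
    have hE' := hinj _ (hEI x t a ha') p (hΦs (Or.inl hp)) h'
    have hb := b1 (Real.sin x) ⟨Real.neg_one_le_sin x, Real.sin_le_one x⟩ (Real.sin t)
      ⟨Real.neg_one_le_sin t, Real.sin_le_one t⟩ a ha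
    rw [hE'] at hb
    rcases hp with hp | hp
    · exact Or.inl ⟨hp, hb.1 hp⟩
    · exact Or.inr ⟨hp, hb.2 hp⟩
  · have m35 : (3 / 5 : ℝ) ∈ Icc (1 / 5 : ℝ) (4 / 5) := by constructor <;> norm_num
    refine ⟨hh4 lam 0 0 (3 / 5), (b2 0 0).1, (b2 0 0).2.2.1, fun x => ?_⟩
    have hp : hh4 lam (Real.sin x) 0 (3 / 5) = hh4 lam 0 0 (3 / 5) :=
      a3 _ _ _ _ (Or.inr (by norm_num))
    have hpV : hh4 lam 0 0 (3 / 5) ∈ Φ.source := by
      have := hEI 0 0 (3 / 5) m35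
      rwa [Real.sin_zero] at this
    refine ⟨?_, fun ζ v h hv1 hv2 => ?_⟩
    · show J (hh4 lam 0 0 (3 / 5)) =
        Ψ (3 / 5) • J (hh4 lam (Real.sin x) (Real.sin 0) (3 / 5))
      rw [hΨI _ m35, one_smul, Real.sin_zero, hp]
    · have e1 : (fun z : ℝ × ℝ => Ψ z.2 • J (hh4 lam (Real.sin x) (Real.sin z.1) z.2)) =ᶠ[
          𝓝 ((0, 3 / 5) : ℝ × ℝ)] fun z => J (hh4 lam (Real.sin x) (Real.sin z.1) z.2) := by
        have hc : Tendsto (fun z : ℝ × ℝ => z.2) (𝓝 ((0, 3 / 5) : ℝ × ℝ)) (𝓝 (3 / 5)) :=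
          continuous_snd.continuousAt
        filter_upwards [hc.eventually (hΨe _ m35)] with z hz
        rw [hz, one_smul]
      have dS : HasFDerivAt (fun z : ℝ × ℝ => ((Real.sin z.1, z.2) : ℝ × ℝ))
          (ContinuousLinearMap.id ℝ (ℝ × ℝ)) (0, 3 / 5) := by
        have d1 : HasFDerivAt (fun z : ℝ × ℝ => Real.sin z.1)
            (ContinuousLinearMap.fst ℝ ℝ ℝ) ((0, 3 / 5) : ℝ × ℝ) := by
          have df : HasFDerivAt (fun z : ℝ × ℝ => z.1) (ContinuousLinearMap.fst ℝ ℝ ℝ)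
              ((0, 3 / 5) : ℝ × ℝ) := hasFDerivAt_fst
          have d0 := df.sin
          rw [Real.cos_zero, one_smul] at d0
          exact d0
        exact d1.prodMk hasFDerivAt_snd
      have hG : ContDiff ℝ ∞ (fun z : ℝ × ℝ => hh4 lam (Real.sin x) z.1 z.2) :=
        a1.comp (contDiff_const.prodMk (contDiff_fst.prodMk contDiff_snd))
      have dG : HasFDerivAt (fun z : ℝ × ℝ => hh4 lam (Real.sin x) z.1 z.2)
          (fderiv ℝ (fun z : ℝ × ℝ => hh4 lam (Real.sin x) z.1 z.2) (0, 3 / 5))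
          ((fun z : ℝ × ℝ => ((Real.sin z.1, z.2) : ℝ × ℝ)) (0, 3 / 5)) := by
        have : ((fun z : ℝ × ℝ => ((Real.sin z.1, z.2) : ℝ × ℝ)) (0, 3 / 5)) = (0, 3 / 5) := by
          simp
        rw [this]
        exact (hG.differentiable (by simp) _).hasFDerivAt
      have dGS := dG.comp ((0, 3 / 5) : ℝ × ℝ) dS
      have dJ : HasFDerivAt J (fderiv ℝ J (hh4 lam 0 0 (3 / 5)))
          (((fun z : ℝ × ℝ => hh4 lam (Real.sin x) z.1 z.2) ∘
            (fun z : ℝ × ℝ => ((Real.sin z.1, z.2) : ℝ × ℝ))) (0, 3 / 5)) := by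
        have : (((fun z : ℝ × ℝ => hh4 lam (Real.sin x) z.1 z.2) ∘
            (fun z : ℝ × ℝ => ((Real.sin z.1, z.2) : ℝ × ℝ))) (0, 3 / 5)) =
            hh4 lam 0 0 (3 / 5) := by
          simp only [Function.comp, Real.sin_zero]
          exact hp
        rw [this]
        exact hJp _ hpV
      have dA := (dJ.comp ((0, 3 / 5) : ℝ × ℝ) dGS).fderiv
      have h' : fderiv ℝ J (hh4 lam 0 0 (3 / 5))
          (fderiv ℝ (fun z : ℝ × ℝ => hh4 lam (Real.sin x) z.1 z.2) (0, 3 / 5) ζ) =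
          fderiv ℝ J (hh4 lam 0 0 (3 / 5)) v := by
        rw [← h]
        show _ = fderiv ℝ (fun z : ℝ × ℝ => Ψ z.2 • J (hh4 lam (Real.sin x) (Real.sin z.1) z.2))
          (0, 3 / 5) ζ
        rw [e1.fderiv_eq]
        exact (congrArg (fun L : ℝ × ℝ →L[ℝ] R4 => L ζ) dA).symm
      have hv := injective_fderiv (hLD _ hpV) h'
      have hb := b3 (Real.sin x) ζ
      rw [hv, hp] at hb
      exact hb hv1 hv2
  · intro t
    have m25 : (2 / 5 : ℝ) ∈ Icc (1 / 5 : ℝ) (4 / 5) := by constructor <;> norm_num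
    have hpV : hh4 lam 0 (Real.sin t) (2 / 5) ∈ Φ.source := by
      have := hEI 0 t (2 / 5) m25
      rwa [Real.sin_zero] at this
    refine ⟨hh4 lam 0 (Real.sin t) (2 / 5), (b2 0 (Real.sin t)).2.1, (b2 0 (Real.sin t)).2.2.2,
      ?_, fun ζ v h hv1 hv2 => ?_⟩
    · show J (hh4 lam 0 (Real.sin t) (2 / 5)) =
        Ψ (2 / 5) • J (hh4 lam (Real.sin 0) (Real.sin t) (2 / 5))
      rw [hΨI _ m25, one_smul, Real.sin_zero]
    · have e1 : (fun z : ℝ × ℝ => Ψ z.2 • J (hh4 lam (Real.sin z.1) (Real.sin t) z.2)) =ᶠ[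
          𝓝 ((0, 2 / 5) : ℝ × ℝ)] fun z => J (hh4 lam (Real.sin z.1) (Real.sin t) z.2) := by
        have hc : Tendsto (fun z : ℝ × ℝ => z.2) (𝓝 ((0, 2 / 5) : ℝ × ℝ)) (𝓝 (2 / 5)) :=
          continuous_snd.continuousAt
        filter_upwards [hc.eventually (hΨe _ m25)] with z hz
        rw [hz, one_smul]
      have dS : HasFDerivAt (fun z : ℝ × ℝ => ((Real.sin z.1, z.2) : ℝ × ℝ))
          (ContinuousLinearMap.id ℝ (ℝ × ℝ)) (0, 2 / 5) := by
        have d1 : HasFDerivAt (fun z : ℝ × ℝ => Real.sin z.1)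
            (ContinuousLinearMap.fst ℝ ℝ ℝ) ((0, 2 / 5) : ℝ × ℝ) := by
          have df : HasFDerivAt (fun z : ℝ × ℝ => z.1) (ContinuousLinearMap.fst ℝ ℝ ℝ)
              ((0, 2 / 5) : ℝ × ℝ) := hasFDerivAt_fst
          have d0 := df.sin
          rw [Real.cos_zero, one_smul] at d0
          exact d0
        exact d1.prodMk hasFDerivAt_snd
      have hG : ContDiff ℝ ∞ (fun z : ℝ × ℝ => hh4 lam z.1 (Real.sin t) z.2) :=
        a1.comp (contDiff_fst.prodMk (contDiff_const.prodMk contDiff_snd))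
      have dG : HasFDerivAt (fun z : ℝ × ℝ => hh4 lam z.1 (Real.sin t) z.2)
          (fderiv ℝ (fun z : ℝ × ℝ => hh4 lam z.1 (Real.sin t) z.2) (0, 2 / 5))
          ((fun z : ℝ × ℝ => ((Real.sin z.1, z.2) : ℝ × ℝ)) (0, 2 / 5)) := by
        have : ((fun z : ℝ × ℝ => ((Real.sin z.1, z.2) : ℝ × ℝ)) (0, 2 / 5)) = (0, 2 / 5) := by
          simp
        rw [this]
        exact (hG.differentiable (by simp) _).hasFDerivAt
      have dGS := dG.comp ((0, 2 / 5) : ℝ × ℝ) dS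
      have dJ : HasFDerivAt J (fderiv ℝ J (hh4 lam 0 (Real.sin t) (2 / 5)))
          (((fun z : ℝ × ℝ => hh4 lam z.1 (Real.sin t) z.2) ∘
            (fun z : ℝ × ℝ => ((Real.sin z.1, z.2) : ℝ × ℝ))) (0, 2 / 5)) := by
        have : (((fun z : ℝ × ℝ => hh4 lam z.1 (Real.sin t) z.2) ∘
            (fun z : ℝ × ℝ => ((Real.sin z.1, z.2) : ℝ × ℝ))) (0, 2 / 5)) =
            hh4 lam 0 (Real.sin t) (2 / 5) := by
          simp only [Function.comp, Real.sin_zero]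
        rw [this]
        exact hJp _ hpV
      have dA := (dJ.comp ((0, 2 / 5) : ℝ × ℝ) dGS).fderiv
      have h' : fderiv ℝ J (hh4 lam 0 (Real.sin t) (2 / 5))
          (fderiv ℝ (fun z : ℝ × ℝ => hh4 lam z.1 (Real.sin t) z.2) (0, 2 / 5) ζ) =
          fderiv ℝ J (hh4 lam 0 (Real.sin t) (2 / 5)) v := by
        rw [← h]
        show _ = fderiv ℝ (fun z : ℝ × ℝ => Ψ z.2 • J (hh4 lam (Real.sin z.1) (Real.sin t) z.2))
          (0, 2 / 5) ζ
        rw [e1.fderiv_eq]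
        exact (congrArg (fun L : ℝ × ℝ →L[ℝ] R4 => L ζ) dA).symm
      have hv := injective_fderiv (hLD _ hpV) h'
      have hb := b4 (Real.sin t) ζ
      rw [hv] at hb
      exact hb hv1 hv2

end Pool.Agent.Helper34.BX
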