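import Pool.Agent.Helper34.BX.St
import Pool.Agent.Helper70.BI.M_Final2

/-!
# Project BX: the main theorem in the 4-sphere, from `StX4` and `StR3X`
-/

set_option autoImplicit false

open scoped Manifold ContDiff Topology ComplexConjugate
open Set Filter Pool.Agent.Helper65.Barb Pool.Agent.Helper18.BI

namespace Pool.Agent.Helper34.BX

open Pool.Agent.Helper34.BI
open Pool.Agent.Helper70.BI
open Pool.Agent.Helper27.BI (swp)

open Pool.Agent.Helper70.BI.Fin2 in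
theorem m_XS (hX4 : StX4) (hR3X : StR3X) (hW4 : StW4) (hMain : StMain2)
    (hR3 : Pool.Agent.Helper18.BI.StR3) (hA1 : StA1) (hT2 : StT2) (hT4 : StT4) (hX1 : StX1)
    (hX2 : StX2) (hX3 : StX3) (hCI : StCI) {W : R4 → R4} (hW : IsW W) : StXS := by
  obtain ⟨W₄, c₀, F₀, α₀, β₀, k1, k2, k3, k4, k5, k6, k7⟩ := hW4 W hW
  obtain ⟨-, tii, -, -, tv, -, -⟩ := hT2 _ _ (𝓡 4) S4
  obtain ⟨-, cs, cself, ct, cc, -, -, cconj, ciso, -⟩ := hCI _ _ (𝓡 4) S4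
  have hE₀ : EmbOn (𝓡 4) F₀ SP := ⟨fun p hp => k6.loc p (SP_sub_FB hp), k6.inj⟩
  obtain ⟨B₀, hB₀, hBF, hiso⟩ := hR3 _ _ (𝓡 4) S4 F₀ W₄ hE₀ k7
  obtain ⟨δ₀, hδ, hδF⟩ := hA1 R4 _ _ (𝓡 4) S4 F₀ (flat 0 ∪ flat 1)
    ((isCompact_flat 0).union (isCompact_flat 1))
    (fun p hp => k6.loc p (Or.inl hp)) k6.balls
  have hWi : implantation B₀ barMap = push B₀ barMap :=
    implantation_eq_push B₀ hB₀ isBarbellMap_barMap
  rw [← hWi] at hiso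
  refine ⟨implantation B₀ barMap, B₀, δ₀, ⟨hB₀, hδ, fun p hp => ?_, rfl⟩, ?_, ?_, ?_, ?_⟩
  · have hp' : p ∈ flat 0 ∪ flat 1 := hp.imp (fun h => sph_sub_flat 0 h) fun h => sph_sub_flat 1 h
    rw [hδF p (hδ hp'), hBF p hp]
  · -- order two
    have h1 := cc _ _ _ _ hiso hiso
    exact ciso _ _ (ct _ _ _ (cs _ _ h1) k3)
  · -- centrality
    intro Ψ Ψ' hΨ hΨ' i1 i2
    have h1 := cconj _ _ Ψ Ψ' hiso hΨ hΨ' i1 i2
    exact ciso _ _ (ct _ _ _ (cs _ _ h1) (ct _ _ _ (k4 Ψ Ψ' hΨ hΨ' i1 i2) hiso))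
  · -- bar independence
    intro B B' β β' U hB hB' hβ hβ' hU hsU heq
    obtain ⟨hE, hT⟩ := hT4 B β hB hβ
    obtain ⟨hE', hT'⟩ := hT4 B' β' hB' hβ'
    obtain ⟨c, hc, hBc, hBc'⟩ := hX2 B B' (SP_sub_NB.trans hB) (SP_sub_NB.trans hB')
    obtain ⟨hF, U1, hU1o, hU1s, hU1⟩ := hX3 _ _ (𝓡 4) S4 c B SP hc hE hBc
    obtain ⟨hF', U2, hU2o, hU2s, hU2⟩ := hX3 _ _ (𝓡 4) S4 c B' SP hc hE' hBc'
    obtain ⟨z1, -, z3, z4, -⟩ := hX1 _ _ (𝓡 4) S4 c hc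
    obtain ⟨ε₁, hε₁, hφ⟩ := (hT2 _ _ 𝓘(ℝ, R4) R4).1 _ hF
    obtain ⟨ε₂, hε₂, hφ'⟩ := (hT2 _ _ 𝓘(ℝ, R4) R4).1 _ hF'
    have hφ := hφ (ε₁ / 2) ⟨by positivity, by linarith⟩
    have hφ' := hφ' (ε₂ / 2) ⟨by positivity, by linarith⟩
    generalize imp ((fun p => Function.invFun c (B p)) ∘ sq (ε₁ / 2)) bsupp barMap = φ at hφ
    generalize imp ((fun p => Function.invFun c (B' p)) ∘ sq (ε₂ / 2)) bsupp barMap = φ' at hφ'
    have hor := hMain W _ _ φ φ' U hW hF hF' hU hsU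
      (by
        intro p hp
        have : B p = B' p := heq hp
        simp only [this]) hφ hφ'
    have q1 : CIsot (𝓡 4) (imp c univ φ) (implantation B β) :=
      tii B _ _ (tv _ _ U1 _ hU1o hU1s (fun p hp => hU1 p hp) (z3 _ _ hφ)) hT
    have q2 : CIsot (𝓡 4) (imp c univ φ') (implantation B' β') :=
      tii B' _ _ (tv _ _ U2 _ hU2o hU2s (fun p hp => hU2 p hp) (z3 _ _ hφ')) hT'
    rcases hor with h | h
    · exact Or.inl (ciso _ _ (ct _ _ _ (cs _ _ q2) (ct _ _ _ (z1 _ _ h) q1)))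
    · right
      have h1 := z1 _ _ h
      have e : imp c univ (fun x => W (φ x)) = fun y => imp c univ W (imp c univ φ y) :=
        funext (z4 W φ)
      rw [e] at h1
      have h2 : CIsot (𝓡 4) (imp c univ W) (implantation B₀ barMap) := ct _ _ _ (k2 c hc) hiso
      have h3 := cc _ _ _ _ h2 q1
      exact ciso _ _ (ct _ _ _ (cs _ _ q2) (ct _ _ _ h1 h3))
  · -- both classes occur
    intro B β hB hβ
    obtain ⟨hE, hT⟩ := hT4 B β hB hβ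
    obtain ⟨c, hc, hBc, -⟩ := hX2 B B (SP_sub_NB.trans hB) (SP_sub_NB.trans hB)
    obtain ⟨hF, U1, hU1o, hU1s, hU1⟩ := hX3 _ _ (𝓡 4) S4 c B SP hc hE hBc
    obtain ⟨z1, z2, z3, z4, -⟩ := hX1 _ _ (𝓡 4) S4 c hc
    obtain ⟨ε₁, hε₁, hφ⟩ := (hT2 _ _ 𝓘(ℝ, R4) R4).1 _ hF
    have hφ := hφ (ε₁ / 2) ⟨by positivity, by linarith⟩
    generalize imp ((fun p => Function.invFun c (B p)) ∘ sq (ε₁ / 2)) bsupp barMap = φ at hφ
    obtain ⟨F', φ', hF', ⟨U2, hU2o, hU2s, hU2⟩, hφ', hiW⟩ := hX4 W _ φ hW hF hφ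
    have hG := z2 F' SP hF'
    have hGT := z3 F' φ' hφ'
    obtain ⟨B', hB', ⟨U3, hU3o, hU3s, hU3⟩, -⟩ := hR3X (imp c univ φ') (c ∘ F') hG hGT
    have hsph : sph 0 ∪ sph 1 ⊆ SP := fun p hp => Or.inl hp
    refine ⟨B', U1 ∩ U2 ∩ U3, hB', (hU1o.inter hU2o).inter hU3o, ?_, ?_, ?_⟩
    · intro p hp
      exact ⟨⟨hU1s (hsph hp), hU2s hp⟩, hU3s (hsph hp)⟩
    · rintro p ⟨⟨h1, h2⟩, h3⟩
      have e1 : B' p = c (F' p) := hU3 h3
      have e2 : Function.invFun c (B p) = F' p := hU2 h2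
      rw [e1, ← e2]
      exact (hU1 p h1).symm
    · intro β' hβ'
      obtain ⟨-, hT'⟩ := hT4 B' β' hB' hβ'
      have q1 : CIsot (𝓡 4) (imp c univ φ) (implantation B β) :=
        tii B _ _ (tv _ _ U1 _ hU1o hU1s (fun p hp => hU1 p hp) (z3 _ _ hφ)) hT
      have q2 : CIsot (𝓡 4) (implantation B' β') (imp c univ φ') :=
        tii (c ∘ F') _ _ (tv _ _ U3 _ hU3o hU3s hU3 hT') hGT
      have h1 := z1 _ _ hiW
      have e : imp c univ (fun x => W (φ x)) = fun y => imp c univ W (imp c univ φ y) :=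
        funext (z4 W φ)
      rw [e] at h1
      have h2 : CIsot (𝓡 4) (imp c univ W) (implantation B₀ barMap) := ct _ _ _ (k2 c hc) hiso
      have h3 := cc _ _ _ _ h2 q1
      exact ciso _ _ (ct _ _ _ q2 (ct _ _ _ h1 h3))

end Pool.Agent.Helper34.BX
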