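import Pool.Agent.Helper70.BI.AsmE
import Pool.Agent.Helper34.BX.M_AR1a
import Pool.Agent.Helper34.BX.M_AR1b
import Pool.Agent.Helper34.BX.M_AR2
import Pool.Agent.Helper34.BX.M_XD
import Pool.Agent.Helper34.BX.M_PCB
import Pool.Agent.Helper34.BX.M_KF
import Pool.Agent.Helper34.BX.M_D2aPU
import Pool.Agent.Helper34.BX.M_CRP2
import Pool.Agent.Helper34.BX.M_OWL
import Pool.Agent.Helper34.BX.M_THX
import Pool.Agent.Helper34.BX.M_LF
import Pool.Agent.Helper34.BX.M_X4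
import Pool.Agent.Helper34.BX.M_RHO1
import Pool.Agent.Helper34.BX.M_RHO2
import Pool.Agent.Helper34.BX.M_R3X
import Pool.Agent.Helper34.BX.M_XS

/-!
# Project BX: assembly
-/

set_option autoImplicit false

open Pool.Agent.Helper18.BI Pool.Agent.Helper65.Barb
open Pool.Agent.Helper70.BI
open Pool.Agent.Helper34.BI (hRE hD1aP hD1b hD2b hCRP)
open Pool.Agent.Helper27.BI (hADD2 hR2sw)

namespace Pool.Agent.Helper34.BX

theorem hXD : StXD := m_XD m_AR1a m_AR1b m_AR2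
theorem hD2aPU : StD2aPU := m_D2aPU hRE hADD2 hImp hCI hS3 hS4 hT2 hT3 hT5 hT6
theorem hCRP2 : StCRP2 := m_CRP2 hRE hT2 hCI hD1aP hD1b hD2aPU hD2b
theorem hOWL : StOWL := m_OWL hMWL hT2 hCI hR2sw
theorem hTHX : StTHX := m_THX hCRP hOWL
theorem hLF : StLF := m_LF m_PCB hTHX hOWL hFr hFam
theorem hX4 : StX4 := m_X4 hXD m_KF hCRP2 hLF hMain2 hT2 hCI
theorem hR3X : StR3X := m_R3X hA1 hT2 hT3 hImp hS4 m_RHO1 m_RHO2

theorem hXS : StXS := by
  obtain ⟨W, hWW⟩ := exists_isW'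
  exact m_XS hX4 hR3X hW4 hMain2 hR3real hA1 hT2 hT4 hX1 hX2 hX3 hCI hWW

end Pool.Agent.Helper34.BX
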