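import Mathlib

/-!
# Nonnegativity of integer polynomials on boxes by Bernstein subdivision

`ev p x = ∑ pᵢ xⁱ` for a list of integers, `ev2 p x y = ∑ᵢ (ev pᵢ x) yⁱ` for a list of lists
(the inner lists are polynomials in `x`).  `chk n a b A c d C p = true` (by `decide +kernel`)
implies `0 ≤ ev2 p x y` for `a/A ≤ x < b/A`, `c/C ≤ y < d/C` (theorem `box_nonneg`).
-/

namespace Pool.Agent.Helper34.BX

/-- value of a polynomial -/
noncomputable def ev (p : List ℤ) (x : ℝ) : ℝ := p.foldr (fun a t => (a : ℝ) + x * t) 0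

/-- value of a polynomial in two variables -/
noncomputable def ev2 (p : List (List ℤ)) (x y : ℝ) : ℝ :=
  p.foldr (fun a t => ev a x + y * t) 0

@[simp] lemma ev_nil (x : ℝ) : ev [] x = 0 := rfl
@[simp] lemma ev_cons (a : ℤ) (p : List ℤ) (x : ℝ) : ev (a :: p) x = a + x * ev p x := rfl
@[simp] lemma ev2_nil (x y : ℝ) : ev2 [] x y = 0 := rfl
@[simp] lemma ev2_cons (a : List ℤ) (p : List (List ℤ)) (x y : ℝ) :
    ev2 (a :: p) x y = ev a x + y * ev2 p x y := rfl

/-- sum -/
def add : List ℤ → List ℤ → List ℤ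
  | [], q => q
  | a :: p, [] => a :: p
  | a :: p, b :: q => (a + b) :: add p q

lemma ev_add : ∀ (p q : List ℤ) (x : ℝ), ev (add p q) x = ev p x + ev q x
  | [], q, x => by simp [add]
  | a :: p, [], x => by simp [add]
  | a :: p, b :: q, x => by
    simp only [add, ev_cons, ev_add p q x, Int.cast_add]
    ring

/-- multiple -/
def smul (c : ℤ) : List ℤ → List ℤ
  | [] => []
  | a :: p => (c * a) :: smul c p

lemma ev_smul (c : ℤ) : ∀ (p : List ℤ) (x : ℝ), ev (smul c p) x = c * ev p x
  | [], x => by simp [smul]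
  | a :: p, x => by
    simp only [smul, ev_cons, ev_smul c p x, Int.cast_mul]
    ring

/-- product with `A + B x` -/
def lin (A B : ℤ) (p : List ℤ) : List ℤ := add (smul A p) (0 :: smul B p)

lemma ev_lin (A B : ℤ) (p : List ℤ) (x : ℝ) : ev (lin A B p) x = (A + B * x) * ev p x := by
  simp only [lin, ev_add, ev_smul, ev_cons, Int.cast_zero]
  ring

/-- substitution `x = (A + B s)/(C (1 + s))`, first component: the polynomial times a power
of the denominator, second component: the power of the denominator -/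
def sub1 (A B C : ℤ) : List ℤ → List ℤ × List ℤ
  | [] => ([], [1])
  | a :: p => match sub1 A B C p with
    | (v, d) => (add (smul a d) (lin A B v), lin C C d)

lemma ev_sub1 (A B C : ℤ) (s x : ℝ) (hx : (C + C * s) * x = A + B * s) (hd : 0 < C + C * s) :
    ∀ p : List ℤ, 0 < ev (sub1 A B C p).2 s ∧
      ev (sub1 A B C p).1 s * (C + C * s) = ev (sub1 A B C p).2 s * ev p x
  | [] => by simp [sub1]
  | a :: p => by
    obtain ⟨h1, h2⟩ := ev_sub1 A B C s x hx hd p
    simp only [sub1, ev_add, ev_smul, ev_lin, ev_cons]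
    refine ⟨mul_pos hd h1, ?_⟩
    linear_combination (A + B * s) * h2 - ev (sub1 A B C p).2 s * ev p x * hx

lemma ev_nonneg {s : ℝ} (hs : 0 ≤ s) : ∀ p : List ℤ, (∀ a ∈ p, 0 ≤ a) → 0 ≤ ev p s
  | [], _ => by simp
  | a :: p, h => by
    have h1 : (0 : ℝ) ≤ a := Int.cast_nonneg (h a (by simp))
    have h2 := ev_nonneg hs p (fun b hb => h b (by simp [hb]))
    rw [ev_cons]
    positivity

/-- all coefficients are nonnegative -/
def nn : List ℤ → Bool
  | [] => true
  | a :: p => (0 ≤ a) && nn p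

lemma nn_iff : ∀ p : List ℤ, nn p = true → ∀ a ∈ p, 0 ≤ a
  | [], _, a, ha => by simp at ha
  | b :: p, h, a, ha => by
    simp only [nn, Bool.and_eq_true, decide_eq_true_eq] at h
    rcases List.mem_cons.1 ha with rfl | h'
    · exact h.1
    · exact nn_iff p h.2 a h'

/-- the parameter of a point of the interval -/
lemma param {A B C : ℤ} (hC : 0 < C) {x : ℝ} (h1 : (A : ℝ) ≤ C * x) (h2 : C * x < (B : ℝ)) :
    ∃ s : ℝ, 0 ≤ s ∧ (C + C * s) * x = A + B * s ∧ (0 : ℝ) < C + C * s := by
  have hC' : (0 : ℝ) < C := Int.cast_pos.2 hC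
  have hd : (0 : ℝ) < B - C * x := by linarith
  refine ⟨(C * x - A) / (B - C * x), div_nonneg (by linarith) hd.le, ?_, ?_⟩
  · field_simp
    ring
  · have : 0 ≤ (C * x - A) / (B - C * x) := div_nonneg (by linarith) hd.le
    positivity

/-- one variable, one interval -/
def chk1 (A B C : ℤ) (p : List ℤ) : Bool := nn (sub1 A B C p).1

lemma chk1_nonneg {A B C : ℤ} (hC : 0 < C) {p : List ℤ} (h : chk1 A B C p = true) {x : ℝ}
    (h1 : (A : ℝ) ≤ C * x) (h2 : C * x < (B : ℝ)) : 0 ≤ ev p x := by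
  obtain ⟨s, hs, hx, hd⟩ := param hC h1 h2
  obtain ⟨e1, e2⟩ := ev_sub1 A B C s x hx hd p
  have h3 := ev_nonneg hs _ (nn_iff _ h)
  have h4 : 0 ≤ ev (sub1 A B C p).2 s * ev p x := by
    rw [← e2]
    positivity
  exact nonneg_of_mul_nonneg_right h4 e1

/-- sum, outer -/
def add2 : List (List ℤ) → List (List ℤ) → List (List ℤ)
  | [], q => q
  | a :: p, [] => a :: p
  | a :: p, b :: q => add a b :: add2 p q

lemma ev_add2 : ∀ (p q : List (List ℤ)) (x y : ℝ), ev2 (add2 p q) x y = ev2 p x y + ev2 q x y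
  | [], q, x, y => by simp [add2]
  | a :: p, [], x, y => by simp [add2]
  | a :: p, b :: q, x, y => by
    simp only [add2, ev2_cons, ev_add2 p q x y, ev_add]
    ring

/-- multiple, outer -/
def smul2 (c : ℤ) : List (List ℤ) → List (List ℤ)
  | [] => []
  | a :: p => smul c a :: smul2 c p

lemma ev_smul2 (c : ℤ) : ∀ (p : List (List ℤ)) (x y : ℝ), ev2 (smul2 c p) x y = c * ev2 p x y
  | [], x, y => by simp [smul2]
  | a :: p, x, y => by
    simp only [smul2, ev2_cons, ev_smul2 c p x y, ev_smul]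
    ring

/-- an integer polynomial in `y` times a polynomial in `x` -/
def out (d : List ℤ) (a : List ℤ) : List (List ℤ) := d.map (fun c => smul c a)

lemma ev_out (a : List ℤ) (x y : ℝ) : ∀ d : List ℤ, ev2 (out d a) x y = ev a x * ev d y
  | [] => by simp [out]
  | c :: d => by
    have := ev_out a x y d
    simp only [out] at this
    simp only [out, List.map_cons, ev2_cons, ev_smul, this, ev_cons]
    ring

/-- product with `A + B y` -/
def lin2 (A B : ℤ) (p : List (List ℤ)) : List (List ℤ) := add2 (smul2 A p) ([] :: smul2 B p)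

lemma ev_lin2 (A B : ℤ) (p : List (List ℤ)) (x y : ℝ) :
    ev2 (lin2 A B p) x y = (A + B * y) * ev2 p x y := by
  simp only [lin2, ev_add2, ev_smul2, ev2_cons, ev_nil]
  ring

/-- substitution in the outer variable -/
def sub2 (A B C : ℤ) : List (List ℤ) → List (List ℤ) × List ℤ
  | [] => ([], [1])
  | a :: p => match sub2 A B C p with
    | (v, d) => (add2 (out d a) (lin2 A B v), lin C C d)

lemma ev_sub2 (A B C : ℤ) (s x y : ℝ) (hy : (C + C * s) * y = A + B * s)
    (hd : 0 < C + C * s) :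
    ∀ p : List (List ℤ), 0 < ev (sub2 A B C p).2 s ∧
      ev2 (sub2 A B C p).1 x s * (C + C * s) = ev (sub2 A B C p).2 s * ev2 p x y
  | [] => by simp [sub2]
  | a :: p => by
    obtain ⟨h1, h2⟩ := ev_sub2 A B C s x y hy hd p
    simp only [sub2, ev_add2, ev_out, ev_lin2, ev_lin, ev2_cons]
    refine ⟨mul_pos hd h1, ?_⟩
    linear_combination (A + B * s) * h2 - ev (sub2 A B C p).2 s * ev2 p x y * hy

lemma ev2_nonneg {x s : ℝ} (hs : 0 ≤ s) : ∀ p : List (List ℤ), (∀ a ∈ p, 0 ≤ ev a x) →
    0 ≤ ev2 p x s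
  | [], _ => by simp
  | a :: p, h => by
    have h1 : 0 ≤ ev a x := h a (by simp)
    have h2 := ev2_nonneg hs p (fun b hb => h b (by simp [hb]))
    rw [ev2_cons]
    positivity

/-- all members of a list pass the test in one variable -/
def all1 (A B C : ℤ) : List (List ℤ) → Bool
  | [] => true
  | a :: p => chk1 A B C a && all1 A B C p

lemma all1_iff (A B C : ℤ) : ∀ p : List (List ℤ), all1 A B C p = true →
    ∀ a ∈ p, chk1 A B C a = true
  | [], _, a, ha => by simp at ha
  | b :: p, h, a, ha => by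
    simp only [all1, Bool.and_eq_true] at h
    rcases List.mem_cons.1 ha with rfl | h'
    · exact h.1
    · exact all1_iff A B C p h.2 a h'

/-- two variables, one box -/
def chk2 (a b A c d C : ℤ) (p : List (List ℤ)) : Bool := all1 a b A (sub2 c d C p).1

lemma chk2_nonneg {a b A c d C : ℤ} (hA : 0 < A) (hC : 0 < C) {p : List (List ℤ)}
    (h : chk2 a b A c d C p = true) {x y : ℝ} (h1 : (a : ℝ) ≤ A * x) (h2 : A * x < (b : ℝ))
    (h3 : (c : ℝ) ≤ C * y) (h4 : C * y < (d : ℝ)) : 0 ≤ ev2 p x y := by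
  obtain ⟨s, hs, hx, hd⟩ := param hC h3 h4
  obtain ⟨e1, e2⟩ := ev_sub2 c d C s x y hx hd p
  have h5 : 0 ≤ ev2 (sub2 c d C p).1 x s :=
    ev2_nonneg hs _ fun q hq => chk1_nonneg hA (all1_iff a b A _ h q hq) h1 h2
  have h6 : 0 ≤ ev (sub2 c d C p).2 s * ev2 p x y := by
    rw [← e2]
    positivity
  exact nonneg_of_mul_nonneg_right h6 e1

/-- subdivision: `sx = true` means that the next cut is in the variable `x` -/
def chk : ℕ → Bool → ℤ → ℤ → ℤ → ℤ → ℤ → ℤ → List (List ℤ) → Bool
  | 0, _, a, b, A, c, d, C, p => chk2 a b A c d C p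
  | n + 1, true, a, b, A, c, d, C, p => chk2 a b A c d C p ||
      (chk n false (2 * a) (a + b) (2 * A) c d C p && chk n false (a + b) (2 * b) (2 * A) c d C p)
  | n + 1, false, a, b, A, c, d, C, p => chk2 a b A c d C p ||
      (chk n true a b A (2 * c) (c + d) (2 * C) p && chk n true a b A (c + d) (2 * d) (2 * C) p)

/-- The test implies nonnegativity on the (half open) box `[a/A, b/A) × [c/C, d/C)`. -/
theorem box_nonneg : ∀ (n : ℕ) (sx : Bool) {a b A c d C : ℤ}, 0 < A → 0 < C →
    ∀ {p : List (List ℤ)}, chk n sx a b A c d C p = true → ∀ {x y : ℝ}, (a : ℝ) ≤ A * x →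
    A * x < (b : ℝ) → (c : ℝ) ≤ C * y → C * y < (d : ℝ) → 0 ≤ ev2 p x y
  | 0, _, a, b, A, c, d, C, hA, hC, p, h, x, y, h1, h2, h3, h4 => by
    simp only [chk] at h
    exact chk2_nonneg hA hC h h1 h2 h3 h4
  | n + 1, true, a, b, A, c, d, C, hA, hC, p, h, x, y, h1, h2, h3, h4 => by
    simp only [chk, Bool.or_eq_true, Bool.and_eq_true] at h
    rcases h with h | ⟨h5, h6⟩
    · exact chk2_nonneg hA hC h h1 h2 h3 h4
    · rcases lt_or_ge ((2 * A : ℤ) * x) ((a + b : ℤ) : ℝ) with h7 | h7
      · refine box_nonneg n false (by positivity) hC h5 ?_ h7 h3 h4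
        push_cast
        linarith
      · refine box_nonneg n false (by positivity) hC h6 h7 ?_ h3 h4
        push_cast
        linarith
  | n + 1, false, a, b, A, c, d, C, hA, hC, p, h, x, y, h1, h2, h3, h4 => by
    simp only [chk, Bool.or_eq_true, Bool.and_eq_true] at h
    rcases h with h | ⟨h5, h6⟩
    · exact chk2_nonneg hA hC h h1 h2 h3 h4
    · rcases lt_or_ge ((2 * C : ℤ) * y) ((c + d : ℤ) : ℝ) with h7 | h7
      · refine box_nonneg n true hA (by positivity) h5 h1 h2 ?_ h7
        push_cast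
        linarith
      · refine box_nonneg n true hA (by positivity) h6 h1 h2 h7 ?_
        push_cast
        linarith

/-- one variable, with subdivision -/
def chkI : ℕ → ℤ → ℤ → ℤ → List ℤ → Bool
  | 0, a, b, A, p => chk1 a b A p
  | n + 1, a, b, A, p => chk1 a b A p ||
      (chkI n (2 * a) (a + b) (2 * A) p && chkI n (a + b) (2 * b) (2 * A) p)

/-- The test implies nonnegativity on `[a/A, b/A)`. -/
theorem int_nonneg : ∀ (n : ℕ) {a b A : ℤ}, 0 < A →
    ∀ {p : List ℤ}, chkI n a b A p = true → ∀ {x : ℝ}, (a : ℝ) ≤ A * x →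
    A * x < (b : ℝ) → 0 ≤ ev p x
  | 0, a, b, A, hA, p, h, x, h1, h2 => by
    simp only [chkI] at h
    exact chk1_nonneg hA h h1 h2
  | n + 1, a, b, A, hA, p, h, x, h1, h2 => by
    simp only [chkI, Bool.or_eq_true, Bool.and_eq_true] at h
    rcases h with h | ⟨h5, h6⟩
    · exact chk1_nonneg hA h h1 h2
    · rcases lt_or_ge ((2 * A : ℤ) * x) ((a + b : ℤ) : ℝ) with h7 | h7
      · refine int_nonneg n (by positivity) h5 ?_ h7
        push_cast
        linarith
      · refine int_nonneg n (by positivity) h6 h7 ?_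
        push_cast
        linarith

end Pool.Agent.Helper34.BX
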