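import Pool.Agent.Helper34.BX.St

/-!
# Project BX, module X4: the main theorem for `R4` (assembly)
-/

set_option autoImplicit false

open scoped Manifold ContDiff Topology ComplexConjugate
open Set Filter Pool.Agent.Helper65.Barb Pool.Agent.Helper18.BI

namespace Pool.Agent.Helper34.BX

open Pool.Agent.Helper34.BI
open Pool.Agent.Helper70.BI

private theorem sph0_X4 {p : R4} (h : p ∈ sph 0) : p.2.1 ≤ 1 / 5 := by
  have h1 : rsq 0 p = 1 / 25 := h.2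
  simp only [rsq, nsq] at h1
  norm_num at h1
  nlinarith [sq_nonneg p.2.2.re, sq_nonneg p.2.2.im]

private theorem sph1_X4 {p : R4} (h : p ∈ sph 1) : 4 / 5 ≤ p.2.1 := by
  have h1 : rsq 1 p = 1 / 25 := h.2
  simp only [rsq, nsq] at h1
  norm_num at h1
  nlinarith [sq_nonneg p.2.2.re, sq_nonneg p.2.2.im]

private theorem sin_X4 {t : ℝ} (h0 : t ≠ 0) (h1 : -1 ≤ t) (h2 : t ≤ 1) : Real.sin t ≠ 0 := by
  rcases lt_or_gt_of_ne h0 with h | h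
  · exact (Real.sin_neg_of_neg_of_neg_pi_lt h (by linarith [Real.pi_gt_three])).ne
  · exact (Real.sin_pos_of_pos_of_lt_pi h (by linarith [Real.pi_gt_three])).ne'

/-- **X4.** -/
theorem m_X4 (hXD : StXD) (hKF : StKF) (hCRP2 : StCRP2) (hLF : StLF) (hM2 : StMain2)
    (hT2 : StT2) (hCI : StCI) : StX4 := by
  intro W F φ hW hF hφ
  obtain ⟨ti, -, -, -, -, -, tvii⟩ := hT2 R4 R4 I4 R4
  obtain ⟨-, cs, -, ct, cc, -, cex, -, -, -⟩ := hCI R4 R4 I4 R4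
  obtain ⟨F₀, α₀, β₀, -, hF₀⟩ := hW.rep
  have hWW : CIsot I4 W W := tvii F₀ W hF₀
  have hφφ : CIsot I4 φ φ := tvii F φ hφ
  obtain ⟨c, H, hX⟩ := hXD F hF
  obtain ⟨-, kf2, ⟨p₀, kf3⟩, kf4, kf5, kf6⟩ := hKF F c H hX
  have s1 : Real.sin 1 ≠ 0 := sin_X4 (by norm_num) (by norm_num) le_rfl
  have s2 : Real.sin (-1) ≠ 0 := sin_X4 (by norm_num) le_rfl (by norm_num)
  -- the compact set of the crossing points with the second cuff
  have hcont : Continuous (fun z : ℝ × ℝ => H z.1 0 z.2) :=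
    hX.smooth.continuous.comp (by fun_prop : Continuous (fun z : ℝ × ℝ => (z.1, (0 : ℝ), z.2)))
  have hC : IsCompact ((fun z : ℝ × ℝ => H z.1 0 z.2) ''
      (Icc (-1 : ℝ) 1 ×ˢ Icc (7 / 20 : ℝ) (9 / 20))) :=
    (isCompact_Icc.prod isCompact_Icc).image hcont
  have hdis : Disjoint ((fun z : ℝ × ℝ => H z.1 0 z.2) ''
      (Icc (-1 : ℝ) 1 ×ˢ Icc (7 / 20 : ℝ) (9 / 20)))
      ((fun p => KK4 F c H (-1) (0, p)) '' sph 0) := by
    rw [Set.disjoint_left]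
    rintro _ ⟨⟨x, a⟩, ⟨-, ha⟩, rfl⟩ ⟨p, hp, hpe⟩
    have hpl := sph0_X4 hp
    have e1 : KK4 F c H (-1) (0, p) = F p := kf5 (-1) 0 p (Or.inl (by linarith))
    have e2 : H x 0 a = F p := by rw [← e1]; exact hpe.symm
    have ha1 : (7 / 20 : ℝ) ≤ a := ha.1
    have ha2 : a ≤ (9 / 20 : ℝ) := ha.2
    rcases hX.hit x 0 a ⟨by linarith, by linarith⟩ p (Or.inl hp) e2 with h | h
    · linarith [h.2.1]
    · linarith [sph1_X4 h.1]
  obtain ⟨t₁, ht₁, t₂, ht₂, t', t'', hor, O, O', α, e, hα, he, hBr, hBr', hcO, hcO', hrO, hrO',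
    hnear, hdC, hcl, hcl'⟩ := hCRP2 (KK4 F c H (-1)) (KK4 F c H 1) 0 (3 / 5) p₀ (kf3 (-1) s2)
      (kf3 1 s1) (by norm_num) (fun t p h => kf4 1 (-1) t p h) _ hC hdis (1 / 20) (by norm_num)
  have hα' := abs_lt.1 hα
  -- the times
  have htt : (t' ≠ 0 ∧ -1 ≤ t' ∧ t' ≤ 1) ∧ (t'' ≠ 0 ∧ -1 ≤ t'' ∧ t'' ≤ 1) := by
    have a1 := ht₁.1; have a2 := ht₁.2; have a3 := ht₂.1; have a4 := ht₂.2
    rcases hor with ⟨h1, h2⟩ | ⟨h1, h2⟩ <;> subst h1 <;> subst h2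
    · exact ⟨⟨a2.ne, by linarith, by linarith⟩, ⟨a3.ne', by linarith, by linarith⟩⟩
    · exact ⟨⟨a3.ne', by linarith, by linarith⟩, ⟨a2.ne, by linarith, by linarith⟩⟩
  have st' : Real.sin t' ≠ 0 := sin_X4 htt.1.1 htt.1.2.1 htt.1.2.2
  have st'' : Real.sin t'' ≠ 0 := sin_X4 htt.2.1 htt.2.2.1 htt.2.2.2
  -- the two obstruction germs
  have hOW : OW W O O' := by
    refine hLF W F c H O O' t' α e hW hX he (by linarith) (by linarith) hBr hBr' ?_ ?_ ?_ ?_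
      hnear ?_
    · intro a ha; rw [hcO a ha]; exact kf6 (-1) t' a ha
    · intro a ha; rw [hcO' a ha]; exact kf6 1 t' a ha
    · intro p hp; rw [hrO p (by linarith)]; exact kf5 (-1) t' p (Or.inr hp)
    · intro p hp; rw [hrO' p (by linarith)]; exact kf5 1 t' p (Or.inr hp)
    · intro x hx a ha hmem
      have e1 : H x t' a = H x 0 a := hX.indt x t' 0 a (Or.inl (by linarith [ha.2]))
      exact Set.disjoint_left.1 hdC ⟨(x, a), ⟨hx, ha⟩, rfl⟩ (by rw [e1] at hmem; exact hmem)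
  -- representatives
  have hrep : ∀ G : R4 → R4, EmbOn I4 G SP → ∃ ψ, Thin I4 G ψ := by
    intro G hG
    obtain ⟨ε₀, h0, h⟩ := ti G hG
    exact ⟨_, h (ε₀ / 2) ⟨by linarith, by linarith⟩⟩
  have hOe : EmbOn I4 O SP := ⟨fun p hp => hBr.loc p (Or.inl hp), hBr.inj⟩
  have hOe' : EmbOn I4 O' SP := ⟨fun p hp => hBr'.loc p (Or.inl hp), hBr'.inj⟩
  obtain ⟨n, hn⟩ := hrep O hOe
  obtain ⟨n', hn'⟩ := hrep O' hOe'
  have hnn' : CIsot I4 n' (fun x => W (n x)) := hOW n n' hn hn'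
  have hU : IsOpen {p : R4 | p.2.1 < 9 / 40 ∨ 31 / 40 < p.2.1} := by
    have hc : Continuous (fun p : R4 => p.2.1) := by fun_prop
    have h1 : IsOpen {p : R4 | p.2.1 < 9 / 40} := isOpen_lt hc continuous_const
    have h2 : IsOpen {p : R4 | 31 / 40 < p.2.1} := isOpen_lt continuous_const hc
    exact h1.union h2
  have hUs : sph 0 ∪ sph 1 ⊆ {p : R4 | p.2.1 < 9 / 40 ∨ 31 / 40 < p.2.1} := by
    rintro p (hp | hp)
    · exact Or.inl (by linarith [sph0_X4 hp])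
    · exact Or.inr (by linarith [sph1_X4 hp])
  have key : ∀ x t : ℝ, Real.sin x ≠ 0 → Real.sin t ≠ 0 → ∃ ψ : R4 → R4,
      EmbOn I4 (fun p => KK4 F c H x (t, p)) SP ∧
      NearEq F (fun p => KK4 F c H x (t, p)) (sph 0 ∪ sph 1) ∧
      Thin I4 (fun p => KK4 F c H x (t, p)) ψ ∧
      (CIsot I4 ψ φ ∨ CIsot I4 ψ (fun x => W (φ x))) := by
    intro x t hx ht
    have hG := kf2 x t hx ht
    obtain ⟨ψ, hψ⟩ := hrep _ hG
    have hE : EqOn F (fun p => KK4 F c H x (t, p)) {p : R4 | p.2.1 < 9 / 40 ∨ 31 / 40 < p.2.1} :=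
      fun p hp => (kf5 x t p hp).symm
    exact ⟨ψ, hG, ⟨_, hU, hUs, hE⟩, hψ, hM2 W F _ φ ψ _ hW hF hG hU hUs hE hφ hψ⟩
  obtain ⟨ψ₁, e₁, n₁, T₁, c₁⟩ := key (-1) t' s2 st'
  obtain ⟨ψ₂, e₂, n₂, T₂, c₂⟩ := key (-1) t'' s2 st''
  obtain ⟨ψ₃, e₃, n₃, T₃, c₃⟩ := key 1 t' s1 st'
  obtain ⟨ψ₄, e₄, n₄, T₄, c₄⟩ := key 1 t'' s1 st''
  rcases c₁ with c₁ | c₁
  swap
  · exact ⟨_, ψ₁, e₁, n₁, T₁, c₁⟩
  rcases c₂ with c₂ | c₂
  swap
  · exact ⟨_, ψ₂, e₂, n₂, T₂, c₂⟩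
  rcases c₃ with c₃ | c₃
  swap
  · exact ⟨_, ψ₃, e₃, n₃, T₃, c₃⟩
  rcases c₄ with c₄ | c₄
  swap
  · exact ⟨_, ψ₄, e₄, n₄, T₄, c₄⟩
  -- all four classes are the class of `F`: then `W` is trivial
  obtain ⟨φ', hφ', hi1, -⟩ := cex φ hφφ
  have triv : ∀ (m ψ ψ' : R4 → R4), CIsot I4 m m → CIsot I4 ψ φ → CIsot I4 ψ' φ →
      CIsot I4 ψ (fun x => m (ψ' x)) → CIsot I4 (fun x => x) m := by
    intro m ψ ψ' hm h1 h2 h3
    have h4 : CIsot I4 φ (fun x => m (φ x)) :=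
      ct _ _ _ (cs _ _ h1) (ct _ _ _ h3 (cc m m ψ' φ hm h2))
    have h5 := cc φ (fun x => m (φ x)) φ' φ' h4 hφ'
    have h6 : (fun x => φ (φ' x)) = fun x => x := funext hi1
    have h7 : (fun x => m (φ (φ' x))) = m := funext fun x => by rw [hi1]
    rw [h6] at h5
    have h8 : CIsot I4 (fun x => x) (fun x => m (φ (φ' x))) := h5
    rwa [h7] at h8
  have hn1 : CIsot I4 (fun x => x) n :=
    triv n ψ₁ ψ₂ (tvii O n hn) c₁ c₂ (hcl ψ₁ ψ₂ n T₁ T₂ hn)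
  have hn2 : CIsot I4 (fun x => x) n' :=
    triv n' ψ₃ ψ₄ (tvii O' n' hn') c₃ c₄ (hcl' ψ₃ ψ₄ n' T₃ T₄ hn')
  have hWid : CIsot I4 (fun x => x) W :=
    ct _ _ _ hn2 (ct _ _ _ hnn' (cs _ _ (cc W W (fun x => x) n hWW hn1)))
  exact ⟨F, φ, hF, ⟨univ, isOpen_univ, subset_univ _, fun _ _ => rfl⟩, hφ,
    cc (fun x => x) W φ φ hWid hφφ⟩

end Pool.Agent.Helper34.BX
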