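import Pool.Agent.Helper70.BI.StF2
import Pool.Agent.Helper34.BI.BF
import Pool.Agent.Helper34.BI.Arcs

/-!
# Project BX (MP_8e98f2_gt): the exact dependence of a barbell implantation on its bar

Result (`StX4`, `StXS`): for every barbell in the 4-sphere there is a barbell with the same cuffs
(the same germs along both core spheres) whose implantation is `W` times the given one, where `W`
is the class of theta barbells (order at most two, central).  With bar independence up to `W`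
(`StMain2`, `StFinal2`, proved) the implantations with given cuffs are exactly two classes `E`,
`E W`.

Statements as `Prop` definitions with complete proofs in the docstrings.  A module
`Pool/Agent/Helper34/BX/M_X.lean` proves `theorem m_X : StX` (other statements may be taken as
hypotheses `(h : StY)`, or their modules imported).

Plan.  Given a germ `J` along the spine we use a two-parameter family of bars `H x t`
(`hh4`, explicit in the model, composed with `J`): the bar first passes the second cuff (on the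
side given by the sign of `x`), then the first cuff (on the side given by the sign of `t`).  For
`x = ∓1` the two families `t ↦ K_x (t, ·)` cross the first cuff at `t = 0`; by the crossing lemma
(for both families at the same time, `StCRP2`) `class K_x (t') = class O_x · class K_x (t'')` with
`O_{-1}`, `O_1` germs with the same small first cuff bounding a ball crossed once by the bar.
`O_{-1}` and `O_1` are joined by a family of germs whose bar crosses the second cuff once; there the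
crossing lemma gives a theta germ, so `class O_1 = W · class O_{-1}`.  Hence
`class K_{-1} (t') · class K_{-1} (t'')⁻¹ = W · class K_1 (t') · class K_1 (t'')⁻¹`, and all four
classes are `class J` or `W · class J`: so one of them is `W · class J` (or `W = 1`).
-/

set_option autoImplicit false

open scoped Manifold ContDiff Topology ComplexConjugate
open Set Filter Pool.Agent.Helper65.Barb Pool.Agent.Helper18.BI

namespace Pool.Agent.Helper34.BX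

open Pool.Agent.Helper34.BI
open Pool.Agent.Helper70.BI
open Pool.Agent.Helper27.BI (swp)

/-! ## the model arcs -/

/-- positive exactly on `(1/4, 3/4)` -/
noncomputable def ch (a : ℝ) : ℝ := hat (1 / 4) (3 / 4) a

/-- vanishes exactly for `a ≤ 3/10`, `7/10 ≤ a`, `a = 2/5`, `a = 3/5` -/
noncomputable def vv (a : ℝ) : ℝ := hat (3 / 10) (7 / 10) a * ((a - 2 / 5) * (a - 3 / 5))

/-- `0` for `a ≤ 11/30` and `13/30 ≤ a`, `1` on `[23/60, 25/60] ∋ 2/5`, values in `[0, 1]` -/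
noncomputable def b2 (a : ℝ) : ℝ := plateau (7 / 20) (9 / 20) (1 / 30) a

/-- `0` for `a ≤ 17/30` and `19/30 ≤ a`, `1` on `[35/60, 37/60] ∋ 3/5`, values in `[0, 1]` -/
noncomputable def b3 (a : ℝ) : ℝ := plateau (11 / 20) (13 / 20) (1 / 30) a

/-- the last coordinate of the arcs -/
noncomputable def ww (lam a : ℝ) : ℂ := ⟨lam * ch a, lam * ch a * a⟩

/-- `√(1/25 - |ww|²)` -/
noncomputable def rr (lam a : ℝ) : ℝ := √(1 / 25 - (lam * ch a) ^ 2 * (1 + a ^ 2))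

/-- the second coordinate of the arcs -/
noncomputable def UU (lam x t a : ℝ) : ℝ :=
  a + b2 a * (1 - rr lam a - lam * x - a) + b3 a * (rr lam a + lam * t - a)

/-- The model arcs.  At `a = 2/5` the arc passes the second core sphere at the distance
`lam * |x|`, at `a = 3/5` the first one at the distance `lam * |t|`. -/
noncomputable def hh4 (lam x t a : ℝ) : R4 := (1 / 2 + lam * vv a, (UU lam x t a, ww lam a))

/-- **AR1a** (elementary facts on the model arcs), `0 < lam ≤ 1/10`.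
*Proof.* `|ch| ≤ 1` (`hat_nonneg`, `hat_le_one`) and `ch a = 0` off `(1/4, 3/4)` (`hat_ne_zero`, `hat_eq_zero`), so `(lam ch)² (1 + a²) ≤ (1/100) (25/16) = 1/64` for all `a` and `rr lam` is smooth (`√` of a
function `≥ 1/25 - 1/64 > 0`, `ContDiff.sqrt`).  (i) smoothness: `contDiff_hat`, `contDiff_plateau`; the complex number `⟨x, y⟩` is `(x : ℂ) + y * I`.  (ii) for `a ≤ 1/4` or `3/4 ≤ a`: `ch = vv = b2 = b3 = 0`
(`hat_eq_zero`, `plateau_zero`).  (iii), (iv): `b2 a = 0`, `b3 a = 0` there (`plateau_zero`).  (v) Injective on `ℝ`: if the last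
coordinates agree, `lam * ch a = lam * ch b` and `lam * ch a * a = lam * ch b * b`; if `ch a ≠ 0` then `a = b`; if `ch a = ch b = 0` then
`a, b ∉ (1/4, 3/4)` and (ii).  (vi) Immersed: let `D` be the derivative (`HasDerivAt`), `D = 0`.  The last coordinate: real part `lam ch' = 0` and imaginary part
`lam (ch' a + ch) = 0`, so `ch a = 0`, so `a ≤ 1/4` or `3/4 ≤ a`; there `hh4 = ax` on the half line `Iic a` (resp. `Ici a`), so `D = (0, (1, 0))`
(uniqueness of one sided derivatives: `HasDerivAt.hasDerivWithinAt`, `UniqueDiffWithinAt.eq_deriv`, `uniqueDiffWithinAt_Iic`, `uniqueDiffWithinAt_Ici`), contradiction. -/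
def StAR1a : Prop :=
  ∀ lam ∈ Ioc (0 : ℝ) (1 / 10),
    ContDiff ℝ ∞ (fun z : ℝ × ℝ × ℝ => hh4 lam z.1 z.2.1 z.2.2) ∧
    (∀ x t a, (a ≤ 1 / 4 ∨ 3 / 4 ≤ a) → hh4 lam x t a = ax a) ∧
    (∀ x x' t a, (a ≤ 7 / 20 ∨ 9 / 20 ≤ a) → hh4 lam x t a = hh4 lam x' t a) ∧
    (∀ x t t' a, (a ≤ 11 / 20 ∨ 13 / 20 ≤ a) → hh4 lam x t a = hh4 lam x t' a) ∧
    (∀ x t, Function.Injective (hh4 lam x t)) ∧
    ∀ x t a, deriv (hh4 lam x t) a ≠ 0

/-- **AR1b** (crossings of the model arcs with the core spheres), `0 < lam ≤ 1/10`.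
*Proof.* As in `AR1a`, `(lam ch)² (1 + a²) ≤ 1/64`, hence `rr² = 1/25 - |ww|²` where `|ww|² = (lam ch)² (1 + a²)`, `3/20 ≤ rr ≤ 1/5`.
`rsq c p = (p.2.1 - c)² + re² + im²` of `p.2.2` (unfold `rsq`, `nsq`), so `rsq 0 = UU² + |ww|²`, `rsq 1 = (UU - 1)² + |ww|²` at `hh4 lam x t a`.
(i) Let `a ∈ (1/5, 4/5)` and `hh4 ∈ sph 0 ∪ sph 1`; the first coordinate is `1/2`, so `vv a = 0`: `a ≤ 3/10`, `7/10 ≤ a`, `a = 2/5` or `a = 3/5` (`hat_ne_zero`).
For `a ≤ 3/10` or `7/10 ≤ a`: `b2 = b3 = 0`, `UU = a`, and `a² > 1/25`, `(1-a)² > 1/25`.  For `a = 2/5`: `b2 = 1` (`plateau_one`), `b3 = 0`,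
`UU = 1 - rr - lam x`, `rsq 1 - 1/25 = (rr + lam x)² - rr² = lam x (2 rr + lam x)`, zero iff `x = 0` (`2 rr ≥ 3/10 > 1/10 ≥ |lam x|`), and
`rsq 0 ≥ (1 - 1/5 - 1/10)² > 1/25`.  For `a = 3/5`: `b2 = 0`, `b3 = 1`, `UU = rr + lam t`, `rsq 0 - 1/25 = lam t (2 rr + lam t)`, and `rsq 1 ≥ (7/10)² > 1/25`.
(ii) the converse computation; `re = lam * ch (3/5) > 0`, `lam * ch (2/5) > 0`.
(iii) Transversality.  For `z` near `(0, 3/5)` (`|z.2 - 3/5| < 1/60`): `hh4 lam x z.1 z.2 = (1/2 + lam vv z.2, (rr lam z.2 + lam z.1, ww lam z.2))`, with derivative at `(0, 3/5)` in the direction `(ζ₁, ζ₂)`: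
`(lam vv'(3/5) ζ₂, (rr' ζ₂ + lam ζ₁, ww' ζ₂))`, `vv'(3/5) = hat (3/10) (7/10) (3/5) / 5 ≠ 0`; so `v.1 = 0` gives `ζ₂ = 0`, and then
`v = (0, (lam ζ₁, 0))`, `drsq 0 p v = rr lam ζ₁`.  (iv) Near `(0, 2/5)` in the same way with `hh4 lam z.1 t z.2 = (1/2 + lam vv z.2, (1 - rr lam z.2 - lam z.1, ww lam z.2))`, `vv'(2/5) = - hat (3/10) (7/10) (2/5) / 5`: `drsq 1 p v = (-rr) (-lam ζ₁)`. -/
def StAR1b : Prop :=
  ∀ lam ∈ Ioc (0 : ℝ) (1 / 10),
    (∀ x ∈ Icc (-1 : ℝ) 1, ∀ t ∈ Icc (-1 : ℝ) 1, ∀ a ∈ Ioo (1 / 5 : ℝ) (4 / 5),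
      (hh4 lam x t a ∈ sph 0 → a = 3 / 5 ∧ t = 0) ∧ (hh4 lam x t a ∈ sph 1 → a = 2 / 5 ∧ x = 0)) ∧
    (∀ x t, hh4 lam x 0 (3 / 5) ∈ sph 0 ∧ hh4 lam 0 t (2 / 5) ∈ sph 1 ∧
      (hh4 lam x 0 (3 / 5)).2.2.re ≠ 0 ∧ (hh4 lam 0 t (2 / 5)).2.2.re ≠ 0) ∧
    (∀ x : ℝ, ∀ ζ : ℝ × ℝ,
      (fderiv ℝ (fun z : ℝ × ℝ => hh4 lam x z.1 z.2) (0, 3 / 5) ζ).1 = 0 →
      drsq 0 (hh4 lam x 0 (3 / 5))
        (fderiv ℝ (fun z : ℝ × ℝ => hh4 lam x z.1 z.2) (0, 3 / 5) ζ) = 0 → ζ = 0) ∧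
    ∀ t : ℝ, ∀ ζ : ℝ × ℝ,
      (fderiv ℝ (fun z : ℝ × ℝ => hh4 lam z.1 t z.2) (0, 2 / 5) ζ).1 = 0 →
      drsq 1 (hh4 lam 0 t (2 / 5))
        (fderiv ℝ (fun z : ℝ × ℝ => hh4 lam z.1 t z.2) (0, 2 / 5) ζ) = 0 → ζ = 0

/-- **AR2** (the model arcs are close to the spine for small `lam`).
*Proof.* `(lam, x, t, a) ↦ hh4 lam x t a` is continuous on `ℝ⁴` (`Real.continuous_sqrt`).  For `lam = 0`, `a ∈ [1/5, 4/5]`:
`rr 0 a = √(1/25) = 1/5`, `ww = 0`, first coordinate `1/2`, and `UU 0 x t a = a + b2 a (4/5 - a) + b3 a (1/5 - a) ∈ [1/5, 4/5]`: `b2`, `b3` have values in `[0, 1]`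
(`Real.smoothTransition.nonneg`, `le_one`) and for every `a` one of them is zero, so this is a convex combination of `a` and `4/5`, or of `a` and
`1/5`.  So `hh4 0 x t a ∈ neck ⊆ V`.  The compact set `{0} × [-1,1] × [-1,1] × [1/5, 4/5]` is mapped into the open set `V`;
tube lemma (`generalized_tube_lemma`, or `IsCompact.eventually_forall..`). -/
def StAR2 : Prop :=
  ∀ V : Set R4, IsOpen V → neck ⊆ V → ∃ lam₀ ∈ Ioc (0 : ℝ) (1 / 10), ∀ lam ∈ Ioc (0 : ℝ) lam₀,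
    ∀ x ∈ Icc (-1 : ℝ) 1, ∀ t ∈ Icc (-1 : ℝ) 1, ∀ a ∈ Icc (1 / 5 : ℝ) (4 / 5),
      hh4 lam x t a ∈ V

/-! ## the arcs of a germ -/

/-- The family of bars `H x t` for the germ `J`, with core `c`. -/
structure XD (J : R4 → R4) (c : ℝ → R4) (H : ℝ → ℝ → ℝ → R4) : Prop where
  emb : EmbOn I4 J SP
  smooth_c : ContDiff ℝ ∞ c
  smooth : ContDiff ℝ ∞ (fun z : ℝ × ℝ × ℝ => H z.1 z.2.1 z.2.2)
  core : ∀ a ∈ Icc (1 / 5 : ℝ) (4 / 5), J (1 / 2, a, 0) = c a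
  frozen : ∀ x t a, (a ≤ 1 / 4 ∨ 3 / 4 ≤ a) → H x t a = c a
  indx : ∀ x x' t a, (a ≤ 7 / 20 ∨ 9 / 20 ≤ a) → H x t a = H x' t a
  indt : ∀ x t t' a, (a ≤ 11 / 20 ∨ 13 / 20 ≤ a) → H x t a = H x t' a
  inj : ∀ x t, InjOn (H x t) (Icc (1 / 5) (4 / 5))
  imm : ∀ x t, ∀ a ∈ Icc (1 / 5 : ℝ) (4 / 5), deriv (H x t) a ≠ 0
  hit : ∀ x t, ∀ a ∈ Ioo (1 / 5 : ℝ) (4 / 5), ∀ p ∈ sph 0 ∪ sph 1, H x t a = J p →
    (p ∈ sph 0 ∧ a = 3 / 5 ∧ Real.sin t = 0) ∨ (p ∈ sph 1 ∧ a = 2 / 5 ∧ Real.sin x = 0)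
  cross0 : ∃ p₀ ∈ sph 0, p₀.2.2.re ≠ 0 ∧ ∀ x, J p₀ = H x 0 (3 / 5) ∧
    ∀ (ζ : ℝ × ℝ) (v : R4), fderiv ℝ (fun z : ℝ × ℝ => H x z.1 z.2) (0, 3 / 5) ζ =
      fderiv ℝ J p₀ v → v.1 = 0 → drsq 0 p₀ v = 0 → ζ = 0
  cross1 : ∀ t, ∃ p₁ ∈ sph 1, p₁.2.2.re ≠ 0 ∧ J p₁ = H 0 t (2 / 5) ∧
    ∀ (ζ : ℝ × ℝ) (v : R4), fderiv ℝ (fun z : ℝ × ℝ => H z.1 t z.2) (0, 2 / 5) ζ =
      fderiv ℝ J p₁ v → v.1 = 0 → drsq 1 p₁ v = 0 → ζ = 0

/-- **XD** (existence of the arcs) (uses `StAR1a`, `StAR1b`, `StAR2`, `StA1`).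
*Proof.* By `StA1` (V = R4, M = R4) there is an open `V ⊇ SP` on which `J` coincides with a partial diffeomorphism, so `J` is injective and `LD` on `V`
(so smooth, `eventually_contDiffAt`, with injective derivative, `injective_fderiv`).  `StAR2`: `lam`.
There is `r ∈ (0, 1/20)` with `ax a ∈ V` for `1/5 - r < a < 4/5 + r` (compactness, as in module CO, `Pool/Agent/Helper34/BI/M_CO.lean`); let `Ψ` be the bump function of module CO: smooth, `1` for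
`|a - 1/2| ≤ 3/10 + r/3`, `0` for `3/10 + 2r/3 ≤ |a - 1/2|`.  Put `c a = Ψ a • J (ax a)` and `H x t a = Ψ a • J (hh4 lam (sin x) (sin t) a)`.
Claim: for all `x, t` and `|a - 1/2| < 3/10 + r`: `hh4 lam (sin x) (sin t) a ∈ V`: for `a ∈ [1/5, 4/5]` by `StAR2`
(`|sin| ≤ 1`), otherwise `hh4 = ax a` (`StAR1a` (ii)).  So `H` is smooth: near `(x, t, a)` with `|a - 1/2| < 3/10 + r` it is a product of smooth functions, elsewhere it is zero nearby; same for `c`.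
On the open set `|a - 1/2| < 3/10 + r/3` (which contains `[1/5, 4/5]`), `H x t a = J (hh4 lam (sin x) (sin t) a)`.
`core`, `frozen`, `indx`, `indt`: from `StAR1a`.  `inj`: `J` is injective on `V`, `hh4` is injective.  `imm`: chain rule, the derivative of `J` is injective on `V`.
`hit`: `J (hh4 ..) = J p` with both points in `V`, so `hh4 lam (sin x) (sin t) a = p`, then `StAR1b` (i) (`sin x, sin t ∈ [-1, 1]`).
`cross0`: `p₀ = hh4 lam x 0 (3/5)` (independent of `x` by `indx`-property; `sin 0 = 0`); `fderiv` of `(t, a) ↦ J (hh4 lam (sin x) (sin t) a)` at `(0, 3/5)` is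
`fderiv J p₀ ∘ fderiv (z ↦ hh4 lam (sin x) z.1 z.2) (0, 3/5)` composed with the derivative of `(t, a) ↦ (sin t, a)` at `(0, 3/5)`, which is the
identity (`cos 0 = 1`).  So `fderiv J p₀ (D ζ) = fderiv J p₀ v`, `v = D ζ`, and `StAR1b` (iii).  `cross1` in the same way, `p₁ = hh4 lam 0 (sin t) (2/5)`. -/
def StXD : Prop :=
  ∀ J : R4 → R4, EmbOn I4 J SP → ∃ (c : ℝ → R4) (H : ℝ → ℝ → ℝ → R4), XD J c H

/-! ## crossings of a bar family with a cuff -/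

/-- **PCB** (a bar family with one generic crossing).
*Proof.* Adapt `GenData.preCross_zero`, `GenData.preCross_one` (and `doubles`, `cuff_val`, `cuff_eventually`, `fderiv_cuff`, `fderiv_strand`) of
`Pool/Agent/Helper34/BI/BF.lean`: everything there only uses `G.bar` (our `BarData`), `G.imm t`, `G.injF`, `G.injH t`, the fact that at the time `t`
the only parameter in `(1/5, 4/5)` with value on the cuffs is `u` (here a hypothesis), `re ≠ 0`, and the transversality, which is here a hypothesis in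
the final form.  For the second cuff: `swpL`, `drsq 0 (swp p) v = drsq 1 p (swpL v)` as in `preCross_one`. -/
def StPCB : Prop :=
  ∀ (F : R4 → R4) (c : ℝ → R4) (H : ℝ × ℝ → R4) (δ t u : ℝ) (p₀ : R4), BarData F c H δ →
    InjOn F (sph 0 ∪ sph 1) → u ∈ Ioo (1 / 5 : ℝ) (4 / 5) →
    (∀ a ∈ Icc (1 / 5 : ℝ) (4 / 5), fderiv ℝ H (t, a) (0, 1) ≠ 0) →
    InjOn (fun a => H (t, a)) (Icc (1 / 5) (4 / 5)) →
    (∀ a ∈ Ioo (1 / 5 : ℝ) (4 / 5), H (t, a) ∈ F '' (sph 0 ∪ sph 1) → a = u) →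
    p₀.2.2.re ≠ 0 → F p₀ = H (t, u) →
    (p₀ ∈ sph 0 → (∀ (ζ : ℝ × ℝ) (v : R4), fderiv ℝ H (t, u) ζ = fderiv ℝ F p₀ v → v.1 = 0 →
      drsq 0 p₀ v = 0 → ζ = 0) → PreCross (barFam F c H δ) t u p₀) ∧
    (p₀ ∈ sph 1 → (∀ (ζ : ℝ × ℝ) (v : R4), fderiv ℝ H (t, u) ζ = fderiv ℝ F p₀ v → v.1 = 0 →
      drsq 1 p₀ v = 0 → ζ = 0) →
      PreCross (fun q => barFam F c H δ (q.1, swp q.2)) t (1 - u) (swp p₀))

/-- the family `t ↦ K x (t, ·)` -/
noncomputable def KK4 (J : R4 → R4) (c : ℝ → R4) (H : ℝ → ℝ → ℝ → R4) (x : ℝ) : ℝ × R4 → R4 :=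
  barFam J c (fun z => H x z.1 z.2) (1 / 20)

/-- **KF** (the four germs) (uses `StPCB`).
*Proof.* (i) `BarData`: fields from `XD` (`1/5 + 1/20 = 1/4`, `4/5 - 1/20 = 3/4`).  (ii) `BarData.embOn`: `fderiv ℝ (fun z => H x z.1 z.2) (t, a) (0, 1) = deriv (H x t) a`
(chain rule); `injF` from `emb`; `hit` and `sin x ≠ 0`, `sin t ≠ 0`.  (iii) `StPCB` with `u = 3/5`, `t = 0`, `p₀` from `cross0`: by `hit` and `sin x ≠ 0` the only hit is `a = 3/5`.
(iv) For `p.2.1 < 9/40`: both sides are `J p` (`barFam_eq`, `δ/2 = 1/40`).  For `1/2 < p.2.1`: unfold `barFam`, `thick`, `thickB`: the values at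
`(t, p)` depend on `H x t a`, `fderiv ℝ (fun z => H x z.1 z.2) (t, a) (0, 1)` with `a = p.2.1 > 9/20`, and `H x = H x'` near `(t, a)` (`indx`).
(v) `barFam_eq` on the open set `p.2.1 < 1/5 + 1/40 ∨ 4/5 - 1/40 < p.2.1`.  (vi) `barFam_neck`. -/
def StKF : Prop :=
  ∀ (J : R4 → R4) (c : ℝ → R4) (H : ℝ → ℝ → ℝ → R4), XD J c H →
    (∀ x, BarData J c (fun z => H x z.1 z.2) (1 / 20)) ∧
    (∀ x t, Real.sin x ≠ 0 → Real.sin t ≠ 0 → EmbOn I4 (fun p => KK4 J c H x (t, p)) SP) ∧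
    (∃ p₀ : R4, ∀ x, Real.sin x ≠ 0 → PreCross (KK4 J c H x) 0 (3 / 5) p₀) ∧
    (∀ (x x' t : ℝ) (p : R4), (p.2.1 < 9 / 40 ∨ 1 / 2 < p.2.1) →
      KK4 J c H x (t, p) = KK4 J c H x' (t, p)) ∧
    (∀ (x t : ℝ) (p : R4), (p.2.1 < 9 / 40 ∨ 31 / 40 < p.2.1) → KK4 J c H x (t, p) = J p) ∧
    ∀ x t, ∀ a ∈ Icc (1 / 5 : ℝ) (4 / 5), core (fun p => KK4 J c H x (t, p)) a = H x t a

/-! ## the crossing lemma for two families at the same time -/

/-- **CRP2.** The crossing lemma (`StCRP`) for two families which only differ in the first half of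
the bar, away from the first cuff and from the crossing strand: the two obstruction germs have the
same first cuff and the same ball.
*Proof.* As `m_CRP`; the numbers `η`, `δ`, the times `T (± r₁)` and the maps `k₂`, `rade δ 0`, `shb β c` can be chosen the same for both families. -/
def StCRP2 : Prop :=
  ∀ (J J' : ℝ × R4 → R4) (t₀ u₀ : ℝ) (p₀ : R4), PreCross J t₀ u₀ p₀ → PreCross J' t₀ u₀ p₀ →
    1 / 2 < u₀ → (∀ (t : ℝ) (p : R4), (p.2.1 < 9 / 40 ∨ 1 / 2 < p.2.1) → J' (t, p) = J (t, p)) →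
    ∀ C : Set R4, IsCompact C → Disjoint C ((fun p => J (t₀, p)) '' sph 0) → ∀ ε > 0,
    ∃ t₁ ∈ Ioo (t₀ - ε) t₀, ∃ t₂ ∈ Ioo t₀ (t₀ + ε),
      ∃ t' t'' : ℝ, (t' = t₁ ∧ t'' = t₂ ∨ t' = t₂ ∧ t'' = t₁) ∧
      ∃ (O O' : R4 → R4) (α e : ℝ), |α - u₀| < ε ∧ (e = 1 ∨ e = -1) ∧
        Br 0 O α e ∧ Br 0 O' α e ∧
        (∀ a ∈ Icc (1 / 5 : ℝ) (4 / 5), core O a = core (fun p => J (t', p)) a) ∧
        (∀ a ∈ Icc (1 / 5 : ℝ) (4 / 5), core O' a = core (fun p => J' (t', p)) a) ∧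
        (∀ p : R4, 1 / 2 < p.2.1 → O p = J (t', p)) ∧
        (∀ p : R4, 1 / 2 < p.2.1 → O' p = J' (t', p)) ∧
        NearEq O O' (flat 0) ∧ Disjoint C (O '' flat 0) ∧
        (∀ φ' φ'' n : R4 → R4, Thin I4 (fun p => J (t', p)) φ' →
          Thin I4 (fun p => J (t'', p)) φ'' → Thin I4 O n → CIsot I4 φ' (fun x => n (φ'' x))) ∧
        ∀ φ' φ'' n : R4 → R4, Thin I4 (fun p => J' (t', p)) φ' →
          Thin I4 (fun p => J' (t'', p)) φ'' → Thin I4 O' n → CIsot I4 φ' (fun x => n (φ'' x))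

/-! ## crossing the second cuff: theta germs -/

/-- The class of `G` is `W` times the class of `F`. -/
def OW (W F G : R4 → R4) : Prop :=
  ∀ φ ψ : R4 → R4, Thin I4 F φ → Thin I4 G ψ → CIsot I4 ψ (fun x => W (φ x))

/-- **OWL.** Properties of `OW` (uses `StMWL`, `StT2`, `StCI`, `StR2sw`).
*Proof.* Compare `Pool/Agent/Helper70/BI/M_MWL.lean`.  (i) Symmetric: `CIsot ψ (W ∘ φ)`, so `CIsot (W ∘ ψ) (W ∘ W ∘ φ)` and `CIsot (W ∘ W ∘ φ) φ` (`IsW.sq`; `φ`, `W` are isotopic to themselves, `StT2` (vii)).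
(ii) Swap: `φ'`, `ψ'` inverses of `φ`, `ψ` (`StCI`), they represent `F ∘ swp`, `G ∘ swp` (`StR2sw`), `CIsot ψ' (W ∘ φ')`; inverses: `CIsot ψ (φ ∘ W')`, `W' ~ W`,
centrality (`StMWL`, first claim).  (iii) trivial. -/
def StOWL : Prop :=
  ∀ W : R4 → R4, IsW W →
    (∀ F G, OW W F G → OW W G F) ∧
    (∀ F G, EmbOn I4 F SP → EmbOn I4 G SP →
      OW W (fun p => F (swp p)) (fun p => G (swp p)) → OW W F G) ∧
    ∀ F F' G G', Eqv F F' → Eqv G G' → OW W F G → OW W F' G'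

/-- **THX** (crossing the first cuff when the second cuff bounds a ball crossed once, earlier, by the
bar) (uses `StCRP`, `StOWL`).
*Proof.* As `m_TH` (`Pool/Agent/Helper70/BI/M_TH.lean`), with `2/5` replaced by `β`.  `StCRP` for `J`, `t₀ = 0`, `u₀`, `p₀`,
`C = J (0, ·) '' flat 1` (compact; disjoint from `J (0, ·) '' sph 0` by `injF`) and `min ε (min 1 (u₀ - β))`: `t₁, t₂, t', t''`, `O`, `α`, `e`, `α > β`, and `t' ∈ [-1, 1]`.  `Theta O α β e d`: `a` is given.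
`b = Br 1 O β d`: `loc`: on `SP` from `a`; near `flat 1`, `O = J (t', ·)`.  `inj` from `a`.  `injF` (`flat 1 ∪ sph (1 - 1)`): `O = J (t', ·)` on `flat 1`, `O '' flat 1 = C` (`const`),
`O '' sph 0 ⊆ O '' flat 0` is disjoint from `C`.  `cr`: from `cr` for `J (t', ·)`; the derivative of `core O` at `β` is the one of
`core (J (t', ·))`.  `only`: `core O = core (J (t', ·))`, `O '' flat 1 = J (t', ·) '' flat 1`.  `dis`, `ord` clear.  So `Thin O W` (`IsW.all`), and the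
last claim of `StCRP` with `n = W` is `OW W (J (t'', ·)) (J (t', ·))`; order the times by the symmetry of `OW`. -/
def StTHX : Prop :=
  ∀ (W : R4 → R4) (J : ℝ × R4 → R4) (u₀ β d ε : ℝ) (p₀ : R4), IsW W → (d = 1 ∨ d = -1) →
    PreCross J 0 u₀ p₀ → 1 / 5 < β → β < u₀ → 0 < ε →
    (∀ t, ∀ p ∈ flat 1, LD (fun p => J (t, p)) p) →
    (∀ t t' : ℝ, ∀ p ∈ flat 1, J (t, p) = J (t', p)) →
    (∀ t ∈ Icc (-1 : ℝ) 1, InjOn (fun p => J (t, p)) (flat 1 ∪ sph 0)) →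
    (∀ t ∈ Icc (-1 : ℝ) 1, CrossAt (fun p => J (t, p)) 1 β d) →
    (∀ t ∈ Icc (-1 : ℝ) 1, ∀ a ∈ Icc (1 / 5 : ℝ) (4 / 5),
      core (fun p => J (t, p)) a ∈ (fun p => J (t, p)) '' flat 1 → a = 4 / 5 ∨ a = β) →
    ∃ t₁ ∈ Ioo (-ε) 0, ∃ t₂ ∈ Ioo 0 ε, EmbOn I4 (fun p => J (t₁, p)) SP ∧
      EmbOn I4 (fun p => J (t₂, p)) SP ∧ OW W (fun p => J (t₁, p)) (fun p => J (t₂, p))

/-- **LF** (joining the two obstruction germs) (uses `StPCB`, `StTHX`, `StOWL`, `StFr`, `StT2` (or `StFam`)).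
Let `O` be a germ with a small first cuff whose bar is `H (-1) t'`; change the bar to `H 1 t'`.
*Proof.* `L = barFam O (H (-1) t') (fun z => H z.1 t' z.2) (1/20)`.  `BarData`: `loc` from `Br.loc`, `core` = hypothesis `hcore`, `frozen` from `XD.frozen`.
Facts, for `x ∈ [-1, 1]`.
(1) `H x t' a ∈ O '' flat 0` for `a ∈ [1/5, 4/5]` only if `a = 1/5` or `a = α`: `a ∈ [7/20, 9/20]` is excluded by the last hypothesis; otherwise it is `H (-1) t' a = core O a` (`indx`), `Br.only`.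
(2) for `x ≠ 0` (so `sin x ≠ 0`, as `|x| ≤ 1`) and `a ∈ (1/5, 4/5)`: `H x t' a ∉ O '' (sph 0 ∪ sph 1)`; for `x = 0` the only such parameter is `a = 2/5`: `O = J` near `sph 1` (`hright`; `sph 1` has `4/5 ≤ a`), so a hit of `O '' sph 1` is a hit of
`J '' sph 1`, `XD.hit`: `a = 2/5`, `sin x = 0`; a hit of `O '' sph 0 ⊆ O '' flat 0` has `a = α` by (1); but `α ∉ [7/20, 9/20]`, so `H x t' α = core O α`, which is not in `O '' sph 0`: `O p = core O α = O (ax α)`, `p ∈ sph 0`, `p = ax α` by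
`Br.inj`, but `α > 1/5`.
(3) `L (x, ·)` is `EmbOn SP` for `x ∈ [-1, 1]`, `x ≠ 0` (`BarData.embOn`; `InjOn O (sph 0 ∪ sph 1)` from `Br.inj`; `XD.inj`, `XD.imm`).
(4) `PreCross (fun q => L (q.1, swp q.2)) 0 (3/5) (swp p₁)`: `StPCB`, second claim, with `u = 2/5`, `t = 0` (`1 - 2/5 = 3/5`), `p₁` from `XD.cross1 t'`; `O p₁ = J p₁`, `fderiv O p₁ = fderiv J p₁` (`hright` holds near `p₁`).
(5) `M q = L (q.1, swp q.2)` satisfies the hypotheses of `StTHX` with `u₀ = 3/5`, `β = 1 - α` (`1/5 < β < 3/5`, as `11/20 < α < 4/5`), `d = -e`: for `p ∈ flat 1`, `swp p ∈ flat 0`, `(swp p).2.1 ≤ 1/5`, so `L (t, ·) = O` near `swp p` (`barFam_eq`):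
`LD`, `const`.  `injF`: `swp` maps `flat 1 ∪ sph 0` to `flat 0 ∪ sph 1`, where `L (t, ·) = O`, `Br.injF`.  `CrossAt M(t) 1 (1 - α) (-e)`: from `CrossAt O 0 α e` with `x₀`: `x₀' = ((swp (1/2, x₀)).2)`; `core M(t) (1 - α) = L (t, ax α) = H t t' α = core O α = O (1/2, x₀) = M (t, (1/2, x₀'))`; the
derivative of `core M(t)` at `1 - α` is minus the one of `a ↦ H t t' a` at `α`, which is the one of `core O` (`α ∉ [7/20, 9/20]`, equal near `α`), i.e. `- fderiv O (1/2, x₀) (l, v) = fderiv M(t) (1/2, x₀') (-l, v')` (`swpL`), `(-e) (-l) > 0`.  Compare module SYM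
(`Pool/Agent/Helper70/BI/M_SYM.lean`).  `only`: `core M(t) a = H t t' (1 - a)`, `M(t) '' flat 1 = O '' flat 0`, fact (1): `1 - a = 1/5` or `1 - a = α`.
(6) `StTHX` with `ε = 1/2`: `x₁ < 0 < x₂`, `OW W M(x₁) M(x₂)`; swap (`StOWL` (ii)): `OW W L(x₁) L(x₂)`.  Families without crossing on `[-1, x₁]` and `[x₂, 1]` (fact (3), `BarData.eventually_smooth`, reparametrize to `[0, 1]` as in `m_MWL`; `StFam`):
`Eqv L(-1) L(x₁)`, `Eqv L(x₂) L(1)`.  So `OW W L(-1) L(1)`.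
(7) `Eqv O L(-1)` and `Eqv O' L(1)` by the framing lemma `StFr`: equal near the cuffs (`barFam_eq`; `O' = O` near `sph 0 ⊆ flat 0`, and near `sph 1` both are `J` by `hright`, `hright'`) and on the neck (`barFam_neck`, `hcore`, `hcore'`). -/
def StLF : Prop :=
  ∀ (W J : R4 → R4) (c : ℝ → R4) (H : ℝ → ℝ → ℝ → R4) (O O' : R4 → R4) (t' α e : ℝ), IsW W →
    XD J c H → (e = 1 ∨ e = -1) → 11 / 20 < α → α < 4 / 5 → Br 0 O α e → Br 0 O' α e →
    (∀ a ∈ Icc (1 / 5 : ℝ) (4 / 5), core O a = H (-1) t' a) →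
    (∀ a ∈ Icc (1 / 5 : ℝ) (4 / 5), core O' a = H 1 t' a) →
    (∀ p : R4, 31 / 40 < p.2.1 → O p = J p) → (∀ p : R4, 31 / 40 < p.2.1 → O' p = J p) →
    NearEq O O' (flat 0) →
    (∀ x ∈ Icc (-1 : ℝ) 1, ∀ a ∈ Icc (7 / 20 : ℝ) (9 / 20), H x t' a ∉ O '' flat 0) →
    OW W O O'

/-! ## the result in four-space -/

/-- **X4. THE MAIN THEOREM, for `R4`** (uses `StXD`, `StKF`, `StCRP2`, `StLF`, `StMain2`, `StT2`, `StCI`, `StMWL`).
For every germ `F` along the spine there is a germ with the same cuffs whose class is `W` times the class of `F`.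
*Proof.* `XD F c H`, `K x = KK4 F c H x`.  `sin 1 > 0`, `sin (-1) < 0`, and `sin t ≠ 0` for `0 < |t| < 1`.  `StCRP2` for `K (-1)`, `K 1`, `t₀ = 0`, `u₀ = 3/5`, `p₀` (`StKF`), `C = {H x 0 a | x ∈ [-1,1], a ∈ [7/20, 9/20]}` (compact, and disjoint from
`K (-1) (0, ·) '' sph 0 = F '' sph 0` by `XD.hit`: `a ≠ 3/5`; note `H x t' a = H x 0 a` for these `a`, `indt`) and `ε = 1/20`: `t', t''`, `O`, `O'`, `α ∈ (11/20, 13/20)`.  `StLF` (`O p = K (-1) (t', p) = F p` for `31/40 < p.2.1`): `OW W O O'`.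
The germs `K (±1) (t')`, `K (±1) (t'')` are `EmbOn SP` (`StKF`), `NearEq` to `F` near the cuffs; `O`, `O'` are `EmbOn SP` (`Br`).  Choose representatives (`StT2` (i)) `φ₁, φ₂` of `K (-1) (t')`, `K (-1) (t'')`, `φ₃, φ₄` of `K 1 (t')`, `K 1 (t'')`, `n, n'` of
`O`, `O'`: `φ₁ ~ n ∘ φ₂`, `φ₃ ~ n' ∘ φ₄`, `n' ~ W ∘ n`.  By `StMain2` each `φᵢ ~ φ` or `φᵢ ~ W ∘ φ`.  If `φᵢ ~ W ∘ φ` for some `i`, take the corresponding germ.  Otherwise `φ ~ n ∘ φ`, so `n ~ id` (compose with the inverse of `φ`), and `φ ~ n' ∘ φ`, `n' ~ id`, so `W ~ W ∘ n ~ n' ~ id`, and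
`φ ~ W ∘ φ`: take `F' = F`. -/
def StX4 : Prop :=
  ∀ W F φ : R4 → R4, IsW W → EmbOn I4 F SP → Thin I4 F φ →
    ∃ F' φ' : R4 → R4, EmbOn I4 F' SP ∧ NearEq F F' (sph 0 ∪ sph 1) ∧ Thin I4 F' φ' ∧
      CIsot I4 φ' (fun x => W (φ x))

/-! ## the 4-sphere -/

/-- the identity on `[-b, b]`, slope in `[e, 1]`, slope `e` for `|x| ≥ b + e` -/
noncomputable def sg (e b x : ℝ) : ℝ :=
  x - (1 - e) * e * ramp ((x - b) / e) + (1 - e) * e * ramp ((-x - b) / e)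

/-- the transversal factor of the second compression; `k` stands for `|w|²` -/
noncomputable def mf (e a k : ℝ) : ℝ :=
  √(1 - (1 - e) * e * ramp ((k - (prof e a + e)) / e) / k)

/-- A compression of the thickened barbell which is the identity near the spine. -/
noncomputable def cpr (e : ℝ) (p : R4) : R4 :=
  let q := tri 1 (fun a => 1 / 2 + sg e (7 / 10 + e) (a - 1 / 2)) (mf e) (Em e p)
  (1 / 2 + sg e e (q.1 - 1 / 2), q.2)

/-- **RHO1** (`cpr e` is an injective local diffeomorphism and the identity near the spine), `0 < e < 1/100` (uses `StR0`, `StRE`, `StS0`, `StS2`).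
*Proof.* `sg e b` has derivative `1 - (1-e) step((x-b)/e) - (1-e) step((-x-b)/e) ∈ [e, 1]` (`StR0`; for `b ≥ 0` at most one of the two terms is not zero), and `sg e b x = x` for `|x| ≤ b`.
`G a := prof e a + e` is smooth (unfold `prof`, or `StS2`) and `> e` (`StS2`).  `K(a, k) := k - (1-e) e ramp((k - G a)/e)`, so `mf e a k = √(K/k)` for `k > 0`, `K = k` for `k ≤ G a`; `∂K/∂k = 1 - (1-e) step(..) ∈ [e, 1]`, so `K(a,k) ≥ e k` for `k ≥ 0` (mean value, `K(a,0) = 0`).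
So on the open set `O = {(a,k) | k < G a} ∪ {(a, k) | 0 < k ∧ 0 < K(a,k)}`, which contains all `(a, k)` with `k ≥ 0`, `mf` is smooth (on the first part it is `1`: also for `k < 0`, `ramp (negative) = 0`), positive for `k ≥ 0`, and `mf (mf + 2 k ∂mf/∂k) = (k mf²)' = ∂K/∂k > 0` (for `k > 0`; for `k = 0`, `mf = 1` nearby), so
`0 < mf + 2 k ∂mf/∂k`.  `StS0` with `α = 1`: `tri 1 β (mf e)` is `EmbOn univ`.  The map `(s, x) ↦ (1/2 + sg e e (s - 1/2), x)` is `EmbOn univ` (strictly increasing in `s` with positive derivative).  `Em e` is `EmbOn {0 < rsq 0, 0 < rsq 1}` (`StRE`).  Compose.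
Identity near `SP`: on `SP`: `rsq 0, rsq 1 ≥ 1/25 > 1/25 - e`, `|p.1 - 1/2| = 0 < e`, `-1/5 ≤ a ≤ 6/5`, i.e. `|a - 1/2| ≤ 7/10 < 7/10 + e`, and `|w|² ≤ prof 0 a < prof e a + e`: precisely `|w|² = 1/25 - (a-c)²` on `sph c` and `0` on the neck, and
`prof e a ≥ 1/25 - a²`, `prof e a ≥ 1/25 - (a-1)²`, `prof e a > 0`.  All these are open conditions and imply `cpr e p = p` (`Em e p = p`, `mf = 1`). -/
def StRHO1 : Prop :=
  ∀ e ∈ Ioo (0 : ℝ) (1 / 100), EmbOn I4 (cpr e) {p | 0 < rsq 0 p ∧ 0 < rsq 1 p} ∧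
    ∃ U : Set R4, IsOpen U ∧ SP ⊆ U ∧ ∀ p ∈ U, cpr e p = p

/-- **RHO2** (`cpr e` maps the thickened barbell into a given neighbourhood of the spine for small `e`) (uses `StR0`, `StRE`).
*Proof.* For `η > 0` let `N η` be the set of `p` with `|p.1 - 1/2| ≤ η`, `-1/5 - η ≤ a ≤ 6/5 + η`, `k ≤ prof 0 a + η`, `1/25 - η ≤ rsq 0 p`, `1/25 - η ≤ rsq 1 p` (`a = p.2.1`, `k = |p.2.2|²`), where `prof 0 a = max 0 (1/25 - a²) + max 0 (1/25 - (a-1)²)` is continuous.  The sets `N η` are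
compact, increasing in `η`, and a point in all of them is in `SP`: `p.1 = 1/2`; if `|a| ≤ 1/5` then `k ≤ 1/25 - a²` and `rsq 0 ≥ 1/25` give `rsq 0 = 1/25`; if `1/5 ≤ a ≤ 4/5` then `k = 0`; if `4/5 ≤ a ≤ 6/5` then `rsq 1 = 1/25`.  So `N η ⊆ V` for some `η > 0`
(compactness of `N 1 \ V`).
Let `p ∈ NB`, `y = Em e p`: `p.1 ∈ [-1, 2]`, `|p.2| ≤ 9/2`, `rsq c p ≥ (3/20)²`; `y.1 = p.1`, `rsq 0 y, rsq 1 y ≥ 1/25 - 3e`, and `|y.2| ≤ 5` (`Em e p = p` unless `rsq 0 p` or `rsq 1 p` is `< 1/25 - e`, and then `rsq 0 y ≤ 1/25` or `rsq 1 y ≤ 1/25`).  For `x ≥ b`: `sg e b x ≤ b + e (x - b) + e`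
(`ramp z ≥ z - 1`).  So for `q = cpr e p`: `|q.1 - 1/2| ≤ 6 e`; `-1/5 - 7 e ≤ q.2.1 ≤ 6/5 + 7 e`; with `a = y.2.1`, `k = |y.2.2|² ≤ 25`: `|q.2.2|² = K(a, k) ≤ G a + e k + e ≤ prof 0 a + 28 e` (`prof e a ≤ prof 0 a + e`, from `√(x² + e²) ≤ |x| + e`), and `prof 0 a ≤ prof 0 (q.2.1)`: if `-1/5 ≤ a ≤ 6/5` then
`q.2.1 = a`, otherwise `prof 0 a = 0`.  Finally `rsq c q ≥ 1/25 - 3 e` (`c = 0, 1`): if `|a - 1/2| > 7/10 + e` then `|q.2.1 - 1/2| ≥ 7/10 + e`, so `|q.2.1 - c| ≥ 1/5`.  Otherwise `q.2.1 = a`: if `k ≤ G a` then `q.2 = y.2`; if `k > G a` then `|q.2.2|² = K(a,k) ≥ K(a, G a) = G a ≥ 1/25 - (a - c)²`.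
So `cpr e p ∈ N (28 e)`; take `28 e ≤ η`. -/
def StRHO2 : Prop :=
  ∀ V : Set R4, IsOpen V → SP ⊆ V → ∃ e₀ > 0, ∀ e ∈ Ioo (0 : ℝ) e₀,
    MapsTo (cpr e) Pool.Agent.Helper65.Barb.NB V

/-- **R3X** (realization of a germ by a barbell, exact near the spine) (uses `StRHO1`, `StRHO2`, `StA1`, `StT2`, `StT3`, `StImp`, `StS4`).
*Proof.* `StA1`: an open `V ⊇ SP` on which `G` is injective and a local diffeomorphism.  `κ = cpr e` with small `e` from `StRHO1`, `StRHO2` (`NB ⊆ {0 < rsq 0, 0 < rsq 1}`); `G ∘ κ` is injective and a local diffeomorphism along `NB` (composition; `NB` is compact: see `Pool/Agent/Helper18/BI/M_R3.lean`), `StA1` gives `B` with `NB ⊆ B.source`, `B = G ∘ κ` on `B.source`.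
Near `SP` (`SP ⊆ NB`), `B = G`.  `B` is `EmbOn EB` (`EB ⊆ NB`, `StS4`), so `Thin B (imp B bsupp barMap)` (`StT3`) and `imp B bsupp barMap = push B barMap` (`StImp` (5)); `Thin G φ` gives `Thin B φ` (`StT2` (v)); uniqueness (`StT2` (ii)). -/
def StR3X : Prop :=
  ∀ (φ : S4 → S4) (G : R4 → S4), EmbOn (𝓡 4) G SP → Thin (𝓡 4) G φ →
    ∃ B : PartialDiffeomorph 𝓘(ℝ, R4) (𝓡 4) R4 S4 ∞, Pool.Agent.Helper65.Barb.NB ⊆ B.source ∧
      (∃ U : Set R4, IsOpen U ∧ SP ⊆ U ∧ EqOn B G U) ∧ CIsot (𝓡 4) φ (push B barMap)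

/-- **XS. THE MAIN THEOREM FOR THE 4-SPHERE** (uses `StX4`, `StR3X`, and everything used by `m_Final2`).
*Proof.* The first four clauses: as in `m_Final2` (`Pool/Agent/Helper70/BI/M_Final2.lean`; same `W`, `B₀`, `δ₀`).  The last clause: `EmbOn B SP`, `Thin B (implantation B β)` (`StT4`); `StX2` (for `B`, `B`) gives a chart `c` with `B '' SP ⊆ range c`, `StX3` the germ
`F = invFun c ∘ B` along `SP`, `c (F p) = B p` near `SP`.  `φ` with `Thin F φ` (`StT2` (i)).  `StX4`: `F'`, `φ'`.  `G' = c ∘ F'` is `EmbOn SP` and `Thin G' (imp c univ φ')` (`StX1`).  `StR3X`: `B'` with `B' = G'` near `SP`.  Near the cuffs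
`B' = c ∘ F' = c ∘ F = B`.  For a barbell map `β'`: `Thin B' (implantation B' β')` (`StT4`), so `Thin G' (implantation B' β')` (`StT2` (v)), so `implantation B' β' ~ imp c univ φ' ~ imp c univ W ∘ imp c univ φ` (`StX1`), and `imp c univ φ ~ implantation B β`, `imp c univ W ~ W₄ ~ implantation B₀ barMap` (`StW4` (b)) as in
`m_Final2`. -/
def StXS : Prop :=
  ∃ (W : S4 → S4) (B₀ δ₀ : PartialDiffeomorph 𝓘(ℝ, R4) (𝓡 4) R4 S4 ∞),
    -- `W` is an implantation of a barbell whose cuffs bound disjoint balls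
    (Pool.Agent.Helper65.Barb.NB ⊆ B₀.source ∧ flat 0 ∪ flat 1 ⊆ δ₀.source ∧
      (∀ p ∈ sph 0 ∪ sph 1, δ₀ p = B₀ p) ∧ W = implantation B₀ barMap) ∧
    -- `W` has order at most two and is central
    Isot (𝓡 4) (fun x => W (W x)) (fun x => x) ∧
    (∀ Ψ Ψ' : S4 → S4, ContMDiff (𝓡 4) (𝓡 4) ∞ Ψ → ContMDiff (𝓡 4) (𝓡 4) ∞ Ψ' →
      (∀ x, Ψ (Ψ' x) = x) → (∀ x, Ψ' (Ψ x) = x) →
      Isot (𝓡 4) (fun x => Ψ (W (Ψ' x))) W) ∧
    -- bar independence up to `W`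
    (∀ (B B' : PartialDiffeomorph 𝓘(ℝ, R4) (𝓡 4) R4 S4 ∞) (β β' : R4 → R4) (U : Set R4),
      Pool.Agent.Helper65.Barb.NB ⊆ B.source → Pool.Agent.Helper65.Barb.NB ⊆ B'.source →
      IsBarbellMap β → IsBarbellMap β' → IsOpen U → sph 0 ∪ sph 1 ⊆ U → EqOn B B' U →
      Isot (𝓡 4) (implantation B' β') (implantation B β) ∨
        Isot (𝓡 4) (implantation B' β') (fun x => W (implantation B β x))) ∧
    -- both classes occur
    ∀ (B : PartialDiffeomorph 𝓘(ℝ, R4) (𝓡 4) R4 S4 ∞) (β : R4 → R4),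
      Pool.Agent.Helper65.Barb.NB ⊆ B.source → IsBarbellMap β →
      ∃ (B' : PartialDiffeomorph 𝓘(ℝ, R4) (𝓡 4) R4 S4 ∞) (U : Set R4),
        Pool.Agent.Helper65.Barb.NB ⊆ B'.source ∧ IsOpen U ∧ sph 0 ∪ sph 1 ⊆ U ∧ EqOn B B' U ∧
        ∀ β' : R4 → R4, IsBarbellMap β' →
          Isot (𝓡 4) (implantation B' β') (fun x => W (implantation B β x))

end Pool.Agent.Helper34.BX
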