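import Pool.Agent.Helper34.BX.Asm
import Pool.Agent.Helper34.BX.Fin

/-!
# Project BX: the final theorem
-/

set_option autoImplicit false

namespace Pool.Agent.Helper34.BX

theorem topExact : StExact := stExact Pool.Agent.Helper18.BI.hCI hXS

end Pool.Agent.Helper34.BX
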